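import Pool.Agent.K9h34.LP.Sep

/-!
# Barriers
-/

set_option autoImplicit false

namespace Pool.Agent.K9h34.LP

open Finset

/-- every interval of length `L` contains, for every energy, two neighbouring sites at which all
solutions are small -/
def BarP (K : ℝ) (V : ℤ → ℝ) (L : ℕ) (ϑ : ℝ) : Prop :=
  ∀ E : ℝ, |E| ≤ K → ∀ a : ℤ, ∃ m : ℤ, a ≤ m ∧ m + 2 ≤ a + L ∧
    ∀ u : ℤ → ℝ, (∀ n, a ≤ n → n < a + L → Sol V E u n) →
      ∀ S : ℝ, (∀ n, a - 1 ≤ n → n ≤ a + L → |u n| ≤ S) → |u m| ≤ ϑ * S ∧ |u (m + 1)| ≤ ϑ * S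

/-- robust form -/
def Bar (K : ℝ) (V : ℤ → ℝ) (L : ℕ) (ϑ ρ : ℝ) : Prop :=
  ∀ V' : ℤ → ℝ, (∀ n, |V' n - V n| ≤ ρ) → BarP K V' L ϑ

lemma BarP.mono {K : ℝ} {V : ℤ → ℝ} {L : ℕ} {ϑ ϑ' : ℝ} (h : BarP K V L ϑ) (h' : ϑ ≤ ϑ') :
    BarP K V L ϑ' := by
  intro E hE a
  obtain ⟨m, h1, h2, h3⟩ := h E hE a
  refine ⟨m, h1, h2, fun u hu S hS => ?_⟩
  obtain ⟨h4, h5⟩ := h3 u hu S hS
  have hS0 : 0 ≤ S := (abs_nonneg _).trans (hS m (by omega) (by omega))
  have h6 := mul_le_mul_of_nonneg_right h' hS0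
  exact ⟨h4.trans h6, h5.trans h6⟩

lemma Bar.shift {K : ℝ} {V : ℤ → ℝ} {L : ℕ} {ϑ ρ : ℝ} (h : Bar K V L ϑ ρ) (s : ℤ) :
    Bar K (fun n => V (n + s)) L ϑ ρ := by
  intro V' hV' E hE a
  have h1 := h (fun n => V' (n - s)) (by
    intro n
    have := hV' (n - s)
    simpa using this) E hE (a + s)
  obtain ⟨m, h2, h3, h4⟩ := h1
  refine ⟨m - s, by omega, by omega, fun u hu S hS => ?_⟩
  have h5 := h4 (fun n => u (n - s)) (by
    intro n hn1 hn2
    have := hu (n - s) (by omega) (by omega)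
    unfold Sol at this ⊢
    have e1 : n + 1 - s = n - s + 1 := by ring
    have e2 : n - 1 - s = n - s - 1 := by ring
    simp only [e1, e2]; exact this) S (by
    intro n hn1 hn2
    exact hS (n - s) (by omega) (by omega))
  have e3 : m + 1 - s = m - s + 1 := by ring
  simp only [e3] at h5
  exact h5

lemma Cuts.floor {L : ℕ} {p : ℤ → ℤ} (h : Cuts L p) (hL : 1 ≤ L) (a : ℤ) :
    ∃ j, p j ≤ a ∧ a < p (j + 1) := by
  have hL' : (1:ℤ) ≤ L := by exact_mod_cast hL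
  have h1 : ∃ b : ℤ, ∀ z : ℤ, p z ≤ a → z ≤ b := by
    refine ⟨|a - p 0|, fun z hz => ?_⟩
    by_contra hcon
    push Not at hcon
    have hz0 : 0 ≤ z := (abs_nonneg _).trans hcon.le
    obtain ⟨k, rfl⟩ := Int.eq_ofNat_of_zero_le hz0
    have h2 := h.mono 0 k
    rw [zero_add] at h2
    have h3 : (k:ℤ) ≤ L * k := by nlinarith
    have h4 := le_abs_self (a - p 0)
    linarith
  have h2 : ∃ z : ℤ, p z ≤ a := by
    refine ⟨-((|a - p 0|).toNat : ℤ), ?_⟩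
    have h3 := h.mono (-((|a - p 0|).toNat : ℤ)) (|a - p 0|).toNat
    rw [neg_add_cancel, Int.toNat_of_nonneg (abs_nonneg _)] at h3
    rw [Int.toNat_of_nonneg (abs_nonneg _)]
    have h4 : |a - p 0| ≤ L * |a - p 0| := by nlinarith [abs_nonneg (a - p 0)]
    have h5 := neg_abs_le (a - p 0)
    linarith
  obtain ⟨j, hj1, hj2⟩ := Int.exists_greatest_of_bdd h1 h2
  refine ⟨j, hj1, ?_⟩
  by_contra hcon
  push Not at hcon
  have := hj2 _ hcon
  omega

/-- nonresonant window -/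
def NR (V : ℤ → ℝ) (E σ : ℝ) (m m' : ℤ) : Prop := ∀ μ, Eig V (m + 1) m' μ → σ / 4 ≤ |μ - E|

lemma NR.bound {V : ℤ → ℝ} {E σ : ℝ} {m m' : ℤ} (h : NR V E σ m m') (hσ : 0 < σ)
    {u : ℤ → ℝ} (hu : ∀ n, m < n → n ≤ m' → Sol V E u n) {ϑ B : ℝ}
    (h1 : |u m| ≤ ϑ * B) (h2 : |u (m' + 1)| ≤ ϑ * B) {n : ℤ} (hn1 : m < n) (hn2 : n ≤ m') :
    |u n| ≤ 8 * ϑ / σ * B := by
  have h3 := resolvent (V := V) (α := m + 1) (β := m') (u := u) (lam := E) (d := σ / 4)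
    (by positivity) (fun n hn => by rw [mem_Icc] at hn; exact hu n (by omega) hn.2) h
    (n := n) (by rw [mem_Icc]; omega)
  have e : m + 1 - 1 = m := by ring
  rw [e] at h3
  refine h3.trans ?_
  rw [div_le_iff₀ (by positivity)]
  have e2 : 8 * ϑ / σ * B * (σ / 4) = ϑ * B + ϑ * B := by field_simp; ring
  rw [e2]
  exact add_le_add h1 h2

/-- two distant windows are not both resonant -/
lemma SepP.nr {V : ℤ → ℝ} {p : ℤ → ℤ} {R : ℕ} {σ : ℝ} (hs : SepP V p R σ) (hσ : 0 < σ) (E : ℝ)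
    {j j' : ℤ} (hj : j + 2 ≤ j') (hj' : j' ≤ j + R) {m m' n n' : ℤ} (h1 : p j ≤ m)
    (h2 : m < p (j + 1)) (h3 : p (j + 1) ≤ m') (h4 : m' < p (j + 2)) (h5 : p j' ≤ n)
    (h6 : n < p (j' + 1)) (h7 : p (j' + 1) ≤ n') (h8 : n' < p (j' + 2)) :
    NR V E σ m m' ∨ NR V E σ n n' := by
  by_contra hcon
  push Not at hcon
  obtain ⟨ha, hb⟩ := hcon
  unfold NR at ha hb
  push Not at ha hb
  obtain ⟨μ, h9, h10⟩ := ha
  obtain ⟨ν, h11, h12⟩ := hb
  have h13 := hs j j' hj hj' μ ν ⟨m, m', h1, h2, h3, h4, h9⟩ ⟨n, n', h5, h6, h7, h8, h11⟩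
  have h14 : |μ - ν| ≤ |μ - E| + |E - ν| := by
    have e : μ - ν = (μ - E) + (E - ν) := by ring
    rw [e]; exact abs_add_le _ _
  rw [abs_sub_comm E ν] at h14
  linarith

/-- barriers at the next scale -/
theorem bar_step {K : ℝ} {V : ℤ → ℝ} {L R r : ℕ} {p : ℤ → ℤ} {ϑ σ : ℝ} (hL : 1 ≤ L)
    (hp : Cuts L p) (hs : SepP V p R σ) (hσ : 0 < σ) (hϑ : 0 ≤ ϑ) (hb : BarP K V L ϑ)
    (hκ : 8 * ϑ / σ ≤ 1) (hr : 4 * r + 12 ≤ R) :
    BarP K V (8 * L * (r + 3)) ((8 * ϑ / σ) ^ r) := by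
  intro E hE a
  set κ := 8 * ϑ / σ with hκdef
  have hκ0 : 0 ≤ κ := by positivity
  choose m hm1 hm2 hm3 using fun j => hb E hE (p j)
  have hL' : (1:ℤ) ≤ L := by exact_mod_cast hL
  have hmj : ∀ j, m j + 2 ≤ p (j + 1) := fun j => (hm2 j).trans (hp.lo j)
  obtain ⟨j₀', hj1, hj2⟩ := hp.floor hL a
  obtain ⟨j₀, hj₀⟩ : ∃ j₀, j₀ = j₀' + 1 := ⟨_, rfl⟩
  have ha1 : a < p j₀ := by rw [hj₀]; exact hj2
  have ha2 : p j₀ ≤ a + 2 * L := by
    have := hp.hi j₀'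
    rw [hj₀]; linarith
  have hend : p (j₀ + (4 * r + 11 : ℕ)) ≤ a + (8 * L * (r + 3) : ℕ) := by
    have := hp.mono' j₀ (4 * r + 11)
    push_cast at this ⊢
    nlinarith
  have hnr : ∀ j j' : ℤ, j₀ ≤ j → j + 2 ≤ j' → j' ≤ j₀ + 4 * r + 9 →
      NR V E σ (m j) (m (j + 1)) ∨ NR V E σ (m j') (m (j' + 1)) := by
    intro j j' h1 h2 h3
    have e : ∀ j : ℤ, j + 1 + 1 = j + 2 := fun j => by ring
    have q1 := hmj (j + 1)
    have q2 := hmj (j' + 1)
    rw [e] at q1 q2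
    exact hs.nr hσ E h2 (by push_cast; omega) (hm1 j) (by have := hmj j; omega) (hm1 (j + 1))
      (by omega) (hm1 j') (by have := hmj j'; omega) (hm1 (j' + 1)) (by omega)
  -- a nonresonant run
  obtain ⟨s, hs1, hs2, hrun⟩ : ∃ s : ℤ, j₀ ≤ s ∧ s + 2 * r + 2 ≤ j₀ + 4 * r + 9 ∧
      ∀ j, s ≤ j → j ≤ s + 2 * r + 2 → NR V E σ (m j) (m (j + 1)) := by
    by_cases hc : ∀ j, j₀ ≤ j → j ≤ j₀ + 2 * r + 3 → NR V E σ (m j) (m (j + 1))
    · exact ⟨j₀, le_rfl, by omega, fun j h1 h2 => hc j h1 (by omega)⟩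
    · push Not at hc
      obtain ⟨i, hi1, hi2, hi3⟩ := hc
      refine ⟨i + 2, by omega, by omega, fun j h1 h2 => ?_⟩
      rcases hnr i j hi1 (by omega) (by omega) with h | h
      · exact absurd h hi3
      · exact h
  refine ⟨m (s + r + 1), ?_, ?_, ?_⟩
  · have h1 := hp.le (show j₀ ≤ s + r + 1 by omega)
    have h2 := hm1 (s + r + 1)
    omega
  · have h1 := hmj (s + r + 1)
    have h2 := hp.le (show s + r + 1 + 1 ≤ j₀ + (4 * r + 11 : ℕ) by push_cast; omega)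
    omega
  intro u hu S hS
  have hsolj : ∀ j, j₀ ≤ j → j ≤ j₀ + 4 * r + 10 → ∀ n, p j ≤ n → n < p (j + 1) → Sol V E u n := by
    intro j h1 h2 n h3 h4
    have h5 := hp.le h1
    have h6 := hp.le (show j + 1 ≤ j₀ + (4 * r + 11 : ℕ) by push_cast; omega)
    exact hu n (by omega) (by omega)
  have hsolw : ∀ j, j₀ ≤ j → j ≤ j₀ + 4 * r + 9 → ∀ n, m j < n → n ≤ m (j + 1) → Sol V E u n := by
    intro j h1 h2 n h3 h4
    have q0 := hm1 j
    have q1 := hmj j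
    have q2 := hmj (j + 1)
    by_cases h5 : n < p (j + 1)
    · exact hsolj j h1 (by omega) n (by omega) h5
    · exact hsolj (j + 1) (by omega) (by omega) n (by omega) (by omega)
  -- one step
  have hstep : ∀ j, s ≤ j → j ≤ s + 2 * r + 2 → ∀ B : ℝ,
      (∀ n, p j - 1 ≤ n → n ≤ p (j + 1) + L → |u n| ≤ B) →
      ∀ n, m j < n → n ≤ m (j + 1) → |u n| ≤ κ * B := by
    intro j h1 h2 B hB n h3 h4
    have q0 := hp.lo j
    have q1 := hp.lo (j + 1)
    have h5 := hm3 j u (fun n h6 h7 => hsolj j (by omega) (by omega) n h6 (by omega)) B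
      (fun n h6 h7 => hB n h6 (by omega))
    have h6 := hm3 (j + 1) u
      (fun n h6 h7 => hsolj (j + 1) (by omega) (by omega) n h6 (by omega)) B
      (fun n h6 h7 => hB n (by omega) h7)
    exact (hrun j h1 h2).bound hσ (hsolw j (by omega) (by omega)) h5.1 h6.2 h3 h4
  have key : ∀ d : ℕ, ∀ j, s + d ≤ j → j + d ≤ s + 2 * r + 2 → ∀ n, m j < n → n ≤ m (j + 1) →
      |u n| ≤ κ ^ (d + 1) * S := by
    intro d
    induction d with
    | zero =>
      intro j h1 h2 n h3 h4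
      push_cast at h1 h2
      rw [zero_add, pow_one]
      apply hstep j (by omega) (by omega) S _ n h3 h4
      intro n h5 h6
      have q0 := hp.le (show j₀ ≤ j by omega)
      have q1 := hp.le (show j + 1 + 1 ≤ j₀ + (4 * r + 11 : ℕ) by push_cast; omega)
      have q2 := hp.lo (j + 1)
      exact hS n (by omega) (by omega)
    | succ d ih =>
      intro j h1 h2 n h3 h4
      push_cast at h1 h2
      rw [pow_succ' κ (d + 1), mul_assoc]
      apply hstep j (by omega) (by omega) _ _ n h3 h4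
      intro n h5 h6
      have q0 := hmj (j - 1)
      rw [sub_add_cancel] at q0
      have q1 := hp.lo (j + 1)
      have q2 := hm1 (j + 1 + 1)
      by_cases h7 : n ≤ m j
      · exact ih (j - 1) (by omega) (by omega) n (by omega) (by rw [sub_add_cancel]; exact h7)
      · by_cases h8 : n ≤ m (j + 1)
        · exact ih j (by omega) (by omega) n (by omega) h8
        · exact ih (j + 1) (by omega) (by omega) n (by omega) (by omega)
  have hS0 : 0 ≤ S := (abs_nonneg _).trans (hS (a - 1) le_rfl (by omega))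
  have hfin : κ ^ (r + 1) * S ≤ κ ^ r * S :=
    mul_le_mul_of_nonneg_right (pow_le_pow_of_le_one hκ0 hκ (by omega)) hS0
  constructor
  · refine (key r (s + r) (by omega) (by omega) (m (s + r + 1)) ?_ le_rfl).trans hfin
    have := hmj (s + r)
    have := hm1 (s + r + 1)
    omega
  · refine (key r (s + r + 1) (by omega) (by omega) (m (s + r + 1) + 1) (by omega) ?_).trans hfin
    have := hmj (s + r + 1)
    have := hm1 (s + r + 1 + 1)
    omega

end Pool.Agent.K9h34.LP
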