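import Mathlib

/-!
# Dirichlet boxes of a discrete Schrödinger operator on the line
-/

set_option autoImplicit false

namespace Pool.Agent.K9h34.LP

open Finset

/-- the eigenvalue equation at the site `n` -/
def Sol (V : ℤ → ℝ) (E : ℝ) (u : ℤ → ℝ) (n : ℤ) : Prop :=
  u (n + 1) + u (n - 1) + V n * u n = E * u n

/-- shifted sums of functions that vanish outside the box -/
lemma sum_shift {α β : ℤ} {f g : ℤ → ℝ} (hf : ∀ n, n ∉ Icc α β → f n = 0)
    (hg : ∀ n, n ∉ Icc α β → g n = 0) :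
    ∑ n ∈ Icc α β, f (n + 1) * g n = ∑ n ∈ Icc α β, f n * g (n - 1) := by
  have h1 : ∑ n ∈ Icc α β, f (n + 1) * g n = ∑ n ∈ Icc (α + 1) (β + 1), f n * g (n - 1) := by
    apply Finset.sum_bij (fun n _ => n + 1)
    · intro a ha; rw [mem_Icc] at ha ⊢; omega
    · intro a _ b _ h; omega
    · intro b hb; rw [mem_Icc] at hb
      exact ⟨b - 1, by rw [mem_Icc]; omega, by omega⟩
    · intro a _; rw [add_sub_cancel_right]
  rw [h1]
  have h2 : ∑ n ∈ Icc (α + 1) (β + 1), f n * g (n - 1) =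
      ∑ n ∈ Icc α (β + 1), f n * g (n - 1) := by
    apply Finset.sum_subset
    · intro n hn; rw [mem_Icc] at hn ⊢; omega
    · intro n hn hn'
      rw [mem_Icc] at hn hn'
      rw [hg (n - 1) (by rw [mem_Icc]; omega), mul_zero]
  rw [h2]
  symm
  apply Finset.sum_subset
  · intro n hn; rw [mem_Icc] at hn ⊢; omega
  · intro n hn hn'
    rw [hf n hn', zero_mul]

/-- the box matrix -/
noncomputable def bm (V : ℤ → ℝ) (α β : ℤ) : Matrix (Icc α β) (Icc α β) ℝ :=
  fun i j => (if (j : ℤ) = i then V i else 0) + ((if (j : ℤ) = i + 1 then 1 else 0) +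
    (if (j : ℤ) = i - 1 then 1 else 0))

lemma bm_herm (V : ℤ → ℝ) (α β : ℤ) : (bm V α β).IsHermitian := by
  ext i j
  rw [Matrix.conjTranspose_apply, star_trivial]
  unfold bm
  have h1 : ((i : ℤ) = j) ↔ ((j : ℤ) = i) := eq_comm
  have h2 : ((i : ℤ) = j + 1) ↔ ((j : ℤ) = i - 1) := by constructor <;> intro h <;> omega
  have h3 : ((i : ℤ) = j - 1) ↔ ((j : ℤ) = i + 1) := by constructor <;> intro h <;> omega
  simp only [h1, h2, h3]
  by_cases h : (j : ℤ) = i
  · simp only [h]; ring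
  · simp only [h, if_false]; ring

lemma bm_mul (V : ℤ → ℝ) (α β : ℤ) (u : ℤ → ℝ) (hu : ∀ n, n ∉ Icc α β → u n = 0)
    (i : Icc α β) :
    (bm V α β).mulVec (fun j => u j) i = u (i + 1) + u (i - 1) + V i * u i := by
  unfold Matrix.mulVec dotProduct bm
  have key : ∀ (c : ℝ) (m : ℤ), ∑ j : Icc α β, (if (j : ℤ) = m then c else 0) * u j = c * u m := by
    intro c m
    rw [Finset.sum_coe_sort (Icc α β) (fun j : ℤ => (if j = m then c else 0) * u j)]
    simp only [ite_mul, zero_mul]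
    rw [Finset.sum_ite_eq' (Icc α β) m (fun x => c * u x)]
    split_ifs with h
    · rfl
    · rw [hu m h, mul_zero]
  have h : ∀ j : Icc α β, ((if (j : ℤ) = i then V i else 0) + ((if (j : ℤ) = i + 1 then 1 else 0) +
      (if (j : ℤ) = i - 1 then 1 else 0))) * u j = (if (j : ℤ) = i then V i else 0) * u j +
      ((if (j : ℤ) = (i : ℤ) + 1 then 1 else 0) * u j + (if (j : ℤ) = (i : ℤ) - 1 then 1 else 0) * u j) := by
    intro j; ring
  rw [Finset.sum_congr rfl (fun j _ => h j), sum_add_distrib, sum_add_distrib, key, key, key]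
  ring

/-- an orthonormal eigenbasis of a box -/
theorem box_basis (V : ℤ → ℝ) (α β : ℤ) :
    ∃ (E : Icc α β → ℝ) (φ : Icc α β → ℤ → ℝ),
      (∀ i n, n ∉ Icc α β → φ i n = 0) ∧
      (∀ i, ∀ n ∈ Icc α β, Sol V (E i) (φ i) n) ∧
      (∀ i j, ∑ n ∈ Icc α β, φ i n * φ j n = if i = j then 1 else 0) ∧
      (∀ f : ℤ → ℝ, ∀ n ∈ Icc α β, f n = ∑ i, (∑ m ∈ Icc α β, f m * φ i m) * φ i n) := by
  classical
  set b := (bm_herm V α β).eigenvectorBasis with hb
  set E := (bm_herm V α β).eigenvalues with hE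
  set φ : Icc α β → ℤ → ℝ := fun i n => if h : n ∈ Icc α β then b i ⟨n, h⟩ else 0 with hφ
  have h0 : ∀ i n, n ∉ Icc α β → φ i n = 0 := by
    intro i n hn
    simp only [hφ, dif_neg hn]
  have h1 : ∀ i (j : Icc α β), φ i j = b i j := by
    intro i j
    simp only [hφ, dif_pos j.2]
  have hinner : ∀ (x : EuclideanSpace ℝ (Icc α β)) (f : ℤ → ℝ), (∀ j : Icc α β, f j = x j) →
      ∀ i, inner ℝ (b i) x = ∑ n ∈ Icc α β, f n * φ i n := by
    intro x f hf i
    rw [PiLp.inner_apply, ← Finset.sum_coe_sort (Icc α β) (fun n => f n * φ i n)]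
    apply Finset.sum_congr rfl
    intro j _
    rw [hf j, h1 i j]
    simp
  refine ⟨E, φ, h0, ?_, ?_, ?_⟩
  · intro i n hn
    have h2 := (bm_herm V α β).mulVec_eigenvectorBasis i
    have h3 := congrFun h2 ⟨n, hn⟩
    have h4 : (⇑((bm_herm V α β).eigenvectorBasis i) : Icc α β → ℝ) = fun j : Icc α β => φ i (j : ℤ) := by
      funext j; rw [h1]
    rw [h4, bm_mul V α β (φ i) (h0 i) ⟨n, hn⟩] at h3
    unfold Sol
    exact h3
  · intro i j
    have h2 := orthonormal_iff_ite.mp b.orthonormal i j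
    rw [← h2, hinner (b j) (φ j) (h1 j) i]
    apply Finset.sum_congr rfl
    intro n _; ring
  · intro f n hn
    set x : EuclideanSpace ℝ (Icc α β) := WithLp.toLp 2 (fun j => f j) with hx
    have h2 := b.sum_repr' x
    have h3 : x ⟨n, hn⟩ = f n := rfl
    have h4 := congrArg (fun y : EuclideanSpace ℝ (Icc α β) => y ⟨n, hn⟩) h2
    simp only at h4
    rw [← h3, ← h4, WithLp.ofLp_sum, Finset.sum_apply]
    apply Finset.sum_congr rfl
    intro i _
    rw [hinner x f (fun j => rfl) i, PiLp.smul_apply, smul_eq_mul]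
    rw [← h1 i ⟨n, hn⟩]

section expansion

variable {V : ℤ → ℝ} {α β : ℤ} {E : Icc α β → ℝ} {φ : Icc α β → ℤ → ℝ}
  (h0 : ∀ i n, n ∉ Icc α β → φ i n = 0)
  (hs : ∀ i, ∀ n ∈ Icc α β, Sol V (E i) (φ i) n)
  (ho : ∀ i j, ∑ n ∈ Icc α β, φ i n * φ j n = if i = j then 1 else 0)
  (hc : ∀ f : ℤ → ℝ, ∀ n ∈ Icc α β, f n = ∑ i, (∑ m ∈ Icc α β, f m * φ i m) * φ i n)

include hc in
/-- Parseval -/
lemma parseval (f : ℤ → ℝ) :
    ∑ n ∈ Icc α β, f n ^ 2 = ∑ i, (∑ m ∈ Icc α β, f m * φ i m) ^ 2 := by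
  have h1 : ∀ n ∈ Icc α β, f n ^ 2 = ∑ i, (∑ m ∈ Icc α β, f m * φ i m) * (f n * φ i n) := by
    intro n hn
    have h2 := hc f n hn
    rw [sq]
    nth_rewrite 2 [h2]
    rw [Finset.mul_sum]
    apply Finset.sum_congr rfl
    intro i _; ring
  rw [Finset.sum_congr rfl h1, Finset.sum_comm]
  apply Finset.sum_congr rfl
  intro i _
  rw [← Finset.mul_sum, sq]

include h0 hs in
/-- the defect of an almost eigenfunction in the eigenbasis -/
lemma defect {u : ℤ → ℝ} (hu : ∀ n, n ∉ Icc α β → u n = 0) (lam : ℝ) (i : Icc α β) :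
    ∑ n ∈ Icc α β, (u (n + 1) + u (n - 1) + V n * u n - lam * u n) * φ i n =
      (E i - lam) * ∑ n ∈ Icc α β, u n * φ i n := by
  have h1 := sum_shift hu (h0 i)
  have h2 := sum_shift (h0 i) hu
  have h3 : ∑ n ∈ Icc α β, (u (n + 1) + u (n - 1) + V n * u n - lam * u n) * φ i n =
      ∑ n ∈ Icc α β, u (n + 1) * φ i n + ∑ n ∈ Icc α β, φ i n * u (n - 1) +
      ∑ n ∈ Icc α β, (V n - lam) * (u n * φ i n) := by
    rw [← sum_add_distrib, ← sum_add_distrib]
    apply Finset.sum_congr rfl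
    intro n _; ring
  rw [h3, h1, ← h2, ← sum_add_distrib, ← sum_add_distrib, Finset.mul_sum]
  apply Finset.sum_congr rfl
  intro n hn
  have h4 := hs i n hn
  unfold Sol at h4
  have h5 : φ i (n + 1) + φ i (n - 1) = (E i - V n) * φ i n := by linarith
  have h6 : u n * φ i (n - 1) + φ i (n + 1) * u n = u n * (φ i (n + 1) + φ i (n - 1)) := by ring
  rw [h6, h5]; ring

include h0 hs hc in
/-- Parseval for the defect -/
lemma defect_sq {u : ℤ → ℝ} (hu : ∀ n, n ∉ Icc α β → u n = 0) (lam : ℝ) :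
    ∑ n ∈ Icc α β, (u (n + 1) + u (n - 1) + V n * u n - lam * u n) ^ 2 =
      ∑ i, (E i - lam) ^ 2 * (∑ n ∈ Icc α β, u n * φ i n) ^ 2 := by
  rw [parseval hc (fun n => u (n + 1) + u (n - 1) + V n * u n - lam * u n)]
  apply Finset.sum_congr rfl
  intro i _
  rw [defect h0 hs hu lam i, mul_pow]

end expansion

/-- eigenvalues of the box -/
def Eig (V : ℤ → ℝ) (α β : ℤ) (lam : ℝ) : Prop :=
  ∃ u : ℤ → ℝ, (∀ n, n ∉ Icc α β → u n = 0) ∧ (∃ n, u n ≠ 0) ∧ ∀ n ∈ Icc α β, Sol V lam u n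

lemma eig_of_basis {V : ℤ → ℝ} {α β : ℤ} {E : Icc α β → ℝ} {φ : Icc α β → ℤ → ℝ}
    (h0 : ∀ i n, n ∉ Icc α β → φ i n = 0)
    (hs : ∀ i, ∀ n ∈ Icc α β, Sol V (E i) (φ i) n)
    (ho : ∀ i j, ∑ n ∈ Icc α β, φ i n * φ j n = if i = j then 1 else 0) (i : Icc α β) :
    Eig V α β (E i) := by
  refine ⟨φ i, h0 i, ?_, hs i⟩
  by_contra h
  push Not at h
  have := ho i i
  simp [h] at this

/-- almost eigenfunctions are close to eigenvalues -/
theorem exists_eig {V : ℤ → ℝ} {α β : ℤ} {u : ℤ → ℝ} (hu : ∀ n, n ∉ Icc α β → u n = 0)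
    (hu' : ∃ n, u n ≠ 0) {lam η : ℝ} (hη : 0 ≤ η)
    (h : ∑ n ∈ Icc α β, (u (n + 1) + u (n - 1) + V n * u n - lam * u n) ^ 2 ≤
      η ^ 2 * ∑ n ∈ Icc α β, u n ^ 2) :
    ∃ μ, Eig V α β μ ∧ |μ - lam| ≤ η := by
  obtain ⟨E, φ, h0, hs, ho, hc⟩ := box_basis V α β
  by_contra hcon
  push Not at hcon
  have h1 : ∀ i, η < |E i - lam| := fun i => hcon _ (eig_of_basis h0 hs ho i)
  rw [defect_sq h0 hs hc hu lam, parseval hc u, Finset.mul_sum] at h
  have h2 : ∀ i : Icc α β, η ^ 2 * (∑ n ∈ Icc α β, u n * φ i n) ^ 2 ≤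
      (E i - lam) ^ 2 * (∑ n ∈ Icc α β, u n * φ i n) ^ 2 := by
    intro i
    apply mul_le_mul_of_nonneg_right _ (sq_nonneg _)
    rw [← sq_abs (E i - lam)]
    exact pow_le_pow_left₀ hη (h1 i).le 2
  have h3 := (Finset.sum_eq_sum_iff_of_le (fun i _ => h2 i)).mp
    (le_antisymm (Finset.sum_le_sum fun i _ => h2 i) h)
  have h4 : ∀ i : Icc α β, ∑ n ∈ Icc α β, u n * φ i n = 0 := by
    intro i
    have h5 := h3 i (Finset.mem_univ i)
    have h6 : η ^ 2 < (E i - lam) ^ 2 := by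
      rw [← sq_abs (E i - lam)]
      exact pow_lt_pow_left₀ (h1 i) hη (by norm_num)
    by_contra h7
    have h8 : 0 < (∑ n ∈ Icc α β, u n * φ i n) ^ 2 := by positivity
    nlinarith
  obtain ⟨n, hn⟩ := hu'
  by_cases hn' : n ∈ Icc α β
  · rw [hc u n hn'] at hn
    apply hn
    apply Finset.sum_eq_zero
    intro i _
    rw [h4 i, zero_mul]
  · exact hn (hu n hn')

/-- resolvent bound -/
theorem resolvent {V : ℤ → ℝ} {α β : ℤ} {u : ℤ → ℝ} {lam d : ℝ} (hd : 0 < d)
    (hsol : ∀ n ∈ Icc α β, Sol V lam u n) (hE : ∀ μ, Eig V α β μ → d ≤ |μ - lam|)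
    {n : ℤ} (hn : n ∈ Icc α β) : |u n| ≤ (|u (α - 1)| + |u (β + 1)|) / d := by
  classical
  obtain ⟨E, φ, h0, hs, ho, hc⟩ := box_basis V α β
  set w : ℤ → ℝ := fun m => if m ∈ Icc α β then u m else 0 with hw
  have hw0 : ∀ m, m ∉ Icc α β → w m = 0 := fun m hm => by simp only [hw, if_neg hm]
  have hw1 : ∀ m, m ∈ Icc α β → w m = u m := fun m hm => by simp only [hw, if_pos hm]
  set S := |u (α - 1)| + |u (β + 1)| with hS
  have hab : α ≤ β := by rw [mem_Icc] at hn; omega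
  -- the defect
  have hdef : ∑ m ∈ Icc α β, (w (m + 1) + w (m - 1) + V m * w m - lam * w m) ^ 2 ≤ S ^ 2 := by
    have h1 : ∀ m ∈ Icc α β, w (m + 1) + w (m - 1) + V m * w m - lam * w m =
        (if m = α then - u (α - 1) else 0) + (if m = β then - u (β + 1) else 0) := by
      intro m hm
      have h2 := hsol m hm
      unfold Sol at h2
      rw [hw1 m hm]
      rw [mem_Icc] at hm
      have h3 : w (m + 1) = u (m + 1) - (if m = β then u (β + 1) else 0) := by
        by_cases h : m = β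
        · rw [if_pos h, hw0 _ (by rw [mem_Icc]; omega), h]; ring
        · rw [if_neg h, hw1 _ (by rw [mem_Icc]; omega)]; ring
      have h4 : w (m - 1) = u (m - 1) - (if m = α then u (α - 1) else 0) := by
        by_cases h : m = α
        · rw [if_pos h, hw0 _ (by rw [mem_Icc]; omega), h]; ring
        · rw [if_neg h, hw1 _ (by rw [mem_Icc]; omega)]; ring
      rw [h3, h4]
      have h5 : (if m = α then - u (α - 1) else 0) = -(if m = α then u (α - 1) else 0) := by
        split_ifs <;> ring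
      have h6 : (if m = β then - u (β + 1) else 0) = -(if m = β then u (β + 1) else 0) := by
        split_ifs <;> ring
      rw [h5, h6]; linarith
    rw [Finset.sum_congr rfl (fun m hm => by rw [h1 m hm])]
    by_cases hab' : α = β
    · subst hab'
      rw [Finset.Icc_self, Finset.sum_singleton, if_pos rfl, if_pos rfl, hS]
      rw [← sq_abs (- u (α - 1) + - u (α + 1))]
      apply pow_le_pow_left₀ (abs_nonneg _)
      calc |- u (α - 1) + - u (α + 1)| ≤ |- u (α - 1)| + |- u (α + 1)| := abs_add_le _ _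
        _ = _ := by rw [abs_neg, abs_neg]
    · have h2 : ∀ m : ℤ, ((if m = α then - u (α - 1) else 0) + (if m = β then - u (β + 1) else 0)) ^ 2
          = (if m = α then u (α - 1) ^ 2 else 0) + (if m = β then u (β + 1) ^ 2 else 0) := by
        intro m
        by_cases h : m = α
        · have : m ≠ β := by omega
          simp [h, hab']
        · by_cases h' : m = β
          · have h'' : ¬ (β = α) := fun e => hab' e.symm
            simp [h', h'']
          · simp [h, h']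
      rw [Finset.sum_congr rfl (fun m _ => h2 m), sum_add_distrib, Finset.sum_ite_eq',
        Finset.sum_ite_eq', if_pos (by rw [mem_Icc]; omega), if_pos (by rw [mem_Icc]; omega), hS,
        ← sq_abs (u (α - 1)), ← sq_abs (u (β + 1))]
      nlinarith [abs_nonneg (u (α - 1)), abs_nonneg (u (β + 1))]
  have h2 : d ^ 2 * ∑ m ∈ Icc α β, w m ^ 2 ≤ S ^ 2 := by
    refine le_trans ?_ hdef
    rw [defect_sq h0 hs hc hw0 lam, parseval hc w, Finset.mul_sum]
    apply Finset.sum_le_sum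
    intro i _
    apply mul_le_mul_of_nonneg_right _ (sq_nonneg _)
    rw [← sq_abs (E i - lam)]
    exact pow_le_pow_left₀ hd.le (hE _ (eig_of_basis h0 hs ho i)) 2
  have h3 : u n ^ 2 ≤ ∑ m ∈ Icc α β, w m ^ 2 := by
    rw [← hw1 n hn]
    exact Finset.single_le_sum (f := fun m => w m ^ 2) (fun m _ => sq_nonneg _) hn
  have hS0 : 0 ≤ S := by positivity
  rw [le_div_iff₀ hd]
  have h4 : (|u n| * d) ^ 2 ≤ S ^ 2 := by
    rw [mul_pow, sq_abs, mul_comm]
    exact le_trans (mul_le_mul_of_nonneg_left h3 (sq_nonneg d)) h2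
  exact (abs_le_of_sq_le_sq' h4 hS0).2

/-- finitely many eigenvalues -/
theorem eig_finite (V : ℤ → ℝ) (α β : ℤ) :
    ∃ F : Finset ℝ, F.card ≤ (β + 1 - α).toNat ∧ ∀ μ, Eig V α β μ → μ ∈ F := by
  classical
  obtain ⟨E, φ, h0, hs, ho, hc⟩ := box_basis V α β
  refine ⟨Finset.univ.image E, ?_, ?_⟩
  · refine Finset.card_image_le.trans ?_
    rw [Finset.card_univ, Fintype.card_coe, Int.card_Icc]
  · rintro μ ⟨u, hu, ⟨n, hn⟩, hsol⟩
    rw [Finset.mem_image]
    by_contra hcon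
    push Not at hcon
    apply hn
    by_cases hn' : n ∈ Icc α β
    · have h1 := defect_sq h0 hs hc hu μ
      have h2 : ∑ n ∈ Icc α β, (u (n + 1) + u (n - 1) + V n * u n - μ * u n) ^ 2 = 0 := by
        apply Finset.sum_eq_zero
        intro m hm
        have := hsol m hm
        unfold Sol at this
        rw [this]; ring
      rw [h2] at h1
      have h3 := (Finset.sum_eq_zero_iff_of_nonneg (fun i _ => by positivity)).mp h1.symm
      rw [hc u n hn']
      apply Finset.sum_eq_zero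
      intro i _
      have h4 := h3 i (Finset.mem_univ i)
      have h5 : E i - μ ≠ 0 := sub_ne_zero.mpr (hcon i (Finset.mem_univ i))
      have h6 : ∑ n ∈ Icc α β, u n * φ i n = 0 := by
        rcases mul_eq_zero.mp h4 with h | h
        · exact absurd (pow_eq_zero_iff (by norm_num) |>.mp h) h5
        · exact pow_eq_zero_iff (by norm_num) |>.mp h
      rw [h6, zero_mul]
    · exact hu n hn'

/-- eigenvalues depend only on the potential in the box -/
lemma Eig.congr {V V' : ℤ → ℝ} {α β : ℤ} {lam : ℝ} (h : ∀ n ∈ Icc α β, V n = V' n)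
    (he : Eig V α β lam) : Eig V' α β lam := by
  obtain ⟨u, h1, h2, h3⟩ := he
  refine ⟨u, h1, h2, fun n hn => ?_⟩
  have := h3 n hn
  unfold Sol at this ⊢
  rw [← h n hn]; exact this

/-- constant shifts -/
lemma Eig.add {V V' : ℤ → ℝ} {α β : ℤ} {lam c : ℝ} (h : ∀ n ∈ Icc α β, V' n = V n + c)
    (he : Eig V α β lam) : Eig V' α β (lam + c) := by
  obtain ⟨u, h1, h2, h3⟩ := he
  refine ⟨u, h1, h2, fun n hn => ?_⟩
  have := h3 n hn
  unfold Sol at this ⊢
  rw [h n hn]; linarith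

/-- translations -/
lemma Eig.shift {V : ℤ → ℝ} {α β : ℤ} {lam : ℝ} (s : ℤ) (he : Eig V α β lam) :
    Eig (fun n => V (n + s)) (α - s) (β - s) lam := by
  obtain ⟨u, h1, ⟨m, hm⟩, h3⟩ := he
  refine ⟨fun n => u (n + s), ?_, ⟨m - s, by simpa using hm⟩, ?_⟩
  · intro n hn
    exact h1 _ (by rw [mem_Icc] at hn ⊢; omega)
  · intro n hn
    have := h3 (n + s) (by rw [mem_Icc] at hn ⊢; omega)
    unfold Sol at this ⊢
    have e1 : n + 1 + s = n + s + 1 := by ring
    have e2 : n - 1 + s = n + s - 1 := by ring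
    simp only [e1, e2]; exact this

/-- eigenvalues move by at most the size of the perturbation -/
lemma Eig.weyl {V V' : ℤ → ℝ} {α β : ℤ} {lam η : ℝ} (hη : 0 ≤ η)
    (h : ∀ n ∈ Icc α β, |V' n - V n| ≤ η) (he : Eig V' α β lam) :
    ∃ μ, Eig V α β μ ∧ |μ - lam| ≤ η := by
  obtain ⟨u, h1, h2, h3⟩ := he
  apply exists_eig h1 h2 hη
  rw [Finset.mul_sum]
  apply Finset.sum_le_sum
  intro n hn
  have h4 := h3 n hn
  unfold Sol at h4
  have h5 : u (n + 1) + u (n - 1) + V n * u n - lam * u n = (V n - V' n) * u n := by linarith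
  rw [h5, mul_pow]
  apply mul_le_mul_of_nonneg_right _ (sq_nonneg _)
  rw [← sq_abs (V n - V' n), abs_sub_comm]
  exact pow_le_pow_left₀ (abs_nonneg _) (h n hn) 2

/-- eigenvalues are bounded -/
lemma Eig.bound {V : ℤ → ℝ} {α β : ℤ} {lam K : ℝ} (hV : ∀ n, |V n| + 2 ≤ K)
    (he : Eig V α β lam) : |lam| ≤ K := by
  obtain ⟨u, h1, ⟨m, hm⟩, h3⟩ := he
  have hm' : m ∈ Icc α β := by
    by_contra h; exact hm (h1 m h)
  obtain ⟨n, hn, hmax⟩ := Finset.exists_max_image (Icc α β) (fun n => |u n|) ⟨m, hm'⟩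
  have hall : ∀ k, |u k| ≤ |u n| := by
    intro k
    by_cases hk : k ∈ Icc α β
    · exact hmax k hk
    · rw [h1 k hk, abs_zero]; exact abs_nonneg _
  have hpos : 0 < |u n| := lt_of_lt_of_le (abs_pos.mpr hm) (hall m)
  have h4 := h3 n hn
  unfold Sol at h4
  have h5 : |lam * u n| ≤ K * |u n| := by
    rw [← h4]
    calc |u (n + 1) + u (n - 1) + V n * u n| ≤ |u (n + 1)| + |u (n - 1)| + |V n * u n| :=
          (abs_add_le _ _).trans (add_le_add_left (abs_add_le _ _) _)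
      _ ≤ |u n| + |u n| + |V n| * |u n| := by
          rw [abs_mul]
          exact add_le_add_left (add_le_add (hall _) (hall _)) _
      _ = (|V n| + 2) * |u n| := by ring
      _ ≤ K * |u n| := mul_le_mul_of_nonneg_right (hV n) hpos.le
  rw [abs_mul] at h5
  exact le_of_mul_le_mul_right h5 hpos

end Pool.Agent.K9h34.LP
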