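import Pool.Agent.K9h34.LP.Loc

/-!
# Gaps between the eigenvalues of boxes
-/

set_option autoImplicit false

namespace Pool.Agent.K9h34.LP

open Finset

/-- the Wronskian of two eigenfunctions of a box -/
lemma wronskian {V : ℤ → ℝ} {α β : ℤ} {E₁ E₂ : ℝ} {φ₁ φ₂ : ℤ → ℝ} (h₁ : EF V α β E₁ φ₁)
    (h₂ : EF V α β E₂ φ₂) {n : ℤ} (hn : n ∈ Icc α β) :
    |φ₁ n * φ₂ (n + 1) - φ₁ (n + 1) * φ₂ n| ≤ |E₁ - E₂| := by
  have key : ∀ k : ℕ, α + k ≤ β → φ₁ (α + k) * φ₂ (α + k + 1) - φ₁ (α + k + 1) * φ₂ (α + k) =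
      (E₂ - E₁) * ∑ i ∈ Icc α (α + k), φ₁ i * φ₂ i := by
    intro k
    induction k with
    | zero =>
      intro hk
      simp only [Nat.cast_zero, add_zero] at hk ⊢
      rw [Icc_self, sum_singleton]
      have h3 := h₁.sol α (by rw [mem_Icc]; omega)
      have h4 := h₂.sol α (by rw [mem_Icc]; omega)
      unfold Sol at h3 h4
      rw [h₁.out (α - 1) (by rw [mem_Icc]; omega)] at h3
      rw [h₂.out (α - 1) (by rw [mem_Icc]; omega)] at h4
      have e1 : φ₁ (α + 1) = E₁ * φ₁ α - V α * φ₁ α := by linarith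
      have e2 : φ₂ (α + 1) = E₂ * φ₂ α - V α * φ₂ α := by linarith
      rw [e1, e2]; ring
    | succ k ih =>
      intro hk
      push_cast at hk ⊢
      have h5 := ih (by omega)
      have e0 : α + ((k:ℤ) + 1) = α + k + 1 := by ring
      rw [e0]
      have h3 := h₁.sol (α + k + 1) (by rw [mem_Icc]; omega)
      have h4 := h₂.sol (α + k + 1) (by rw [mem_Icc]; omega)
      unfold Sol at h3 h4
      rw [add_sub_cancel_right] at h3 h4
      have e3 : Icc α (α + (k:ℤ) + 1) = insert (α + (k:ℤ) + 1) (Icc α (α + (k:ℤ))) := by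
        ext x; simp only [mem_Icc, mem_insert]; omega
      rw [e3, sum_insert (by rw [mem_Icc]; omega), mul_add, ← h5]
      have e1 : φ₁ (α + k + 1 + 1) = E₁ * φ₁ (α + k + 1) - V (α + k + 1) * φ₁ (α + k + 1) - φ₁ (α + k) := by
        linarith
      have e2 : φ₂ (α + k + 1 + 1) = E₂ * φ₂ (α + k + 1) - V (α + k + 1) * φ₂ (α + k + 1) - φ₂ (α + k) := by
        linarith
      rw [e1, e2]; ring
  rw [mem_Icc] at hn
  obtain ⟨k, hk⟩ : ∃ k : ℕ, n = α + k := ⟨(n - α).toNat, by omega⟩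
  rw [hk, key k (by omega), abs_mul, abs_sub_comm E₂ E₁]
  have h3 : |∑ i ∈ Icc α (α + (k:ℤ)), φ₁ i * φ₂ i| ≤ 1 := by
    calc |∑ i ∈ Icc α (α + (k:ℤ)), φ₁ i * φ₂ i| ≤ ∑ i ∈ Icc α (α + (k:ℤ)), |φ₁ i * φ₂ i| :=
          abs_sum_le_sum_abs _ _
      _ ≤ ∑ i ∈ Icc α β, |φ₁ i * φ₂ i| := by
          apply Finset.sum_le_sum_of_subset_of_nonneg
          · intro x hx; rw [mem_Icc] at hx ⊢; omega
          · intro i _ _; exact abs_nonneg _
      _ ≤ ∑ i ∈ Icc α β, (φ₁ i ^ 2 + φ₂ i ^ 2) / 2 := by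
          apply Finset.sum_le_sum
          intro i _
          rw [abs_mul, ← sq_abs (φ₁ i), ← sq_abs (φ₂ i)]
          nlinarith [sq_nonneg (|φ₁ i| - |φ₂ i|)]
      _ = 1 := by
          rw [← Finset.sum_div, sum_add_distrib, h₁.nrm, h₂.nrm]; norm_num
  calc |E₁ - E₂| * _ ≤ |E₁ - E₂| * 1 := mul_le_mul_of_nonneg_left h3 (abs_nonneg _)
    _ = _ := mul_one _

/-- growth of the difference of two eigenfunctions -/
lemma growth {V : ℤ → ℝ} {K : ℝ} {α β : ℤ} {E η : ℝ} {χ : ℤ → ℝ} (hE : ∀ n, |E - V n| ≤ 2 * K)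
    (hK : 0 ≤ K) (hη : 0 ≤ η) (hout : ∀ n, n ∉ Icc α β → χ n = 0)
    (hχ : ∀ n ∈ Icc α β, |χ (n + 1) + χ (n - 1) + V n * χ n - E * χ n| ≤ η)
    {n₀ : ℤ} (hn₀ : n₀ ∈ Icc α β) (h0 : χ n₀ = 0) (h1 : |χ (n₀ + 1)| ≤ η) (n : ℤ) :
    |χ n| ≤ (2 * K + 2) ^ (n - n₀).natAbs * η := by
  have hB : 1 ≤ 2 * K + 2 := by linarith
  rw [mem_Icc] at hn₀
  have hb : ∀ k : ℕ, η ≤ (2 * K + 2) ^ k * η := fun k => by
    have := one_le_pow₀ hB (n := k)
    nlinarith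
  have hf : ∀ k : ℕ, |χ (n₀ + k)| ≤ (2 * K + 2) ^ k * η ∧ |χ (n₀ + k + 1)| ≤ (2 * K + 2) ^ k * η := by
    intro k
    induction k with
    | zero => simp [h0, h1, hη]
    | succ k ih =>
      obtain ⟨ih1, ih2⟩ := ih
      have hbk := hb k
      have hpos : 0 ≤ (2 * K + 2) ^ k * η := by positivity
      have e : (2 * K + 2) ^ (k + 1) * η = (2 * K + 2) * ((2 * K + 2) ^ k * η) := by ring
      rw [e]
      push_cast
      have e0 : n₀ + ((k:ℤ) + 1) = n₀ + k + 1 := by ring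
      rw [e0]
      refine ⟨ih2.trans (by nlinarith), ?_⟩
      by_cases hk : n₀ + k + 1 ≤ β
      · have h3 := hχ (n₀ + k + 1) (by rw [mem_Icc]; omega)
        rw [add_sub_cancel_right] at h3
        have e1 : χ (n₀ + k + 1 + 1) = (χ (n₀ + k + 1 + 1) + χ (n₀ + k) + V (n₀ + k + 1) * χ (n₀ + k + 1)
          - E * χ (n₀ + k + 1)) + ((E - V (n₀ + k + 1)) * χ (n₀ + k + 1) + - χ (n₀ + k)) := by ring
        rw [e1]
        refine (abs_add_le _ _).trans ?_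
        have h4 : |(E - V (n₀ + k + 1)) * χ (n₀ + k + 1) + - χ (n₀ + k)| ≤
          2 * K * ((2 * K + 2) ^ k * η) + (2 * K + 2) ^ k * η := by
          refine (abs_add_le _ _).trans ?_
          rw [abs_mul, abs_neg]
          exact add_le_add (mul_le_mul (hE _) ih2 (abs_nonneg _) (by linarith)) ih1
        linarith
      · rw [hout _ (by rw [mem_Icc]; omega), abs_zero]
        positivity
  have hg : ∀ k : ℕ, |χ (n₀ - k)| ≤ (2 * K + 2) ^ k * η ∧ |χ (n₀ - k + 1)| ≤ (2 * K + 2) ^ k * η := by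
    intro k
    induction k with
    | zero => simp [h0, h1, hη]
    | succ k ih =>
      obtain ⟨ih1, ih2⟩ := ih
      have hbk := hb k
      have hpos : 0 ≤ (2 * K + 2) ^ k * η := by positivity
      have e : (2 * K + 2) ^ (k + 1) * η = (2 * K + 2) * ((2 * K + 2) ^ k * η) := by ring
      rw [e]
      push_cast
      have e0 : n₀ - ((k:ℤ) + 1) = n₀ - k - 1 := by ring
      have e2 : n₀ - (k:ℤ) - 1 + 1 = n₀ - k := by ring
      rw [e0, e2]
      refine ⟨?_, ih1.trans (by nlinarith)⟩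
      by_cases hk : α ≤ n₀ - k
      · have h3 := hχ (n₀ - k) (by rw [mem_Icc]; omega)
        have e1 : χ (n₀ - k - 1) = (χ (n₀ - k + 1) + χ (n₀ - k - 1) + V (n₀ - k) * χ (n₀ - k)
          - E * χ (n₀ - k)) + ((E - V (n₀ - k)) * χ (n₀ - k) + - χ (n₀ - k + 1)) := by ring
        rw [e1]
        refine (abs_add_le _ _).trans ?_
        have h4 : |(E - V (n₀ - k)) * χ (n₀ - k) + - χ (n₀ - k + 1)| ≤
          2 * K * ((2 * K + 2) ^ k * η) + (2 * K + 2) ^ k * η := by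
          refine (abs_add_le _ _).trans ?_
          rw [abs_mul, abs_neg]
          exact add_le_add (mul_le_mul (hE _) ih1 (abs_nonneg _) (by linarith)) ih2
        linarith
      · rw [hout _ (by rw [mem_Icc]; omega), abs_zero]
        positivity
  rcases le_total n₀ n with h2 | h2
  · obtain ⟨k, hk⟩ : ∃ k : ℕ, n = n₀ + k := ⟨(n - n₀).toNat, by omega⟩
    have : (n - n₀).natAbs = k := by omega
    rw [this, hk]; exact (hf k).1
  · obtain ⟨k, hk⟩ : ∃ k : ℕ, n = n₀ - k := ⟨(n₀ - n).toNat, by omega⟩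
    have : (n - n₀).natAbs = k := by omega
    rw [this, hk]; exact (hg k).1

/-- the gap -/
theorem gap {K : ℝ} {V : ℤ → ℝ} {L R : ℕ} {ϑ σ κ g : ℝ} {p : ℤ → ℤ} (h : Lvl K V L R ϑ σ p)
    (hV : ∀ n, |V n| + 2 ≤ K) (hκ : 8 * ϑ / σ ≤ κ) {α β : ℤ} {E₁ E₂ : ℝ} {φ₁ φ₂ : ℤ → ℝ}
    (h₁ : EF V α β E₁ φ₁) (h₂ : EF V α β E₂ φ₂) (hort : ∑ n ∈ Icc α β, φ₁ n * φ₂ n = 0)
    (hlen : α - 1 + 2 * L ≤ β) (hlen' : β - α < L * R)
    (hsmall : ((β + 1 - α : ℤ) : ℝ) * κ ^ 2 ≤ 1 / 100) (hgσ : g ≤ σ / 2)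
    (hg : 46200 * L ^ 2 * (2 * K + 2) ^ (20 * L) * g ≤ 1) : g ≤ |E₁ - E₂| := by
  by_contra hcon
  push Not at hcon
  have hE1 := h₁.eig.bound hV
  have hE2 := h₂.eig.bound hV
  have hL := h.hL
  have hL' : (1:ℤ) ≤ L := by exact_mod_cast hL
  have hLr : (1:ℝ) ≤ L := by exact_mod_cast hL
  have hp := h.cuts
  have hκ0 : 0 ≤ κ := le_trans (by have := h.hϑ; have := h.hσ; positivity) hκ
  obtain ⟨j₁, ⟨hc1, hc1'⟩, ⟨m₁, m₁', lam, a1, a2, a3, a4, a5, a6⟩, hdec1⟩ :=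
    loc h hκ h₁ hE1 hlen hlen' (by linarith)
  obtain ⟨j₂, ⟨hc2, hc2'⟩, ⟨m₂, m₂', mu, b1, b2, b3, b4, b5, b6⟩, hdec2⟩ :=
    loc h hκ h₂ hE2 hlen hlen' (by linarith)
  have hnear : ∀ i j : ℤ, i + 2 ≤ j → α ≤ p (i + 1) → p (j + 1) ≤ β → j ≤ i + R := by
    intro i j h3 h4 h5
    obtain ⟨k, hk⟩ : ∃ k : ℕ, j + 1 = i + 1 + k := ⟨(j - i).toNat, by omega⟩
    have h6 := hp.mono (i + 1) k
    rw [← hk] at h6
    have h7 : (L:ℤ) * k < L * R := by linarith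
    have h8 : (k:ℤ) < R := lt_of_mul_lt_mul_left h7 (by omega)
    omega
  have htri : ∀ x y z w : ℝ, |x - y| ≤ |x - z| + |z - w| + |w - y| := by
    intro x y z w
    have e : x - y = (x - z) + (z - w) + (w - y) := by ring
    rw [e]; exact (abs_add_le _ _).trans (add_le_add_left (abs_add_le _ _) _)
  have hj12 : |j₁ - j₂| ≤ 1 := by
    by_contra hc
    rcases le_total j₁ j₂ with h3 | h3
    · have h4 : j₁ + 2 ≤ j₂ := by
        rw [abs_of_nonpos (by omega)] at hc; omega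
      have h5 := h.sep j₁ j₂ h4 (hnear _ _ h4 hc1 hc2') lam mu ⟨m₁, m₁', a1, a2, a3, a4, a5⟩
        ⟨m₂, m₂', b1, b2, b3, b4, b5⟩
      have h6 := htri lam mu E₁ E₂
      rw [abs_sub_comm E₂ mu] at h6
      linarith
    · have h4 : j₂ + 2 ≤ j₁ := by
        rw [abs_of_nonneg (by omega)] at hc; omega
      have h5 := h.sep j₂ j₁ h4 (hnear _ _ h4 hc2 hc1') mu lam ⟨m₂, m₂', b1, b2, b3, b4, b5⟩
        ⟨m₁, m₁', a1, a2, a3, a4, a5⟩
      have h6 := htri mu lam E₂ E₁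
      rw [abs_sub_comm E₁ lam, abs_sub_comm E₂ E₁] at h6
      linarith
  obtain ⟨c, hc⟩ : ∃ c, c = p (j₂ + 1) := ⟨_, rfl⟩
  have hcc : |p (j₁ + 1) - c| ≤ 2 * L := by
    rw [hc, abs_le]
    rw [abs_le] at hj12
    have q1 : j₁ = j₂ ∨ j₁ = j₂ + 1 ∨ j₁ + 1 = j₂ := by omega
    rcases q1 with q | q | q
    · rw [q]; omega
    · have := hp.hi (j₂ + 1)
      have := hp.lo (j₂ + 1)
      rw [q]; omega
    · have := hp.hi (j₁ + 1)
      have := hp.lo (j₁ + 1)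
      rw [← q]; omega
  have hfar2 : ∀ n, 10 * L < |n - c| → |φ₂ n| ≤ κ := by
    intro n hn
    have := hdec2 1 n (by rw [← hc]; push_cast; omega)
    rwa [pow_one] at this
  have hfar1 : ∀ n, 10 * L < |n - c| → |φ₁ n| ≤ κ := by
    intro n hn
    have h3 : 8 * (L:ℤ) * (1:ℕ) ≤ |n - p (j₁ + 1)| := by
      have e : n - c = (n - p (j₁ + 1)) + (p (j₁ + 1) - c) := by ring
      have h4 := abs_add_le (n - p (j₁ + 1)) (p (j₁ + 1) - c)
      rw [← e] at h4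
      push_cast; omega
    have := hdec1 1 n h3
    rwa [pow_one] at this
  set D := (Icc α β).filter (fun n => |n - c| ≤ 10 * L) with hD
  set F := (Icc α β).filter (fun n => ¬ |n - c| ≤ 10 * L) with hF
  have hsplit : ∀ f : ℤ → ℝ, ∑ n ∈ Icc α β, f n = ∑ n ∈ D, f n + ∑ n ∈ F, f n := fun f =>
    (Finset.sum_filter_add_sum_filter_not _ _ _).symm
  have hcardD : (D.card : ℝ) ≤ 21 * L := by
    have h3 : D ⊆ Icc (c - 10 * L) (c + 10 * L) := by
      intro n hn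
      rw [hD, mem_filter, abs_le] at hn
      rw [mem_Icc]; omega
    have h4 := Finset.card_le_card h3
    rw [Int.card_Icc] at h4
    have h5 : D.card ≤ 21 * L := by omega
    exact_mod_cast h5
  have hcardF : (F.card : ℝ) ≤ ((β + 1 - α : ℤ) : ℝ) := by
    have h3 := Finset.card_le_card (Finset.filter_subset (fun n => ¬ |n - c| ≤ 10 * L) (Icc α β))
    rw [Int.card_Icc] at h3
    have h4 : ((F.card : ℕ) : ℤ) ≤ β + 1 - α := by
      rw [hF]; omega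
    exact_mod_cast h4
  have hFb : ∀ f : ℤ → ℝ, (∀ n ∈ F, |f n| ≤ κ ^ 2) → |∑ n ∈ F, f n| ≤ 1 / 100 := by
    intro f hf
    calc |∑ n ∈ F, f n| ≤ ∑ n ∈ F, |f n| := abs_sum_le_sum_abs _ _
      _ ≤ ∑ n ∈ F, κ ^ 2 := Finset.sum_le_sum hf
      _ = F.card * κ ^ 2 := by rw [sum_const, nsmul_eq_mul]
      _ ≤ ((β + 1 - α : ℤ) : ℝ) * κ ^ 2 := mul_le_mul_of_nonneg_right hcardF (sq_nonneg _)
      _ ≤ 1 / 100 := hsmall
  have hFn : ∀ n ∈ F, 10 * L < |n - c| := by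
    intro n hn
    rw [hF, mem_filter] at hn
    omega
  have hF11 := hFb (fun n => φ₁ n ^ 2) (fun n hn => by
    rw [abs_pow]; exact pow_le_pow_left₀ (abs_nonneg _) (hfar1 n (hFn n hn)) 2)
  have hF22 := hFb (fun n => φ₂ n ^ 2) (fun n hn => by
    rw [abs_pow]; exact pow_le_pow_left₀ (abs_nonneg _) (hfar2 n (hFn n hn)) 2)
  have hF12 := hFb (fun n => φ₁ n * φ₂ n) (fun n hn => by
    rw [abs_mul, sq]
    exact mul_le_mul (hfar1 n (hFn n hn)) (hfar2 n (hFn n hn)) (abs_nonneg _) hκ0)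
  have hD1 := hsplit (fun n => φ₁ n ^ 2)
  have hD2 := hsplit (fun n => φ₂ n ^ 2)
  have hD12 := hsplit (fun n => φ₁ n * φ₂ n)
  rw [h₁.nrm] at hD1
  rw [h₂.nrm] at hD2
  rw [hort] at hD12
  rw [abs_le] at hF11 hF22 hF12
  -- a site with a large value
  obtain ⟨n₀, hn₀, hbig⟩ : ∃ n₀ ∈ D, 1 / (22 * L) ≤ φ₂ n₀ ^ 2 := by
    by_contra hc
    push Not at hc
    have h3 : ∑ n ∈ D, φ₂ n ^ 2 ≤ ∑ n ∈ D, 1 / (22 * (L:ℝ)) := Finset.sum_le_sum fun n hn => (hc n hn).le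
    rw [sum_const, nsmul_eq_mul] at h3
    have h4 : (D.card : ℝ) * (1 / (22 * L)) ≤ 21 * L * (1 / (22 * L)) :=
      mul_le_mul_of_nonneg_right hcardD (by positivity)
    have h5 : 21 * (L:ℝ) * (1 / (22 * L)) = 21 / 22 := by field_simp
    linarith
  set a := φ₂ n₀ with ha
  have ha1 : |a| ≤ 1 := h₂.le_one n₀
  have ha2 : 1 / (22 * L) ≤ |a| := by
    refine hbig.trans ?_
    rw [← sq_abs, sq]
    nlinarith [abs_nonneg a]
  have ha0 : 0 < |a| := lt_of_lt_of_le (by positivity) ha2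
  have ha0' : a ≠ 0 := abs_pos.mp ha0
  have hainv : 1 / |a| ≤ 22 * L := by
    rw [div_le_iff₀ ha0]
    rw [div_le_iff₀ (by positivity)] at ha2
    linarith
  obtain ⟨q, hq⟩ : ∃ q, q = φ₁ n₀ / a := ⟨_, rfl⟩
  set χ : ℤ → ℝ := fun n => φ₁ n - q * φ₂ n with hχ
  set η := 22 * L * |E₁ - E₂| with hη
  have hη0 : 0 ≤ η := by positivity
  have hqb : |q| ≤ 22 * L := by
    rw [hq, abs_div]
    calc |φ₁ n₀| / |a| ≤ 1 / |a| := by
          apply div_le_div_of_nonneg_right (h₁.le_one n₀) ha0.le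
      _ ≤ 22 * L := hainv
  have hD' : n₀ ∈ Icc α β := (Finset.mem_filter.mp hn₀).1
  have hχ0 : χ n₀ = 0 := by
    simp only [hχ]; rw [hq, ← ha]; field_simp; ring
  have hχ1 : |χ (n₀ + 1)| ≤ η := by
    have e : χ (n₀ + 1) = -(φ₁ n₀ * φ₂ (n₀ + 1) - φ₁ (n₀ + 1) * φ₂ n₀) / a := by
      simp only [hχ]; rw [hq, ← ha]; field_simp; ring
    rw [e, abs_div, abs_neg]
    calc _ ≤ |E₁ - E₂| / |a| := div_le_div_of_nonneg_right (wronskian h₁ h₂ hD') ha0.le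
      _ = (1 / |a|) * |E₁ - E₂| := by ring
      _ ≤ (22 * L) * |E₁ - E₂| := mul_le_mul_of_nonneg_right hainv (abs_nonneg _)
  have hχout : ∀ n, n ∉ Icc α β → χ n = 0 := by
    intro n hn
    simp only [hχ]; rw [h₁.out n hn, h₂.out n hn]; ring
  have hχeq : ∀ n ∈ Icc α β, |χ (n + 1) + χ (n - 1) + V n * χ n - E₁ * χ n| ≤ η := by
    intro n hn
    have h3 := h₁.sol n hn
    have h4 := h₂.sol n hn
    unfold Sol at h3 h4
    have e : χ (n + 1) + χ (n - 1) + V n * χ n - E₁ * χ n = q * (E₁ - E₂) * φ₂ n := by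
      simp only [hχ]
      linear_combination h3 - q * h4
    rw [e, abs_mul, abs_mul]
    calc |q| * |E₁ - E₂| * |φ₂ n| ≤ (22 * L) * |E₁ - E₂| * 1 := by
          apply mul_le_mul _ (h₂.le_one n) (abs_nonneg _) (by positivity)
          exact mul_le_mul_of_nonneg_right hqb (abs_nonneg _)
      _ = η := by rw [mul_one]
  have hK0 : 0 ≤ K := le_trans (by positivity) (hV 0)
  have hgr := growth (V := V) (K := K) (E := E₁) (η := η) (χ := χ) (α := α) (β := β)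
    (fun n => by
      have h3 := hV n
      calc |E₁ - V n| ≤ |E₁| + |V n| := abs_sub _ _
        _ ≤ 2 * K := by linarith) hK0 hη0 hχout hχeq hD' hχ0 hχ1
  have hζ : ∀ n ∈ D, |χ n| ≤ 1 / (2100 * L) := by
    intro n hn
    refine (hgr n).trans ?_
    have h3 : (n - n₀).natAbs ≤ 20 * L := by
      rw [hD, mem_filter, abs_le] at hn hn₀
      omega
    have h4 : (2 * K + 2) ^ (n - n₀).natAbs ≤ (2 * K + 2) ^ (20 * L) :=
      pow_le_pow_right₀ (by linarith) h3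
    calc _ ≤ (2 * K + 2) ^ (20 * L) * η := mul_le_mul_of_nonneg_right h4 hη0
      _ ≤ (2 * K + 2) ^ (20 * L) * (22 * L * g) := by
          apply mul_le_mul_of_nonneg_left _ (by positivity)
          exact mul_le_mul_of_nonneg_left hcon.le (by positivity)
      _ ≤ 1 / (2100 * L) := by
          rw [le_div_iff₀ (by positivity)]
          calc _ = 46200 * L ^ 2 * (2 * K + 2) ^ (20 * L) * g := by ring
            _ ≤ 1 := hg
  have hφ1 : ∀ n, φ₁ n = q * φ₂ n + χ n := fun n => by simp only [hχ]; ring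
  have hm2 : (99:ℝ) / 100 ≤ ∑ n ∈ D, φ₂ n ^ 2 := by linarith
  have hm2' : ∑ n ∈ D, φ₂ n ^ 2 ≤ 1 := by
    have : 0 ≤ ∑ n ∈ F, φ₂ n ^ 2 := Finset.sum_nonneg fun n _ => sq_nonneg _
    linarith
  have hχφ : |∑ n ∈ D, χ n * φ₂ n| ≤ 1 / 100 := by
    calc |∑ n ∈ D, χ n * φ₂ n| ≤ ∑ n ∈ D, |χ n * φ₂ n| := abs_sum_le_sum_abs _ _
      _ ≤ ∑ n ∈ D, 1 / (2100 * (L:ℝ)) := by
          apply Finset.sum_le_sum
          intro n hn
          rw [abs_mul]
          calc _ ≤ 1 / (2100 * (L:ℝ)) * 1 :=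
                mul_le_mul (hζ n hn) (h₂.le_one n) (abs_nonneg _) (by positivity)
            _ = _ := mul_one _
      _ = D.card * (1 / (2100 * L)) := by rw [sum_const, nsmul_eq_mul]
      _ ≤ 21 * L * (1 / (2100 * L)) := mul_le_mul_of_nonneg_right hcardD (by positivity)
      _ = 1 / 100 := by field_simp; norm_num
  have hχχ : ∑ n ∈ D, χ n ^ 2 ≤ 1 / 100 := by
    calc ∑ n ∈ D, χ n ^ 2 ≤ ∑ n ∈ D, 1 / (2100 * (L:ℝ)) := by
          apply Finset.sum_le_sum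
          intro n hn
          rw [← sq_abs, sq]
          have h3 := hζ n hn
          have h4 : 1 / (2100 * (L:ℝ)) ≤ 1 := by
            rw [div_le_one (by positivity)]; linarith
          calc _ ≤ 1 / (2100 * (L:ℝ)) * 1 :=
                mul_le_mul h3 (h3.trans h4) (abs_nonneg _) (by positivity)
            _ = _ := mul_one _
      _ = D.card * (1 / (2100 * L)) := by rw [sum_const, nsmul_eq_mul]
      _ ≤ 21 * L * (1 / (2100 * L)) := mul_le_mul_of_nonneg_right hcardD (by positivity)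
      _ = 1 / 100 := by field_simp; norm_num
  have e12 : ∑ n ∈ D, φ₁ n * φ₂ n = q * ∑ n ∈ D, φ₂ n ^ 2 + ∑ n ∈ D, χ n * φ₂ n := by
    rw [Finset.mul_sum, ← sum_add_distrib]
    apply Finset.sum_congr rfl
    intro n _
    rw [hφ1 n]; ring
  rw [abs_le] at hχφ
  have hq1 : |q * ∑ n ∈ D, φ₂ n ^ 2| ≤ 1 / 50 := by
    rw [abs_le]
    constructor <;> linarith
  have hq2 : |q| ≤ 1 / 49 := by
    rw [abs_mul, abs_of_nonneg (by linarith : (0:ℝ) ≤ ∑ n ∈ D, φ₂ n ^ 2)] at hq1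
    nlinarith [abs_nonneg q]
  have e11 : ∑ n ∈ D, φ₁ n ^ 2 ≤ 2 * q ^ 2 * ∑ n ∈ D, φ₂ n ^ 2 + 2 * ∑ n ∈ D, χ n ^ 2 := by
    rw [Finset.mul_sum, Finset.mul_sum, ← sum_add_distrib]
    apply Finset.sum_le_sum
    intro n _
    rw [hφ1 n]
    nlinarith [sq_nonneg (q * φ₂ n - χ n)]
  have hq3 : q ^ 2 ≤ 1 / 49 := by
    rw [← sq_abs, sq]
    nlinarith [abs_nonneg q]
  nlinarith [sq_nonneg q]

end Pool.Agent.K9h34.LP
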