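import Pool.Agent.K9h34.LP.Init

/-!
# The initial barrier, continued
-/

set_option autoImplicit false

namespace Pool.Agent.K9h34.LP

open Filter Topology

lemma HypW.mono {w : ℤ → ℝ} {q : ℕ} {E₀ ρ θ ρ' θ' : ℝ} (h : HypW w q E₀ ρ θ) {E : ℝ}
    (hE : |E - E₀| ≤ ρ) (hρ : ρ' ≤ ρ) (hθ : θ ≤ θ') : ∀ V u : ℤ → ℝ, ∀ c : ℤ, (q : ℤ) ∣ c →
    (∀ n, c - q ≤ n → n < c + q → |V n - w n| ≤ ρ' ∧ Sol V E u n) →
    nn u c ≤ θ' * max (nn u (c - q)) (nn u (c + q)) := by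
  intro V u c hc hV
  refine (h E hE V u c hc (fun n hn hn' => ⟨((hV n hn hn').1).trans hρ, (hV n hn hn').2⟩)).trans ?_
  apply mul_le_mul_of_nonneg_right hθ
  exact le_max_of_le_left (le_max_of_le_left (abs_nonneg _))

/-- finitely many words suffice for all energies -/
theorem family {v₀ : ℤ → ℝ} {N₀ : ℕ} (hN : 3 ≤ N₀) (hper : ∀ x, v₀ (x + N₀) = v₀ x) {ε : ℝ}
    (hε : 0 < ε) {K : ℝ} (hK : 0 ≤ K) :
    ∃ (M : ℕ) (q : ℕ → ℕ) (w : ℕ → ℤ → ℝ) (ρ θ : ℝ), 1 ≤ M ∧ (∀ i, 1 ≤ q i) ∧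
      (∀ i y, |w i y - v₀ y| ≤ ε) ∧ 0 < ρ ∧ 0 < θ ∧ θ < 1 ∧
      ∀ E, |E| ≤ K → ∃ i, i < M ∧ ∀ V u : ℤ → ℝ, ∀ c : ℤ, (q i : ℤ) ∣ c →
        (∀ n, c - q i ≤ n → n < c + q i → |V n - w i n| ≤ ρ ∧ Sol V E u n) →
        nn u c ≤ θ * max (nn u (c - q i)) (nn u (c + q i)) := by
  classical
  choose q w ρ θ hq hw hρ hθ0 hθ1 hhyp using fun E₀ : ℝ => hyp_local hN hper hε E₀
  have hcpt : IsCompact (Set.Icc (-K) K) := isCompact_Icc
  obtain ⟨t, -, ht⟩ := hcpt.elim_nhds_subcover (fun E₀ => Metric.ball E₀ (ρ E₀))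
    (fun E₀ _ => Metric.ball_mem_nhds _ (hρ E₀))
  have hne : t.Nonempty := by
    have h0 : (0:ℝ) ∈ Set.Icc (-K) K := ⟨by linarith, hK⟩
    have h1 := ht h0
    rw [Set.mem_iUnion₂] at h1
    obtain ⟨x, hx, -⟩ := h1
    exact ⟨x, hx⟩
  obtain ⟨x₁, hx₁, hmin⟩ := t.exists_min_image ρ hne
  obtain ⟨x₂, hx₂, hmax⟩ := t.exists_max_image θ hne
  set e : ℕ → ℝ := fun i => t.toList.getD i 0 with he
  refine ⟨t.toList.length, fun i => q (e i), fun i => w (e i), ρ x₁, θ x₂, ?_, fun i => hq _,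
    fun i y => hw _ y, hρ _, hθ0 _, hθ1 _, ?_⟩
  · rw [Finset.length_toList]
    exact Finset.card_pos.mpr hne
  · intro E hE
    have h1 := ht (show E ∈ Set.Icc (-K) K from abs_le.mp hE)
    rw [Set.mem_iUnion₂] at h1
    obtain ⟨x, hx, hEx⟩ := h1
    obtain ⟨i, hi, hix⟩ := List.mem_iff_getElem.mp (Finset.mem_toList.mpr hx)
    have hei : e i = x := by
      simp only [he]
      rw [List.getD_eq_getElem _ _ hi, hix]
    refine ⟨i, hi, ?_⟩
    show ∀ V u : ℤ → ℝ, ∀ c : ℤ, (q (e i) : ℤ) ∣ c →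
        (∀ n, c - q (e i) ≤ n → n < c + q (e i) → |V n - w (e i) n| ≤ ρ x₁ ∧ Sol V E u n) →
        nn u c ≤ θ x₂ * max (nn u (c - q (e i))) (nn u (c + q (e i)))
    rw [hei]
    rw [Metric.mem_ball, Real.dist_eq] at hEx
    exact (hhyp x).mono hEx.le (hmin x hx) (hmax x hx)

/-- iteration of the hyperbolic inequality -/
lemma depth {u : ℤ → ℝ} {q : ℤ} {θ S : ℝ} {c₀ : ℤ} (hθ : 0 ≤ θ) (D : ℕ)
    (h : ∀ j : ℤ, |j| < D → nn u (c₀ + j * q) ≤ θ * max (nn u (c₀ + j * q - q)) (nn u (c₀ + j * q + q)))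
    (hS : ∀ j : ℤ, |j| ≤ D → nn u (c₀ + j * q) ≤ S) :
    ∀ d : ℕ, d ≤ D → ∀ j : ℤ, |j| ≤ D - d → nn u (c₀ + j * q) ≤ θ ^ d * S := by
  intro d
  induction d with
  | zero =>
    intro _ j hj
    rw [pow_zero, one_mul]
    exact hS j (by push_cast at hj; linarith)
  | succ d ih =>
    intro hd j hj
    push_cast at hj
    have h1 := h j (by omega)
    have h2 := ih (by omega) (j - 1) (by
      rcases abs_cases j with ⟨_, _⟩ | ⟨_, _⟩ <;> rcases abs_cases (j - 1) with ⟨_, _⟩ | ⟨_, _⟩ <;> omega)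
    have h3 := ih (by omega) (j + 1) (by
      rcases abs_cases j with ⟨_, _⟩ | ⟨_, _⟩ <;> rcases abs_cases (j + 1) with ⟨_, _⟩ | ⟨_, _⟩ <;> omega)
    have e1 : c₀ + (j - 1) * q = c₀ + j * q - q := by ring
    have e2 : c₀ + (j + 1) * q = c₀ + j * q + q := by ring
    rw [e1] at h2
    rw [e2] at h3
    refine h1.trans ?_
    rw [pow_succ']
    rw [mul_assoc]
    exact mul_le_mul_of_nonneg_left (max_le h2 h3) hθ

/-- choice of the parameters -/
lemma choose_r {θ ρ : ℝ} (hθ0 : 0 < θ) (hθ1 : θ < 1) (hρ : 0 < ρ) (C Y : ℕ) (hC : 1 ≤ C) :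
    ∃ r : ℕ, 1 ≤ r ∧ Y ≤ C * r ∧ ((C * r : ℕ) : ℝ)⁻¹ ≤ ρ ∧ θ ^ r ≤ (((C * r : ℕ) : ℝ) ^ 40)⁻¹ := by
  have hC' : (1:ℝ) ≤ C := by exact_mod_cast hC
  have h1 := tendsto_pow_const_mul_const_pow_of_abs_lt_one 40 (r := θ) (by rw [abs_of_pos hθ0]; exact hθ1)
  have h2 : ∀ᶠ n : ℕ in atTop, (n:ℝ) ^ 40 * θ ^ n < ((C:ℝ) ^ 40)⁻¹ :=
    (h1.eventually_lt_const (by positivity))
  have h3 : ∀ᶠ n : ℕ in atTop, ρ⁻¹ ≤ n := tendsto_natCast_atTop_atTop.eventually_ge_atTop _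
  obtain ⟨r, h4, h5, h6, h7⟩ := (h2.and (h3.and ((eventually_ge_atTop 1).and
    (eventually_ge_atTop Y)))).exists
  have hr : (1:ℝ) ≤ r := by exact_mod_cast h6
  refine ⟨r, h6, ?_, ?_, ?_⟩
  · calc Y ≤ r := h7
      _ = 1 * r := (one_mul r).symm
      _ ≤ C * r := Nat.mul_le_mul_right _ hC
  · rw [inv_le_comm₀ (by push_cast; positivity) hρ]
    push_cast
    nlinarith
  · push_cast
    rw [mul_pow, mul_inv]
    rw [← div_eq_mul_inv, le_div_iff₀ (by positivity), mul_comm]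
    exact h4.le

/-- the initial barrier -/
theorem init {v₀ : ℤ → ℝ} {N₀ : ℕ} (hN : 3 ≤ N₀) (hper : ∀ x, v₀ (x + N₀) = v₀ x) {ε : ℝ}
    (hε : 0 < ε) {K : ℝ} (hK : 0 ≤ K) (Y : ℕ) :
    ∃ X : ℕ, Y ≤ X ∧ 1 ≤ X ∧ ∀ N : ℕ, N₀ ∣ N → X ≤ N → ∃ v : ℤ → ℝ, (∀ x, v (x + N) = v x) ∧
      (∀ x, |v x - v₀ x| ≤ ε) ∧ Bar K v X (((X : ℝ) ^ 40)⁻¹) ((X : ℝ)⁻¹) := by
  classical
  obtain ⟨M, q, w, ρ, θ, hM, hq, hw, hρ, hθ0, hθ1, hfam⟩ := family hN hper hε hK
  obtain ⟨Q, hQ⟩ : ∃ Q, Q = ∏ i ∈ Finset.range M, q i := ⟨_, rfl⟩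
  have hQ1 : 1 ≤ Q := by rw [hQ]; exact Finset.one_le_prod' (fun i _ => hq i) 
  have hqQ : ∀ i, i < M → q i ∣ Q := fun i hi => by
    rw [hQ]; exact Finset.dvd_prod_of_mem _ (Finset.mem_range.mpr hi)
  obtain ⟨r, hr1, hYr, hρr, hθr⟩ := choose_r hθ0 hθ1 hρ (4 * (M + 2) * Q) Y (by
    have : 1 ≤ 4 * (M + 2) := by omega
    nlinarith)
  obtain ⟨X, hX⟩ : ∃ X, X = 4 * (M + 2) * Q * r := ⟨_, rfl⟩
  rw [← hX] at hYr hρr hθr
  obtain ⟨ℓ, hℓ⟩ : ∃ ℓ, ℓ = 2 * Q * r := ⟨_, rfl⟩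
  have hℓ1 : 1 ≤ ℓ := by
    rw [hℓ]
    have : 1 ≤ Q * r := Nat.one_le_iff_ne_zero.mpr (by positivity)
    nlinarith
  have hXℓ : X = 2 * (M + 2) * ℓ := by rw [hX, hℓ]; ring
  have hXℓz : (X : ℤ) = 2 * (M + 2) * ℓ := by exact_mod_cast hXℓ
  have hℓ0 : (0:ℤ) < ℓ := by exact_mod_cast hℓ1
  have hMz : (1:ℤ) ≤ M := by exact_mod_cast hM
  have hX1 : 1 ≤ X := by
    rw [hXℓ]; nlinarith
  refine ⟨X, hYr, hX1, fun N hN₀ hXN => ?_⟩
  have hNz : (X:ℤ) ≤ N := by exact_mod_cast hXN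
  have hN0 : (0:ℤ) < N := by
    have : (1:ℤ) ≤ X := by exact_mod_cast hX1
    linarith
  set v : ℤ → ℝ := fun x => w ((x % N / ℓ % M).toNat) (x % N) with hv
  have hperz' : ∀ (x : ℤ) (j : ℤ), v₀ (x + N₀ * j) = v₀ x := by
    have hperz : ∀ (x : ℤ) (j : ℕ), v₀ (x + N₀ * j) = v₀ x := by
      intro x j
      induction j with
      | zero => simp
      | succ j ih =>
        have e : x + (N₀:ℤ) * ((j + 1 : ℕ) : ℤ) = x + N₀ * j + N₀ := by push_cast; ring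
        rw [e, hper, ih]
    intro x j
    rcases Int.le_total 0 j with h | h
    · obtain ⟨k, rfl⟩ := Int.eq_ofNat_of_zero_le h
      exact hperz x k
    · obtain ⟨k, hk⟩ := Int.eq_ofNat_of_zero_le (show 0 ≤ -j by omega)
      have h1 := hperz (x + N₀ * j) k
      rw [← h1]
      congr 1
      rw [← hk]; ring
  refine ⟨v, ?_, ?_, ?_⟩
  · intro x
    simp only [hv, Int.add_emod_right]
  · intro x
    obtain ⟨b, hb⟩ := hN₀
    have h1 : v₀ (x % N) = v₀ x := by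
      have h5 := Int.emod_add_mul_ediv x N
      have h6 := hperz' (x % N) (b * (x / N))
      rw [← h6]
      congr 1
      have e : (N₀:ℤ) * (b * (x / N)) = N * (x / N) := by rw [hb]; push_cast; ring
      rw [e]; exact h5
    have h2 := hw ((x % N / ℓ % M).toNat) (x % N)
    rw [h1] at h2
    exact h2
  · intro V' hV' E hE a
    obtain ⟨i, hi, hhyp⟩ := hfam E hE
    -- a complete block of type i
    obtain ⟨n, j, hj0, hji, hjN, hja, hjb⟩ : ∃ n j : ℤ, 0 ≤ j ∧ j % M = i ∧ (j + 1) * ℓ ≤ N ∧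
        a ≤ N * n + j * ℓ ∧ N * n + (j + 1) * ℓ ≤ a + X := by
      have h1 := Int.emod_add_mul_ediv a N
      have h2 := Int.emod_nonneg a hN0.ne'
      have h3 := Int.emod_lt_of_pos a hN0
      have hiz : (i:ℤ) < M := by exact_mod_cast hi
      by_cases hA : a % N + (M + 1) * ℓ ≤ N
      · obtain ⟨j₀, hj₀⟩ : ∃ j₀ : ℤ, j₀ = (a % N + ℓ - 1) / ℓ := ⟨_, rfl⟩
        have h4 : a % N ≤ j₀ * ℓ := by
          have := Int.lt_ediv_add_one_mul_self (a % N + ℓ - 1) hℓ0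
          rw [← hj₀] at this
          have e : (j₀ + 1) * (ℓ:ℤ) = j₀ * ℓ + ℓ := by ring
          rw [e] at this
          linarith
        have h5 : j₀ * ℓ ≤ a % N + ℓ - 1 := by
          rw [hj₀]; exact Int.ediv_mul_le _ hℓ0.ne'
        have h6 : 0 ≤ j₀ := by rw [hj₀]; exact Int.ediv_nonneg (by linarith) hℓ0.le
        have h7 := Int.emod_nonneg ((i:ℤ) - j₀) (show (M:ℤ) ≠ 0 by omega)
        have h8 := Int.emod_lt_of_pos ((i:ℤ) - j₀) (show (0:ℤ) < M by omega)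
        have h9 := Int.emod_add_mul_ediv ((i:ℤ) - j₀) M
        obtain ⟨t, ht⟩ : ∃ t, t = ((i:ℤ) - j₀) % M := ⟨_, rfl⟩
        rw [← ht] at h7 h8 h9
        have h10 : (j₀ + t + 1) * (ℓ:ℤ) ≤ (j₀ + M) * ℓ := mul_le_mul_of_nonneg_right (by omega) hℓ0.le
        have h11 : (j₀ + M) * (ℓ:ℤ) = j₀ * ℓ + M * ℓ := by ring
        have h12 : j₀ * (ℓ:ℤ) ≤ (j₀ + t) * ℓ := mul_le_mul_of_nonneg_right (by omega) hℓ0.le
        have h13 : ((M:ℤ) + 1) * ℓ = M * ℓ + ℓ := by ring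
        have h14 : (X:ℤ) = 2 * (M * ℓ) + 4 * ℓ := by rw [hXℓz]; ring
        have h15 : 0 ≤ (M:ℤ) * ℓ := by positivity
        rw [h13] at hA
        rw [h11] at h10
        refine ⟨a / N, j₀ + t, by omega, ?_, by omega, by omega, by omega⟩
        have e : j₀ + t = i + M * (-(((i:ℤ) - j₀) / M)) := by linarith
        rw [e, Int.add_mul_emod_self_left]
        exact Int.emod_eq_of_lt (by omega) hiz
      · push Not at hA
        have h10 : ((i:ℤ) + 1) * ℓ ≤ M * ℓ := mul_le_mul_of_nonneg_right (by omega) hℓ0.le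
        have h13 : ((M:ℤ) + 1) * ℓ = M * ℓ + ℓ := by ring
        have h14 : (X:ℤ) = 2 * (M * ℓ) + 4 * ℓ := by rw [hXℓz]; ring
        have h15 : 0 ≤ (M:ℤ) * ℓ := by positivity
        have h16 : 0 ≤ (i:ℤ) * ℓ := by positivity
        have h17 : (N:ℤ) * (a / N + 1) = N * (a / N) + N := by ring
        rw [h13] at hA
        refine ⟨a / N + 1, i, by omega, Int.emod_eq_of_lt (by omega) hiz, by omega, ?_, ?_⟩
        · rw [h17]; omega
        · rw [h17]; omega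
    obtain ⟨D, hD⟩ := hqQ i hi
    -- depth `D * r`
    have hQr : (1:ℤ) ≤ Q * r := by
      have : (1:ℤ) ≤ Q := by exact_mod_cast hQ1
      have : (1:ℤ) ≤ r := by exact_mod_cast hr1
      nlinarith
    have hD1 : 1 ≤ D := by
      rcases Nat.eq_zero_or_pos D with h0 | h0
      · rw [h0, Nat.mul_zero] at hD; omega
      · exact h0
    obtain ⟨c, hc⟩ : ∃ c : ℤ, c = j * ℓ + Q * r := ⟨_, rfl⟩
    have hℓz : (ℓ:ℤ) = 2 * (Q * r) := by rw [hℓ]; push_cast; ring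
    have hqd : (q i : ℤ) ∣ c := by
      have h1 : (q i : ℤ) ∣ Q := by exact_mod_cast hqQ i hi
      have e : c = Q * (r * (2 * j + 1)) := by rw [hc, hℓz]; ring
      rw [e]; exact Dvd.dvd.mul_right h1 _
    have hDq : ((D * r : ℕ) : ℤ) * q i = Q * r := by
      rw [hD]; push_cast; ring
    have hjl : (j + 1) * (ℓ:ℤ) = c + Q * r := by rw [hc, hℓz]; ring
    have hjl' : j * (ℓ:ℤ) = c - Q * r := by rw [hc]; ring
    rw [hjl] at hjN hjb
    rw [hjl'] at hja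
    have hcpos : 0 ≤ c - Q * r := by rw [← hjl']; positivity
    refine ⟨N * n + c - 1, by omega, by omega, fun u hu S hS => ?_⟩
    have hS0 : 0 ≤ S := (abs_nonneg _).trans (hS a (by omega) (by omega))
    have hqi : (0:ℤ) < q i := by exact_mod_cast hq i
    have hmain := depth (u := fun y => u (y + N * n)) (q := q i) (θ := θ) (S := S) (c₀ := c) hθ0.le
      (D * r) (by
        intro j' hj'
        have hj1 : (j' + 1) * (q i : ℤ) ≤ ((D * r : ℕ) : ℤ) * q i :=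
          mul_le_mul_of_nonneg_right (by
            rcases abs_cases j' with ⟨_, _⟩ | ⟨_, _⟩ <;> omega) hqi.le
        have hj2 : -((D * r : ℕ) : ℤ) * q i ≤ (j' - 1) * (q i : ℤ) :=
          mul_le_mul_of_nonneg_right (by
            rcases abs_cases j' with ⟨_, _⟩ | ⟨_, _⟩ <;> omega) hqi.le
        have e1 : (j' + 1) * (q i : ℤ) = j' * q i + q i := by ring
        have e2 : (j' - 1) * (q i : ℤ) = j' * q i - q i := by ring
        rw [hDq, e1] at hj1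
        rw [neg_mul, hDq, e2] at hj2
        apply hhyp (fun y => V' (y + N * n)) (fun y => u (y + N * n)) (c + j' * q i)
          (dvd_add hqd (Dvd.intro_left _ rfl))
        intro y hy1 hy2
        constructor
        · have h1 := hV' (y + N * n)
          have h2 : v (y + N * n) = w i y := by
            simp only [hv]
            have h3 : (y + N * n) % N = y := by
              rw [Int.add_mul_emod_self_left]
              exact Int.emod_eq_of_lt (by omega) (by omega)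
            have h4 : y / ℓ = j := by
              rw [Int.ediv_eq_iff_of_pos hℓ0]
              constructor
              · rw [hjl']; omega
              · have e7 : j * (ℓ:ℤ) + ℓ = (j + 1) * ℓ := by ring
                rw [e7, hjl]; omega
            rw [h3, h4, hji, Int.toNat_natCast]
          rw [h2] at h1
          exact h1.trans hρr
        · have h1 := hu (y + N * n) (by omega) (by omega)
          unfold Sol at h1 ⊢
          have e3 : y + 1 + N * n = y + N * n + 1 := by ring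
          have e4 : y - 1 + N * n = y + N * n - 1 := by ring
          simp only [e3, e4]; exact h1)
      (by
        intro j' hj'
        have hj1 : j' * (q i : ℤ) ≤ ((D * r : ℕ) : ℤ) * q i :=
          mul_le_mul_of_nonneg_right (by
            rcases abs_cases j' with ⟨_, _⟩ | ⟨_, _⟩ <;> omega) hqi.le
        have hj2 : -((D * r : ℕ) : ℤ) * q i ≤ j' * (q i : ℤ) :=
          mul_le_mul_of_nonneg_right (by
            rcases abs_cases j' with ⟨_, _⟩ | ⟨_, _⟩ <;> omega) hqi.le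
        rw [hDq] at hj1
        rw [neg_mul, hDq] at hj2
        apply max_le
        · exact hS _ (by omega) (by omega)
        · exact hS _ (by omega) (by omega))
      (D * r) le_rfl 0 (by simp)
    have hθD : θ ^ (D * r) * S ≤ (((X:ℝ) ^ 40)⁻¹) * S := by
      apply mul_le_mul_of_nonneg_right _ hS0
      refine (pow_le_pow_of_le_one hθ0.le hθ1.le ?_).trans hθr
      nlinarith
    rw [zero_mul, add_zero] at hmain
    have hfin := hmain.trans hθD
    unfold nn at hfin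
    rw [max_le_iff] at hfin
    have e5 : N * n + c - 1 = c - 1 + N * n := by ring
    have e6 : N * n + c - 1 + 1 = c + N * n := by ring
    rw [e6, e5]
    exact ⟨hfin.2, hfin.1⟩

end Pool.Agent.K9h34.LP
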