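import Pool.Agent.K9h34.LP.Num
import Pool.Agent.K9h34.LP.Init2

/-!
# Cantor groups
-/

set_option autoImplicit false

namespace Pool.Agent.K9h34.LP

open Finset Filter Topology

section grp

variable {Ω : Type} [AddCommGroup Ω] [TopologicalSpace Ω] [IsTopologicalAddGroup Ω]
  [CompactSpace Ω]

/-- the period of the orbit modulo an open subgroup -/
lemma exists_period (α : Ω) (U : AddSubgroup Ω) (hU : IsOpen (U : Set Ω)) :
    ∃ N : ℕ, 1 ≤ N ∧ ∀ n : ℤ, n • α ∈ U ↔ (N : ℤ) ∣ n := by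
  have hfin : Finite (Ω ⧸ U) := AddSubgroup.quotient_finite_of_isOpen U hU
  refine ⟨addOrderOf (α : Ω ⧸ U), addOrderOf_pos _, fun n => ?_⟩
  rw [addOrderOf_dvd_iff_zsmul_eq_zero, ← QuotientAddGroup.mk_zsmul, QuotientAddGroup.eq_zero_iff]

variable [T2Space Ω] [TotallyDisconnectedSpace Ω] [Infinite Ω]

omit [Infinite Ω] in
lemma exists_open_sub {O : Set Ω} (hO : IsOpen O) (h0 : (0:Ω) ∈ O) :
    ∃ U : AddSubgroup Ω, IsOpen (U : Set Ω) ∧ (U : Set Ω) ⊆ O := by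
  obtain ⟨W, ⟨hW0, hW⟩, hWO⟩ := ((nhds_basis_clopen (0 : Ω)).mem_iff' O).mp (hO.mem_nhds h0)
  obtain ⟨H, hH⟩ := IsTopologicalAddGroup.exist_openAddSubgroup_sub_clopen_nhds_of_zero hW hW0
  exact ⟨H.toAddSubgroup, H.isOpen', hH.trans hWO⟩

omit [IsTopologicalAddGroup Ω] [CompactSpace Ω] [TotallyDisconnectedSpace Ω] in
lemma no_torsion {α : Ω} (hα : Dense (Set.range (fun n : ℤ => n • α))) {n : ℕ} (hn : 1 ≤ n) :
    (n : ℤ) • α ≠ 0 := by
  classical
  intro h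
  have hfin : (Set.range (fun m : ℤ => m • α)).Finite := by
    apply (((Finset.range n).image (fun j : ℕ => (j:ℤ) • α)).finite_toSet).subset
    rintro _ ⟨m, rfl⟩
    rw [Finset.coe_image]
    refine ⟨(m % n).toNat, ?_, ?_⟩
    · rw [Finset.coe_range]
      have := Int.emod_lt_of_pos m (show (0:ℤ) < n by omega)
      show (m % n).toNat < n
      omega
    · show (((m % n).toNat : ℕ) : ℤ) • α = m • α
      rw [Int.toNat_of_nonneg (Int.emod_nonneg _ (by omega))]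
      have h1 := Int.emod_add_mul_ediv m n
      nth_rw 2 [← h1]
      rw [add_smul, mul_comm, mul_smul, h, smul_zero, add_zero]
  have h1 : (Set.range (fun m : ℤ => m • α)) = Set.univ := by
    rw [← hα.closure_eq, hfin.isClosed.closure_eq]
  rw [h1] at hfin
  exact Set.infinite_univ hfin

lemma refine_sub {α : Ω} (hα : Dense (Set.range (fun n : ℤ => n • α))) (U : AddSubgroup Ω)
    (hU : IsOpen (U : Set Ω)) (B : ℕ) : ∃ U' : AddSubgroup Ω, IsOpen (U' : Set Ω) ∧ U' ≤ U ∧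
      ∀ N : ℕ, 1 ≤ N → (∀ n : ℤ, n • α ∈ U' ↔ (N : ℤ) ∣ n) → B ≤ N := by
  classical
  have hO : IsOpen ((U : Set Ω) ∩ (((Finset.Ico 1 B).image (fun j : ℕ => (j:ℤ) • α) : Finset Ω) : Set Ω)ᶜ) :=
    hU.inter ((Finset.finite_toSet _).isClosed.isOpen_compl)
  obtain ⟨U', h1, h2⟩ := exists_open_sub hO (by
    refine ⟨U.zero_mem, ?_⟩
    intro hmem
    rw [Finset.coe_image] at hmem
    obtain ⟨j, hj, hj0⟩ := hmem
    rw [Finset.coe_Ico] at hj
    exact no_torsion hα hj.1 hj0)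
  refine ⟨U', h1, fun x hx => (h2 hx).1, fun N hN hper => ?_⟩
  by_contra hcon
  push Not at hcon
  have h3 : (N:ℤ) • α ∈ U' := (hper N).mpr dvd_rfl
  apply (h2 h3).2
  rw [Finset.coe_image]
  exact ⟨N, by rw [Finset.coe_Ico]; exact ⟨hN, hcon⟩, rfl⟩

omit [CompactSpace Ω] [T2Space Ω] [TotallyDisconnectedSpace Ω] [Infinite Ω] in
lemma exists_coset {α : Ω} (hα : Dense (Set.range (fun n : ℤ => n • α))) (U : AddSubgroup Ω)
    (hU : IsOpen (U : Set Ω)) (ω : Ω) : ∃ a : ℤ, ω - a • α ∈ U := by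
  have hO : IsOpen {x : Ω | ω - x ∈ (U : Set Ω)} := hU.preimage (by fun_prop)
  obtain ⟨x, hx, ⟨a, rfl⟩⟩ := hα.inter_open_nonempty _ hO ⟨ω, by
    show ω - ω ∈ (U : Set Ω)
    rw [sub_self]; exact U.zero_mem⟩
  exact ⟨a, hx⟩

/-- uniform continuity -/
lemma unif (f : C(Ω, ℝ)) {ε : ℝ} (hε : 0 < ε) : ∃ U : AddSubgroup Ω, IsOpen (U : Set Ω) ∧
    ∀ x y, x - y ∈ U → |f x - f y| < ε := by
  classical
  have h1 : ∀ x : Ω, ∃ U : AddSubgroup Ω, IsOpen (U : Set Ω) ∧ ∀ u ∈ U, |f (x + u) - f x| < ε / 2 := by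
    intro x
    have hO : IsOpen {u : Ω | |f (x + u) - f x| < ε / 2} :=
      isOpen_lt (by fun_prop) continuous_const
    obtain ⟨U, hU, hU'⟩ := exists_open_sub hO (by
      show |f (x + 0) - f x| < ε / 2
      rw [add_zero, sub_self, abs_zero]; positivity)
    exact ⟨U, hU, fun u hu => hU' hu⟩
  choose U hU1 hU2 using h1
  have hnb : ∀ x : Ω, {y : Ω | y - x ∈ (U x : Set Ω)} ∈ 𝓝 x := by
    intro x
    apply IsOpen.mem_nhds
    · exact (hU1 x).preimage (by fun_prop)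
    · show x - x ∈ (U x : Set Ω)
      rw [sub_self]; exact (U x).zero_mem
  obtain ⟨t, -, ht⟩ := (isCompact_univ : IsCompact (Set.univ : Set Ω)).elim_nhds_subcover
    (fun x => {y : Ω | y - x ∈ (U x : Set Ω)}) (fun x _ => hnb x)
  refine ⟨t.inf U, ?_, ?_⟩
  · have : ((t.inf U : AddSubgroup Ω) : Set Ω) = ⋂ x ∈ t, (U x : Set Ω) := by
      ext y
      simp only [SetLike.mem_coe, Set.mem_iInter]
      rw [Finset.inf_eq_iInf, AddSubgroup.mem_iInf]
      simp only [AddSubgroup.mem_iInf]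
    rw [this]
    exact isOpen_biInter_finset (fun x _ => hU1 x)
  · intro x y hxy
    have h2 := ht (Set.mem_univ y)
    rw [Set.mem_iUnion₂] at h2
    obtain ⟨z, hz, hyz⟩ := h2
    have h3 : x - y ∈ U z := (Finset.inf_le hz : t.inf U ≤ U z) hxy
    have h4 : y - z ∈ U z := hyz
    have h5 : x - z ∈ U z := by
      have := (U z).add_mem h3 h4
      rwa [sub_add_sub_cancel] at this
    have h6 := hU2 z _ h4
    have h7 := hU2 z _ h5
    rw [add_sub_cancel] at h6 h7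
    rw [abs_sub_lt_iff] at h6 h7 ⊢
    constructor <;> linarith

end grp

/-- the state of the construction -/
structure St' (Ω : Type) [AddCommGroup Ω] where
  U : AddSubgroup Ω
  v : ℤ → ℝ
  X : ℕ
  L : ℕ

/-- the invariant -/
structure Inv {Ω : Type} [AddCommGroup Ω] [TopologicalSpace Ω] (K : ℝ) (α : Ω) (t : St' Ω) : Prop where
  op : IsOpen (t.U : Set Ω)
  per : ∀ a b : ℤ, (a - b) • α ∈ t.U → t.v a = t.v b
  hL : 1 ≤ t.L
  hLX : t.L ≤ t.X
  hX : 2 ^ 31 ≤ t.X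
  bar : Bar K t.v t.L (((t.X : ℝ) ^ 40)⁻¹) ((t.X : ℝ)⁻¹)

/-- the relation between consecutive states -/
structure Nxt {Ω : Type} [AddCommGroup Ω] (t t' : St' Ω) : Prop where
  le : t'.U ≤ t.U
  X' : t'.X = t.X ^ 12
  L' : t'.L = 8 * t.L * (t.X ^ 2 + 3)
  close : ∀ n, |t'.v n - t.v n| ≤ (t.X : ℝ)⁻¹ / 2
  sep : ∃ p, Cuts t.L p ∧ SepP t'.v p (2 ^ 12 * t.X ^ 3) (3 * ((t.X : ℝ) ^ 12)⁻¹)

lemma per_of_add {v : ℤ → ℝ} {N : ℕ} (h : ∀ x, v (x + N) = v x) {a b : ℤ} (hab : (N:ℤ) ∣ a - b) :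
    v a = v b := by
  obtain ⟨j, hj⟩ := hab
  have hperz : ∀ (x : ℤ) (j : ℕ), v (x + N * j) = v x := by
    intro x j
    induction j with
    | zero => simp
    | succ j ih =>
      have e : x + (N:ℤ) * ((j + 1 : ℕ) : ℤ) = x + N * j + N := by push_cast; ring
      rw [e, h, ih]
  rcases Int.le_total 0 j with h1 | h1
  · obtain ⟨k, rfl⟩ := Int.eq_ofNat_of_zero_le h1
    have : a = b + N * k := by linarith
    rw [this, hperz]
  · obtain ⟨k, hk⟩ := Int.eq_ofNat_of_zero_le (show 0 ≤ -j by omega)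
    have : b = a + N * k := by
      have : (N:ℤ) * k = - (N * j) := by rw [← hk]; ring
      linarith
    rw [this, hperz]

section grp2

variable {Ω : Type} [AddCommGroup Ω] [TopologicalSpace Ω] [IsTopologicalAddGroup Ω]
  [CompactSpace Ω] [T2Space Ω] [TotallyDisconnectedSpace Ω] [Infinite Ω]

lemma exists_next {K : ℝ} {α : Ω} (hα : Dense (Set.range (fun n : ℤ => n • α))) {t : St' Ω}
    (ht : Inv K α t) : ∃ t', Inv K α t' ∧ Nxt t t' := by
  obtain ⟨U', hU1, hU2, hU3⟩ := refine_sub hα t.U ht.op ((2 ^ 12 * t.X ^ 3 + 4) * (2 * t.L))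
  obtain ⟨N, hN1, hN⟩ := exists_period α U' hU1
  have hNB := hU3 N hN1 hN
  have hX1 : 1 ≤ t.X := le_trans (by norm_num) ht.hX
  obtain ⟨v', h1, h2, h3, h4⟩ := lvl_step ht.hL ht.hLX ht.hX (v := t.v) (N := N) (fun x => by
    apply ht.per
    rw [add_sub_cancel_left]
    exact hU2 ((hN N).mpr dvd_rfl)) hNB ht.bar
  refine ⟨⟨U', v', t.X ^ 12, 8 * t.L * (t.X ^ 2 + 3)⟩, ⟨hU1, ?_, ?_, ?_, ?_, h4⟩, hU2, rfl, rfl, ?_, h3⟩
  · intro a b hab
    exact per_of_add h2 ((hN _).mp hab)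
  · show 1 ≤ 8 * t.L * (t.X ^ 2 + 3)
    have := ht.hL
    nlinarith [Nat.zero_le (t.L * t.X ^ 2)]
  · show 8 * t.L * (t.X ^ 2 + 3) ≤ t.X ^ 12
    have h5 : 10 ≤ t.X := le_trans (by norm_num) ht.hX
    have h6 : t.X ^ 2 + 3 ≤ t.X ^ 3 := by nlinarith [Nat.one_le_pow 2 t.X hX1]
    calc 8 * t.L * (t.X ^ 2 + 3) ≤ t.X * t.X * t.X ^ 3 :=
          Nat.mul_le_mul (Nat.mul_le_mul (by omega) ht.hLX) h6
      _ = t.X ^ 5 := by ring
      _ ≤ t.X ^ 12 := Nat.pow_le_pow_right hX1 (by norm_num)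
  · exact ht.hX.trans (Nat.le_self_pow (by norm_num) _)
  · intro n
    have := h1 n
    show |v' n - t.v n| ≤ _
    rw [abs_of_nonneg this.1]; exact this.2

/-- the limit of the construction -/
theorem limit {K : ℝ} {α : Ω} (hα : Dense (Set.range (fun n : ℤ => n • α))) {t₀ : St' Ω}
    (ht₀ : Inv K α t₀) (hXK : 2 * K + 2 ≤ t₀.X) :
    ∃ f : C(Ω, ℝ), (∀ (ω : Ω) (a : ℤ), ω - a • α ∈ t₀.U → |f ω - t₀.v a| ≤ (t₀.X : ℝ)⁻¹) ∧
      ((∀ ω, |f ω| + 2 ≤ K) → ∀ ω, (Submodule.span ℂ (PP (fun n => f (ω + n • α)))).topologicalClosure = ⊤) := by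
  classical
  choose! nxt hn1 hn2 using fun t => exists_next (K := K) hα (t := t)
  set F : ℕ → St' Ω := fun k => Nat.rec t₀ (fun _ s => nxt s) k with hF
  have hF0 : F 0 = t₀ := rfl
  have hFs : ∀ k, F (k + 1) = nxt (F k) := fun k => rfl
  have hInv : ∀ k, Inv K α (F k) := by
    intro k
    induction k with
    | zero => exact ht₀
    | succ k ih => rw [hFs]; exact hn1 _ ih
  have hNxt : ∀ k, Nxt (F k) (F (k + 1)) := by
    intro k
    rw [hFs]; exact hn2 _ (hInv k)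
  choose a ha using fun k ω => exists_coset hα (F k).U (hInv k).op ω
  -- value of the level function at any representative
  have hval : ∀ k ω b, ω - b • α ∈ (F k).U → (F k).v (a k ω) = (F k).v b := by
    intro k ω b hb
    apply (hInv k).per
    have h1 := (F k).U.sub_mem hb (ha k ω)
    rw [sub_sub_sub_cancel_left] at h1
    rw [sub_smul]; exact h1
  have hcont : ∀ k, Continuous (fun ω => (F k).v (a k ω)) := by
    intro k
    apply IsLocallyConstant.continuous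
    rw [IsLocallyConstant.iff_eventually_eq]
    intro ω
    have hO : IsOpen {y : Ω | y - ω ∈ ((F k).U : Set Ω)} := (hInv k).op.preimage (by fun_prop)
    filter_upwards [hO.mem_nhds (show ω - ω ∈ ((F k).U : Set Ω) by
      rw [sub_self]; exact (F k).U.zero_mem)] with y hy
    apply hval
    have := (F k).U.add_mem hy (ha k ω)
    rwa [sub_add_sub_cancel] at this
  set Φ : ℕ → C(Ω, ℝ) := fun k => ⟨fun ω => (F k).v (a k ω), hcont k⟩ with hΦ
  have hXpos : ∀ k, (0:ℝ) < (F k).X := by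
    intro k
    have : 0 < (F k).X := lt_of_lt_of_le (by norm_num) (hInv k).hX
    exact_mod_cast this
  have hXge : ∀ k l, ((F (k + l)).X : ℝ)⁻¹ ≤ ((F k).X : ℝ)⁻¹ * (1 / 2) ^ l := by
    intro k l
    induction l with
    | zero => simp
    | succ l ih =>
      have h1 := (hNxt (k + l)).X'
      have h2 : ((F (k + l + 1)).X : ℝ)⁻¹ ≤ ((F (k + l)).X : ℝ)⁻¹ * (1 / 2) := by
        rw [h1]
        have h3 : (2:ℝ) ≤ (F (k + l)).X := by
          have : 2 ≤ (F (k + l)).X := le_trans (by norm_num) (hInv (k + l)).hX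
          exact_mod_cast this
        push_cast
        rw [one_div, ← mul_inv]
        apply inv_anti₀ (by have := hXpos (k + l); positivity)
        calc ((F (k + l)).X : ℝ) * 2 ≤ (F (k + l)).X * (F (k + l)).X :=
              mul_le_mul_of_nonneg_left h3 (hXpos _).le
          _ = ((F (k + l)).X : ℝ) ^ 2 := by ring
          _ ≤ _ := pow_le_pow_right₀ (by linarith) (by norm_num)
      calc _ ≤ ((F (k + l)).X : ℝ)⁻¹ * (1 / 2) := h2
        _ ≤ (((F k).X : ℝ)⁻¹ * (1 / 2) ^ l) * (1 / 2) := mul_le_mul_of_nonneg_right ih (by norm_num)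
        _ = _ := by ring
  have hdist1 : ∀ k, dist (Φ k) (Φ (k + 1)) ≤ ((F k).X : ℝ)⁻¹ / 2 := by
    intro k
    rw [ContinuousMap.dist_le (by have := hXpos k; positivity)]
    intro ω
    rw [Real.dist_eq]
    show |(F k).v (a k ω) - (F (k + 1)).v (a (k + 1) ω)| ≤ _
    rw [hval k ω (a (k + 1) ω) ((hNxt k).le (ha (k + 1) ω)), abs_sub_comm]
    exact (hNxt k).close _
  have hdist : ∀ k l, dist (Φ (k + l)) (Φ (k + l + 1)) ≤ ((F k).X : ℝ)⁻¹ / 2 * (1 / 2) ^ l := by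
    intro k l
    have := hXge k l
    have := hdist1 (k + l)
    linarith
  obtain ⟨f, hf⟩ := cauchySeq_tendsto_of_complete (cauchySeq_of_le_geometric (1 / 2) _ (by norm_num)
    (f := Φ) (fun l => by have := hdist 0 l; rwa [zero_add] at this))
  have hfk : ∀ k, dist (Φ k) f ≤ ((F k).X : ℝ)⁻¹ := by
    intro k
    have h1 : Tendsto (fun l => Φ (k + l)) atTop (𝓝 f) := by
      have := hf.comp (tendsto_add_atTop_nat k)
      refine this.congr fun l => ?_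
      show Φ (l + k) = Φ (k + l)
      rw [add_comm]
    have h2 := dist_le_of_le_geometric_of_tendsto₀ (1 / 2) _ (by norm_num) (f := fun l => Φ (k + l))
      (hdist k) h1
    refine h2.trans (le_of_eq ?_)
    ring
  have hfk' : ∀ k ω b, ω - b • α ∈ (F k).U → |f ω - (F k).v b| ≤ ((F k).X : ℝ)⁻¹ := by
    intro k ω b hb
    rw [← hval k ω b hb]
    have h1 := (ContinuousMap.dist_apply_le_dist ω).trans (hfk k)
    rw [Real.dist_eq, abs_sub_comm] at h1
    exact h1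
  refine ⟨f, fun ω b hb => hfk' 0 ω b hb, fun hK ω => ?_⟩
  apply final (K := K) (fun n => hK _) (X := fun k => (F k).X) (L := fun k => (F k).L)
    (v := fun k => (F k).v) (s := fun k => a k ω) (fun k => (hNxt k).X') (fun k => (hNxt k).L')
    (fun k => (hInv k).hL) (fun k => (hInv k).hLX) (hInv 0).hX hXK (fun k => (hInv k).bar)
    (fun k => (hNxt k).sep)
  intro k n
  apply hfk'
  rw [add_smul]
  have := ha k ω
  have e : ω + n • α - (n • α + a k ω • α) = ω - a k ω • α := by abel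
  rw [e]; exact this

/-- density -/
theorem main {α : Ω} (hα : Dense (Set.range (fun n : ℤ => n • α))) (f₀ : C(Ω, ℝ)) {ε : ℝ}
    (hε : 0 < ε) : ∃ f : C(Ω, ℝ), dist f f₀ < ε ∧
      ∀ ω, (Submodule.span ℂ (PP (fun n => f (ω + n • α)))).topologicalClosure = ⊤ := by
  obtain ⟨U₀', hU₀', hf₀'⟩ := unif f₀ (show 0 < ε / 4 by positivity)
  obtain ⟨U₀, hU₀, hU₀le, hU₀3⟩ := refine_sub hα U₀' hU₀' 3
  obtain ⟨N₀, hN₀1, hN₀⟩ := exists_period α U₀ hU₀
  have hN₀3 := hU₀3 N₀ hN₀1 hN₀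
  have hN₀z : (0:ℤ) < N₀ := by exact_mod_cast hN₀1
  set K := ‖f₀‖ + ε + 2 with hK
  have hK0 : 0 ≤ K := by positivity
  set v₀ : ℤ → ℝ := fun a => f₀ ((a % N₀) • α) with hv₀
  have hv₀per : ∀ x, v₀ (x + N₀) = v₀ x := by
    intro x; simp only [hv₀, Int.add_emod_right]
  have hv₀c : ∀ (ω : Ω) (a : ℤ), ω - a • α ∈ U₀ → |f₀ ω - v₀ a| < ε / 4 := by
    intro ω a ha
    apply hf₀'
    apply hU₀le
    have h1 : (a - a % N₀) • α ∈ U₀ := (hN₀ _).mpr (by
      rw [Int.emod_def, sub_sub_cancel]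
      exact Dvd.intro _ rfl)
    have h2 := U₀.add_mem ha h1
    rw [sub_smul, sub_add_sub_cancel] at h2
    exact h2
  obtain ⟨X, hX, hX1, hinit⟩ := init hN₀3 hv₀per (show 0 < ε / 4 by positivity) hK0
    (2 ^ 31 + ⌈2 * K + 2⌉₊ + ⌈4 / ε⌉₊)
  obtain ⟨U, hU, hUle, hU3⟩ := refine_sub hα U₀ hU₀ X
  obtain ⟨N, hN1, hN⟩ := exists_period α U hU
  have hNX := hU3 N hN1 hN
  obtain ⟨v, hvper, hvc, hvb⟩ := hinit N (by
    have h1 : (N:ℤ) • α ∈ U₀ := hUle ((hN N).mpr dvd_rfl)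
    have h2 := (hN₀ N).mp h1
    exact_mod_cast h2) hNX
  have hXK : 2 * K + 2 ≤ X := by
    have h1 := Nat.le_ceil (2 * K + 2)
    have h2 : ((⌈2 * K + 2⌉₊ : ℕ) : ℝ) ≤ X := by exact_mod_cast (by omega)
    linarith
  have hXε : (X:ℝ)⁻¹ ≤ ε / 4 := by
    have h1 := Nat.le_ceil (4 / ε)
    have h2 : ((⌈4 / ε⌉₊ : ℕ) : ℝ) ≤ X := by exact_mod_cast (by omega)
    have h3 : 4 / ε ≤ X := by linarith
    calc (X:ℝ)⁻¹ ≤ (4 / ε)⁻¹ := inv_anti₀ (by positivity) h3
      _ = ε / 4 := by rw [inv_div]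
  obtain ⟨f, hf1, hf2⟩ := limit (K := K) hα (t₀ := ⟨U, v, X, X⟩) ⟨hU, fun a b hab =>
    per_of_add hvper ((hN _).mp hab), hX1, le_rfl, by show 2 ^ 31 ≤ X; omega, hvb⟩ hXK
  have hclose : ∀ ω, |f ω - f₀ ω| ≤ 3 * (ε / 4) := by
    intro ω
    obtain ⟨a, ha⟩ := exists_coset hα U hU ω
    have h1 := hf1 ω a ha
    have h2 := hvc a
    have h3 := (hv₀c ω a (hUle ha)).le
    have h4 : |f ω - v a| ≤ ε / 4 := h1.trans hXε
    rw [abs_le] at h2 h3 h4 ⊢
    constructor <;> linarith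
  refine ⟨f, ?_, hf2 ?_⟩
  · have : dist f f₀ ≤ 3 * (ε / 4) := by
      rw [ContinuousMap.dist_le (by positivity)]
      intro ω
      rw [Real.dist_eq]; exact hclose ω
    linarith
  · intro ω
    have h1 := hclose ω
    have h2 : |f₀ ω| ≤ ‖f₀‖ := f₀.norm_coe_le_norm ω
    have h3 : |f ω| ≤ |f ω - f₀ ω| + |f₀ ω| := by
      have := abs_add_le (f ω - f₀ ω) (f₀ ω)
      rwa [sub_add_cancel] at this
    rw [hK]; linarith

end grp2

end Pool.Agent.K9h34.LP
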