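import Mathlib

/-!
# Hyperbolic words
-/

set_option autoImplicit false

namespace Pool.Agent.K9h34.LP

open Filter Topology

/-- one step transfer matrix -/
def bb (x : ℝ) : Matrix (Fin 2) (Fin 2) ℝ := !![x, -1; 1, 0]

/-- transfer matrices -/
def tm (x : ℕ → ℝ) : ℕ → Matrix (Fin 2) (Fin 2) ℝ
  | 0 => 1
  | n + 1 => bb (x n) * tm x n

lemma bb_det (x : ℝ) : (bb x).det = 1 := by
  unfold bb
  rw [Matrix.det_fin_two_of]; ring

lemma tm_det (x : ℕ → ℝ) (n : ℕ) : (tm x n).det = 1 := by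
  induction n with
  | zero => simp [tm]
  | succ n ih => rw [tm, Matrix.det_mul, bb_det, ih, one_mul]

lemma tm_congr {x y : ℕ → ℝ} {n : ℕ} (h : ∀ i, i < n → x i = y i) : tm x n = tm y n := by
  induction n with
  | zero => rfl
  | succ n ih => rw [tm, tm, h n (Nat.lt_succ_self n), ih (fun i hi => h i (by omega))]

lemma tm_add (x : ℕ → ℝ) (a b : ℕ) : tm x (a + b) = tm (fun i => x (a + i)) b * tm x a := by
  induction b with
  | zero => simp [tm]
  | succ b ih => rw [← Nat.add_assoc, tm, tm, ih, Matrix.mul_assoc]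

/-- the concatenation of two words -/
lemma tm_append (x y : ℕ → ℝ) (a b : ℕ) :
    tm (fun i => if i < a then x i else y (i - a)) (a + b) = tm y b * tm x a := by
  rw [tm_add]
  congr 1
  · congr 1
    funext i
    rw [if_neg (by omega)]
    congr 1; omega
  · apply tm_congr
    intro i hi
    rw [if_pos hi]

lemma two_det {M : Matrix (Fin 2) (Fin 2) ℝ} (h : M.det = 1) :
    M 0 0 * M 1 1 - M 0 1 * M 1 0 = 1 := by
  rw [Matrix.det_fin_two] at h; exact h

lemma adj_mul_self {M : Matrix (Fin 2) (Fin 2) ℝ} (h : M.det = 1) : M.adjugate * M = 1 := by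
  rw [Matrix.adjugate_mul, h, one_smul]

/-- the admissible words -/
def Adm (c : ℕ → ℝ) (ε : ℝ) (x : ℕ → ℝ) : Prop := ∀ i, |x i - c i| ≤ ε

/-- the transfer matrices of the words -/
def SS (c : ℕ → ℝ) (ε : ℝ) (N : ℕ) : Set (Matrix (Fin 2) (Fin 2) ℝ) :=
  {M | ∃ (n : ℕ) (x : ℕ → ℝ), Adm c ε x ∧ M = tm x (n * N)}

lemma per_mul {c : ℕ → ℝ} {N : ℕ} (hc : ∀ i, c (i + N) = c i) (i n : ℕ) : c (i + n * N) = c i := by
  induction n with
  | zero => simp
  | succ n ih => rw [Nat.succ_mul, ← Nat.add_assoc, hc, ih]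

lemma SS_mul {c : ℕ → ℝ} {ε : ℝ} {N : ℕ} (hc : ∀ i, c (i + N) = c i)
    {M M' : Matrix (Fin 2) (Fin 2) ℝ} (h : M ∈ SS c ε N) (h' : M' ∈ SS c ε N) : M' * M ∈ SS c ε N := by
  obtain ⟨n, x, hx, rfl⟩ := h
  obtain ⟨n', x', hx', rfl⟩ := h'
  refine ⟨n + n', fun i => if i < n * N then x i else x' (i - n * N), ?_, ?_⟩
  · intro i
    show |(if i < n * N then x i else x' (i - n * N)) - c i| ≤ ε
    split_ifs with hi
    · exact hx i
    · have h1 := hx' (i - n * N)
      have h2 := per_mul hc (i - n * N) n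
      rw [Nat.sub_add_cancel (by omega)] at h2
      rw [h2]; exact h1
  · rw [Nat.add_mul, tm_append]

lemma SS_one {c : ℕ → ℝ} {ε : ℝ} (hε : 0 ≤ ε) {N : ℕ} : (1 : Matrix (Fin 2) (Fin 2) ℝ) ∈ SS c ε N :=
  ⟨0, c, fun i => by simpa using hε, by simp [tm]⟩

lemma SS_pow {c : ℕ → ℝ} {ε : ℝ} (hε : 0 ≤ ε) {N : ℕ} (hc : ∀ i, c (i + N) = c i)
    {M : Matrix (Fin 2) (Fin 2) ℝ} (h : M ∈ SS c ε N) (n : ℕ) : M ^ n ∈ SS c ε N := by
  induction n with
  | zero => rw [pow_zero]; exact SS_one hε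
  | succ n ih => rw [pow_succ]; exact SS_mul hc h ih

lemma SS_det {c : ℕ → ℝ} {ε : ℝ} {N : ℕ} {M : Matrix (Fin 2) (Fin 2) ℝ} (h : M ∈ SS c ε N) :
    M.det = 1 := by
  obtain ⟨n, x, -, rfl⟩ := h
  exact tm_det _ _

/-- the trace as a polynomial in the first three letters -/
lemma trace_three (Q : Matrix (Fin 2) (Fin 2) ℝ) (x : ℕ → ℝ) :
    (Q * tm x 3).trace = Q 0 0 * (x 2 * x 1 * x 0 - x 2 - x 0) + Q 0 1 * (x 1 * x 0 - 1) +
      Q 1 0 * (1 - x 2 * x 1) - Q 1 1 * x 1 := by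
  simp only [tm, bb, Matrix.trace_fin_two, Matrix.mul_apply, Fin.sum_univ_two, Matrix.one_apply,
    Matrix.of_apply, Matrix.cons_val', Matrix.cons_val_zero, Matrix.cons_val_one,
    Matrix.cons_val_fin_one]
  simp
  ring

lemma abs_mul_pos {a b : ℝ} (hb : 0 < b) : |a| * b = |a * b| := by
  rw [abs_mul, abs_of_pos hb]

lemma SS_bdd {c : ℕ → ℝ} {ε : ℝ} (hε : 0 < ε) {N : ℕ} (hN : 3 ≤ N) (hc : ∀ i, c (i + N) = c i)
    (htr : ∀ M ∈ SS c ε N, |M.trace| ≤ 2) : ∃ C : ℝ, ∀ M ∈ SS c ε N, ∀ i j, |M i j| ≤ C := by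
  set G := tm (fun i => c (3 + i)) (N - 3) with hG
  have hQ : ∃ C : ℝ, ∀ M ∈ SS c ε N, ∀ i j, |(M * G) i j| ≤ C := by
    set C₀ : ℝ := 16 / ε ^ 3 with hC₀
    set C₁ : ℝ := 8 / ε ^ 2 + |c 2| * C₀ with hC₁
    set C₂ : ℝ := 8 / ε ^ 2 + |c 0| * C₀ with hC₂
    set C₃ : ℝ := 4 / ε + |c 2 * c 0| * C₀ + |c 0| * C₁ + |c 2| * C₂ with hC₃
    refine ⟨max (max C₀ C₁) (max C₂ C₃), fun M hM => ?_⟩
    set Q := M * G with hQdef
    have h1 : ∀ x : ℕ → ℝ, Adm c ε x → (∀ i, 3 ≤ i → x i = c i) → |(Q * tm x 3).trace| ≤ 2 := by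
      intro x hx hx3
      have h2 : tm x N = G * tm x 3 := by
        have h3 := tm_add x 3 (N - 3)
        rw [Nat.add_sub_cancel' hN] at h3
        rw [h3, hG]
        congr 1
        apply tm_congr
        intro i _
        exact hx3 _ (by omega)
      have h3 : tm x N * M ∈ SS c ε N := SS_mul hc hM ⟨1, x, hx, by rw [one_mul]⟩
      have h4 := htr _ h3
      rw [h2, Matrix.trace_mul_comm, ← Matrix.mul_assoc] at h4
      exact h4
    have key : ∀ a0 a1 a2 : ℝ, (a0 = 0 ∨ a0 = ε) → (a1 = 0 ∨ a1 = ε) → (a2 = 0 ∨ a2 = ε) →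
        |Q 0 0 * ((c 2 + a2) * (c 1 + a1) * (c 0 + a0) - (c 2 + a2) - (c 0 + a0)) +
          Q 0 1 * ((c 1 + a1) * (c 0 + a0) - 1) +
          Q 1 0 * (1 - (c 2 + a2) * (c 1 + a1)) - Q 1 1 * (c 1 + a1)| ≤ 2 := by
      intro a0 a1 a2 h0 h1' h2
      have h3 := h1 (fun i => c i + (if i = 0 then a0 else if i = 1 then a1 else if i = 2 then a2 else 0))
        (by
          intro i
          show |c i + _ - c i| ≤ ε
          rw [add_sub_cancel_left]
          have habs : ∀ a : ℝ, (a = 0 ∨ a = ε) → |a| ≤ ε := by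
            rintro a (rfl | rfl)
            · simpa using hε.le
            · rw [abs_of_pos hε]
          split_ifs
          · exact habs _ h0
          · exact habs _ h1'
          · exact habs _ h2
          · simpa using hε.le)
        (by
          intro i hi
          show c i + _ = c i
          rw [if_neg (by omega), if_neg (by omega), if_neg (by omega), add_zero])
      rw [trace_three] at h3
      simpa using h3
    have k000 := abs_le.mp (key 0 0 0 (Or.inl rfl) (Or.inl rfl) (Or.inl rfl))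
    have k100 := abs_le.mp (key ε 0 0 (Or.inr rfl) (Or.inl rfl) (Or.inl rfl))
    have k010 := abs_le.mp (key 0 ε 0 (Or.inl rfl) (Or.inr rfl) (Or.inl rfl))
    have k001 := abs_le.mp (key 0 0 ε (Or.inl rfl) (Or.inl rfl) (Or.inr rfl))
    have k110 := abs_le.mp (key ε ε 0 (Or.inr rfl) (Or.inr rfl) (Or.inl rfl))
    have k101 := abs_le.mp (key ε 0 ε (Or.inr rfl) (Or.inl rfl) (Or.inr rfl))
    have k011 := abs_le.mp (key 0 ε ε (Or.inl rfl) (Or.inr rfl) (Or.inr rfl))
    have k111 := abs_le.mp (key ε ε ε (Or.inr rfl) (Or.inr rfl) (Or.inr rfl))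
    have b0 : |Q 0 0| ≤ C₀ := by
      rw [hC₀, le_div_iff₀ (by positivity), abs_mul_pos (by positivity), abs_le]
      constructor <;> linarith
    have b1' : |Q 0 0 * c 2 + Q 0 1| ≤ 8 / ε ^ 2 := by
      rw [le_div_iff₀ (by positivity), abs_mul_pos (by positivity), abs_le]
      constructor <;> linarith
    have b2' : |Q 0 0 * c 0 - Q 1 0| ≤ 8 / ε ^ 2 := by
      rw [le_div_iff₀ (by positivity), abs_mul_pos (by positivity), abs_le]
      constructor <;> linarith
    have b3' : |Q 0 0 * (c 2 * c 0) + Q 0 1 * c 0 - Q 1 0 * c 2 - Q 1 1| ≤ 4 / ε := by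
      rw [le_div_iff₀ (by positivity), abs_mul_pos (by positivity), abs_le]
      constructor <;> linarith
    have b1 : |Q 0 1| ≤ C₁ := by
      have e : Q 0 1 = (Q 0 0 * c 2 + Q 0 1) - c 2 * Q 0 0 := by ring
      have h2 := abs_sub (Q 0 0 * c 2 + Q 0 1) (c 2 * Q 0 0)
      rw [← e, abs_mul] at h2
      have h3 := mul_le_mul_of_nonneg_left b0 (abs_nonneg (c 2))
      rw [hC₁]; linarith
    have b2 : |Q 1 0| ≤ C₂ := by
      have e : Q 1 0 = c 0 * Q 0 0 - (Q 0 0 * c 0 - Q 1 0) := by ring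
      have h2 := abs_sub (c 0 * Q 0 0) (Q 0 0 * c 0 - Q 1 0)
      rw [← e, abs_mul] at h2
      have h3 := mul_le_mul_of_nonneg_left b0 (abs_nonneg (c 0))
      rw [hC₂]; linarith
    have b3 : |Q 1 1| ≤ C₃ := by
      have e : Q 1 1 = (((c 2 * c 0) * Q 0 0 + c 0 * Q 0 1) - c 2 * Q 1 0) -
        (Q 0 0 * (c 2 * c 0) + Q 0 1 * c 0 - Q 1 0 * c 2 - Q 1 1) := by ring
      have h2 := abs_sub (((c 2 * c 0) * Q 0 0 + c 0 * Q 0 1) - c 2 * Q 1 0)
        (Q 0 0 * (c 2 * c 0) + Q 0 1 * c 0 - Q 1 0 * c 2 - Q 1 1)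
      have h3 := abs_sub ((c 2 * c 0) * Q 0 0 + c 0 * Q 0 1) (c 2 * Q 1 0)
      have h4 := abs_add_le ((c 2 * c 0) * Q 0 0) (c 0 * Q 0 1)
      rw [← e] at h2
      rw [abs_mul (c 2) (Q 1 0)] at h3
      rw [abs_mul (c 2 * c 0), abs_mul (c 0) (Q 0 1)] at h4
      have h5 := mul_le_mul_of_nonneg_left b0 (abs_nonneg (c 2 * c 0))
      have h6 := mul_le_mul_of_nonneg_left b1 (abs_nonneg (c 0))
      have h7 := mul_le_mul_of_nonneg_left b2 (abs_nonneg (c 2))
      rw [hC₃]; linarith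
    intro i j
    fin_cases i <;> fin_cases j
    · exact b0.trans ((le_max_left _ _).trans (le_max_left _ _))
    · exact b1.trans ((le_max_right _ _).trans (le_max_left _ _))
    · exact b2.trans ((le_max_left _ _).trans (le_max_right _ _))
    · exact b3.trans ((le_max_right _ _).trans (le_max_right _ _))
  obtain ⟨C, hC⟩ := hQ
  have hGG : G * G.adjugate = 1 := by rw [Matrix.mul_adjugate, tm_det, one_smul]
  refine ⟨∑ i, ∑ j, C * |G.adjugate i j|, fun M hM i j => ?_⟩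
  have h1 : M = (M * G) * G.adjugate := by rw [Matrix.mul_assoc, hGG, Matrix.mul_one]
  have hC0 : 0 ≤ C := (abs_nonneg _).trans (hC M hM 0 0)
  rw [h1, Matrix.mul_apply]
  calc |∑ k, (M * G) i k * G.adjugate k j| ≤ ∑ k, |(M * G) i k * G.adjugate k j| :=
        Finset.abs_sum_le_sum_abs _ _
    _ ≤ ∑ k, C * |G.adjugate k j| := by
        apply Finset.sum_le_sum
        intro k _
        rw [abs_mul]
        exact mul_le_mul_of_nonneg_right (hC M hM i k) (abs_nonneg _)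
    _ ≤ ∑ k, ∑ l, C * |G.adjugate k l| := by
        apply Finset.sum_le_sum
        intro k _
        exact Finset.single_le_sum (f := fun l => C * |G.adjugate k l|)
          (fun l _ => by positivity) (Finset.mem_univ j)

lemma low_pow (ε : ℝ) (n : ℕ) : (!![1, 0; -ε, 1] : Matrix (Fin 2) (Fin 2) ℝ) ^ n =
    !![1, 0; -(n * ε), 1] := by
  induction n with
  | zero => ext i j; fin_cases i <;> fin_cases j <;> simp
  | succ n ih =>
    rw [pow_succ, ih]
    ext i j
    fin_cases i <;> fin_cases j <;> simp [Matrix.mul_apply, Fin.sum_univ_two]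
    ring

/-- there is a hyperbolic word -/
theorem exists_hyp {c : ℕ → ℝ} {ε : ℝ} (hε : 0 < ε) {N : ℕ} (hN : 3 ≤ N)
    (hc : ∀ i, c (i + N) = c i) :
    ∃ (n : ℕ) (x : ℕ → ℝ), Adm c ε x ∧ 2 < |(tm x (n * N)).trace| := by
  by_contra hcon
  push Not at hcon
  have htr : ∀ M ∈ SS c ε N, |M.trace| ≤ 2 := by
    rintro M ⟨n, x, hx, rfl⟩
    exact hcon n x hx
  obtain ⟨C, hC⟩ := SS_bdd hε hN hc htr
  set T := tm c N with hT
  have hTS : T ∈ SS c ε N := ⟨1, c, fun i => by simpa using hε.le, by rw [one_mul]⟩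
  -- the powers of T
  have hK : IsCompact (Set.univ.pi fun _ : Fin 2 => Set.univ.pi fun _ : Fin 2 => Set.Icc (-C) C) :=
    isCompact_univ_pi fun _ => isCompact_univ_pi fun _ => isCompact_Icc
  obtain ⟨Λ', -, φ, hφ, hlim⟩ := hK.tendsto_subseq
    (x := fun (n : ℕ) (i j : Fin 2) => (T ^ n) i j) (fun n => by
      intro i _ j _
      exact abs_le.mp (hC _ (SS_pow hε.le hc hTS n) i j))
  obtain ⟨Λ, hlim'⟩ : ∃ Λ : Matrix (Fin 2) (Fin 2) ℝ, Tendsto (fun n => T ^ φ n) atTop (𝓝 Λ) :=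
    ⟨Λ', hlim⟩
  have hdet : Λ.det = 1 := by
    have h1 : Tendsto (fun n => (T ^ φ n).det) atTop (𝓝 (Matrix.det Λ)) :=
      ((continuous_id.matrix_det).tendsto _).comp hlim'
    have h2 : ∀ n, (T ^ φ n).det = 1 := fun n => SS_det (SS_pow hε.le hc hTS _)
    simp only [h2] at h1
    exact (tendsto_nhds_unique h1 tendsto_const_nhds)
  have hone : Tendsto (fun n => T ^ (φ (n + 1) - φ n)) atTop (𝓝 (1 : Matrix (Fin 2) (Fin 2) ℝ)) := by
    have h1 : Tendsto (fun n => (T ^ φ n).adjugate * T ^ φ (n + 1)) atTop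
        (𝓝 (Λ.adjugate * Λ)) :=
      (((continuous_id.matrix_adjugate).tendsto _).comp hlim').mul
        (hlim'.comp (tendsto_add_atTop_nat 1))
    rw [adj_mul_self hdet] at h1
    refine h1.congr fun n => ?_
    have h2 : φ n ≤ φ (n + 1) := hφ.monotone (Nat.le_succ n)
    have h3 : T ^ φ (n + 1) = T ^ φ n * T ^ (φ (n + 1) - φ n) := by
      rw [← pow_add, Nat.add_sub_cancel' h2]
    rw [h3, ← Matrix.mul_assoc, adj_mul_self (SS_det (SS_pow hε.le hc hTS _)), Matrix.one_mul]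
  set P : Matrix (Fin 2) (Fin 2) ℝ := !![1, 0; -ε, 1] with hP
  have hTP : T * P ∈ SS c ε N := by
    refine ⟨1, fun i => if i = 0 then c i + ε else c i, ?_, ?_⟩
    · intro i
      show |(if i = 0 then c i + ε else c i) - c i| ≤ ε
      split_ifs
      · rw [add_sub_cancel_left, abs_of_pos hε]
      · simpa using hε.le
    · rw [one_mul]
      have h1 := tm_add c 1 (N - 1)
      have h2 := tm_add (fun i => if i = 0 then c i + ε else c i) 1 (N - 1)
      rw [Nat.add_sub_cancel' (by omega)] at h1 h2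
      rw [h2, hT, h1, Matrix.mul_assoc]
      congr 1
      · apply tm_congr
        intro i _
        rw [if_neg (by omega)]
      · simp only [tm, Matrix.mul_one]
        rw [hP, bb, bb]
        ext i j
        fin_cases i <;> fin_cases j <;> simp [Matrix.mul_apply, Fin.sum_univ_two]
  have hmem : ∀ m, 1 ≤ m → T ^ m * P ∈ SS c ε N := by
    intro m hm
    obtain ⟨l, rfl⟩ := Nat.exists_eq_add_of_le' hm
    rw [pow_succ, Matrix.mul_assoc]
    exact SS_mul hc hTP (SS_pow hε.le hc hTS l)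
  have hbd : ∀ n : ℕ, n * ε ≤ C := by
    intro n
    have h1 : Tendsto (fun k => ((T ^ (φ (k + 1) - φ k) * P) ^ n : Matrix (Fin 2) (Fin 2) ℝ) 1 0) atTop
        (𝓝 (((1 * P) ^ n : Matrix (Fin 2) (Fin 2) ℝ) 1 0)) := by
      have h2 : Continuous fun M : Matrix (Fin 2) (Fin 2) ℝ => ((M * P) ^ n) 1 0 := by
        apply Continuous.matrix_elem
        exact (continuous_id.mul continuous_const).pow n
      exact (h2.tendsto _).comp hone
    have h3 : ∀ k, |((T ^ (φ (k + 1) - φ k) * P) ^ n : Matrix (Fin 2) (Fin 2) ℝ) 1 0| ≤ C := by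
      intro k
      apply hC
      apply SS_pow hε.le hc
      apply hmem
      have := hφ (show k < k + 1 by omega)
      omega
    have h4 := le_of_tendsto (h1.abs) (Eventually.of_forall h3)
    rw [one_mul, hP, low_pow] at h4
    simp only [Matrix.of_apply, Matrix.cons_val', Matrix.cons_val_zero, Matrix.cons_val_one,
      Matrix.cons_val_fin_one, abs_neg] at h4
    exact (le_abs_self _).trans h4
  obtain ⟨n, hn⟩ := exists_nat_gt (C / ε)
  rw [div_lt_iff₀ hε] at hn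
  linarith [hbd n]

end Pool.Agent.K9h34.LP
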