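import Pool.Agent.K9h34.LP.Hyp
import Pool.Agent.K9h34.LP.Bar

/-!
# The initial barrier
-/

set_option autoImplicit false

namespace Pool.Agent.K9h34.LP

open Filter Topology

lemma tm_close (x : ℕ → ℝ) (q : ℕ) : ∀ η : ℝ, 0 < η → ∃ ρ : ℝ, 0 < ρ ∧ ∀ x' : ℕ → ℝ,
    (∀ i, i < q → |x' i - x i| ≤ ρ) → ∀ a b, |tm x' q a b - tm x q a b| ≤ η := by
  induction q with
  | zero =>
    intro η hη
    refine ⟨1, one_pos, fun x' _ a b => ?_⟩
    simp only [tm, sub_self, abs_zero]; exact hη.le
  | succ q ih =>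
    intro η hη
    set B : ℝ := |x q| + 1 + (|tm x q 0 0| + |tm x q 0 1|) with hB
    have hB1 : 1 ≤ B := by
      rw [hB]
      have := abs_nonneg (x q); have := abs_nonneg (tm x q 0 0); have := abs_nonneg (tm x q 0 1)
      linarith
    obtain ⟨ρ, hρ, h⟩ := ih (min 1 (η / (4 * B))) (by positivity)
    refine ⟨min ρ (η / (4 * B)), by positivity, fun x' hx' a b => ?_⟩
    have h1 := h x' (fun i hi => (hx' i (by omega)).trans (min_le_left _ _))
    have h2 := (hx' q (by omega)).trans (min_le_right _ _)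
    have hη' : η / (4 * B) * B = η / 4 := by field_simp
    have h01 : ∀ b, |tm x q 0 b| ≤ B := by
      intro b
      have := abs_nonneg (x q); have := abs_nonneg (tm x q 0 0); have := abs_nonneg (tm x q 0 1)
      fin_cases b <;> simp only [Fin.zero_eta, Fin.mk_one] <;> linarith
    have h3 : ∀ b, |tm x' (q + 1) 0 b - tm x (q + 1) 0 b| ≤ η := by
      intro b
      have e1 : tm x' (q + 1) 0 b - tm x (q + 1) 0 b =
          (x' q - x q) * (tm x' q 0 b - tm x q 0 b) + (x' q - x q) * tm x q 0 b +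
          x q * (tm x' q 0 b - tm x q 0 b) - (tm x' q 1 b - tm x q 1 b) := by
        simp only [tm, bb, Matrix.mul_apply, Fin.sum_univ_two, Matrix.of_apply, Matrix.cons_val',
          Matrix.cons_val_zero, Matrix.cons_val_one, Matrix.cons_val_fin_one]
        ring
      rw [e1]
      have g1 : |(x' q - x q) * (tm x' q 0 b - tm x q 0 b)| ≤ η / 4 := by
        rw [abs_mul]
        calc _ ≤ η / (4 * B) * 1 := mul_le_mul h2 ((h1 0 b).trans (min_le_left _ _))
              (abs_nonneg _) (by positivity)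
          _ ≤ η / (4 * B) * B := mul_le_mul_of_nonneg_left hB1 (by positivity)
          _ = _ := hη'
      have g2 : |(x' q - x q) * tm x q 0 b| ≤ η / 4 := by
        rw [abs_mul]
        calc _ ≤ η / (4 * B) * B := mul_le_mul h2 (h01 b) (abs_nonneg _) (by positivity)
          _ = _ := hη'
      have g3 : |x q * (tm x' q 0 b - tm x q 0 b)| ≤ η / 4 := by
        rw [abs_mul, mul_comm]
        calc _ ≤ η / (4 * B) * B := mul_le_mul ((h1 0 b).trans (min_le_right _ _))
              (by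
                have := abs_nonneg (tm x q 0 0); have := abs_nonneg (tm x q 0 1)
                linarith) (abs_nonneg _) (by positivity)
          _ = _ := hη'
      have g4 : |tm x' q 1 b - tm x q 1 b| ≤ η / 4 := by
        calc _ ≤ η / (4 * B) * 1 := by rw [mul_one]; exact (h1 1 b).trans (min_le_right _ _)
          _ ≤ η / (4 * B) * B := mul_le_mul_of_nonneg_left hB1 (by positivity)
          _ = _ := hη'
      rw [abs_le] at g1 g2 g3 g4 ⊢
      constructor <;> linarith
    have h4 : ∀ b, |tm x' (q + 1) 1 b - tm x (q + 1) 1 b| ≤ η := by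
      intro b
      have e1 : tm x' (q + 1) 1 b - tm x (q + 1) 1 b = tm x' q 0 b - tm x q 0 b := by
        simp only [tm, bb, Matrix.mul_apply, Fin.sum_univ_two, Matrix.of_apply, Matrix.cons_val',
          Matrix.cons_val_zero, Matrix.cons_val_one, Matrix.cons_val_fin_one]
        ring
      rw [e1]
      refine (h1 0 b).trans ((min_le_right _ _).trans ?_)
      rw [div_le_iff₀ (by positivity)]
      nlinarith
    fin_cases a
    · exact h3 b
    · exact h4 b

/-- transfer matrices act on solutions -/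
lemma tm_sol {V u : ℤ → ℝ} {E : ℝ} {a : ℤ} (k : ℕ) (h : ∀ n, a ≤ n → n < a + k → Sol V E u n) :
    u (a + k) = tm (fun i => E - V (a + i)) k 0 0 * u a + tm (fun i => E - V (a + i)) k 0 1 * u (a - 1) ∧
    u (a + k - 1) = tm (fun i => E - V (a + i)) k 1 0 * u a +
      tm (fun i => E - V (a + i)) k 1 1 * u (a - 1) := by
  induction k with
  | zero => simp [tm]
  | succ k ih =>
    obtain ⟨h1, h2⟩ := ih (fun n hn hn' => h n hn (by push_cast; omega))
    have h3 := h (a + k) (by omega) (by push_cast; omega)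
    unfold Sol at h3
    have e1 : a + ((k + 1 : ℕ) : ℤ) = a + k + 1 := by push_cast; ring
    have e2 : a + ((k + 1 : ℕ) : ℤ) - 1 = a + k := by push_cast; ring
    rw [e2, e1]
    have e3 : u (a + k + 1) = (E - V (a + k)) * u (a + k) - u (a + k - 1) := by linarith
    rw [e3, h1, h2]
    simp only [tm, bb, Matrix.mul_apply, Fin.sum_univ_two, Matrix.of_apply, Matrix.cons_val',
      Matrix.cons_val_zero, Matrix.cons_val_one, Matrix.cons_val_fin_one]
    constructor <;> ring

/-- the size of a solution at a bond -/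
noncomputable def nn (u : ℤ → ℝ) (c : ℤ) : ℝ := max |u c| |u (c - 1)|

/-- a periodic word that is uniformly hyperbolic near the energy `E₀` -/
def HypW (w : ℤ → ℝ) (q : ℕ) (E₀ ρ θ : ℝ) : Prop :=
  ∀ E, |E - E₀| ≤ ρ → ∀ V u : ℤ → ℝ, ∀ c : ℤ, (q : ℤ) ∣ c →
    (∀ n, c - q ≤ n → n < c + q → |V n - w n| ≤ ρ ∧ Sol V E u n) →
    nn u c ≤ θ * max (nn u (c - q)) (nn u (c + q))

theorem hyp_local {v₀ : ℤ → ℝ} {N₀ : ℕ} (hN : 3 ≤ N₀) (hper : ∀ x, v₀ (x + N₀) = v₀ x) {ε : ℝ}
    (hε : 0 < ε) (E₀ : ℝ) :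
    ∃ (q : ℕ) (w : ℤ → ℝ) (ρ θ : ℝ), 1 ≤ q ∧ (∀ y, |w y - v₀ y| ≤ ε) ∧ 0 < ρ ∧ 0 < θ ∧ θ < 1 ∧
      HypW w q E₀ ρ θ := by
  obtain ⟨n, x, hx, htr⟩ := exists_hyp (c := fun i => E₀ - v₀ i) hε hN (by
    intro i
    show E₀ - v₀ ((i + N₀ : ℕ) : ℤ) = E₀ - v₀ i
    push_cast; rw [hper])
  obtain ⟨q, hq⟩ : ∃ q, q = n * N₀ := ⟨_, rfl⟩
  rw [← hq] at htr
  have hq1 : 1 ≤ q := by
    rcases Nat.eq_zero_or_pos q with h0 | h0
    · rw [h0, tm, Matrix.trace_one] at htr
      norm_num at htr
    · exact h0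
  have hq0 : (0:ℤ) < q := by exact_mod_cast hq1
  have hperz : ∀ (x : ℤ) (j : ℕ), v₀ (x + N₀ * j) = v₀ x := by
    intro x j
    induction j with
    | zero => simp
    | succ j ih =>
      have e : x + (N₀:ℤ) * ((j + 1 : ℕ) : ℤ) = x + N₀ * j + N₀ := by push_cast; ring
      rw [e, hper, ih]
  have hperz' : ∀ (x : ℤ) (j : ℤ), v₀ (x + N₀ * j) = v₀ x := by
    intro x j
    rcases Int.le_total 0 j with h | h
    · obtain ⟨k, rfl⟩ := Int.eq_ofNat_of_zero_le h
      exact hperz x k
    · obtain ⟨k, hk⟩ := Int.eq_ofNat_of_zero_le (show 0 ≤ -j by omega)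
      have h1 := hperz (x + N₀ * j) k
      rw [← h1]
      congr 1
      rw [← hk]; ring
  set w : ℤ → ℝ := fun y => E₀ - x ((y % q).toNat) with hw
  obtain ⟨η, hη⟩ : ∃ η, η = (|(tm x q).trace| - 2) / 8 := ⟨_, rfl⟩
  have hη0 : 0 < η := by rw [hη]; linarith
  obtain ⟨ρ, hρ, hcl⟩ := tm_close x q η hη0
  refine ⟨q, w, ρ / 2, 1 / (1 + 2 * η), hq1, ?_, by positivity, by positivity, ?_, ?_⟩
  · intro y
    have h1 : |x ((y % q).toNat) - (E₀ - v₀ (((y % q).toNat : ℕ) : ℤ))| ≤ ε := hx ((y % q).toNat)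
    have h2 : 0 ≤ y % q := Int.emod_nonneg _ hq0.ne'
    have h3 : (((y % q).toNat : ℕ) : ℤ) = y % q := Int.toNat_of_nonneg h2
    have h4 : v₀ (((y % q).toNat : ℕ) : ℤ) = v₀ y := by
      rw [h3]
      have h5 := Int.emod_add_mul_ediv y q
      have h6 := hperz' (y % q) (n * (y / q))
      rw [← h6]
      congr 1
      have e : (N₀:ℤ) * (n * (y / q)) = q * (y / q) := by rw [hq]; push_cast; ring
      rw [e]; exact h5
    rw [h4] at h1
    show |E₀ - x ((y % q).toNat) - v₀ y| ≤ ε
    rw [abs_sub_comm] at h1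
    rw [show E₀ - x ((y % q).toNat) - v₀ y = E₀ - v₀ y - x ((y % q).toNat) by ring]
    exact h1
  · rw [div_lt_one (by positivity)]; linarith
  · intro E hE V u c hc hVu
    obtain ⟨c', rfl⟩ := hc
    have hmod : ∀ (j : ℤ) (i : ℕ), i < q → ((q * j + i : ℤ) % q) = i := by
      intro j i hi
      rw [add_comm, Int.add_mul_emod_self_left]
      exact Int.emod_eq_of_lt (by omega) (by omega)
    have hw1 : ∀ (j : ℤ) (i : ℕ), i < q → w (q * j + i) = E₀ - x i := by
      intro j i hi
      show E₀ - x (((q * j + i : ℤ) % q).toNat) = _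
      rw [hmod j i hi, Int.toNat_natCast]
    have hclose : ∀ (a : ℤ) (j : ℤ), a = q * j → q * c' - q ≤ a → a + q ≤ q * c' + q →
        ∀ a' b', |tm (fun i => E - V (a + i)) q a' b' - tm x q a' b'| ≤ η := by
      intro a j ha h1 h2
      apply hcl
      intro i hi
      have h3 := (hVu (a + i) (by omega) (by omega)).1
      rw [ha, hw1 j i hi] at h3
      rw [ha]
      show |E - V (q * j + i) - x i| ≤ ρ
      rw [abs_le] at hE h3 ⊢
      constructor <;> linarith
    have h1 := hclose (q * c') c' rfl (by omega) (by omega)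
    have h0 := hclose (q * c' - q) (c' - 1) (by ring) (by omega) (by omega)
    obtain ⟨g1, g2⟩ := tm_sol (V := V) (u := u) (E := E) (a := q * c') q (fun n hn hn' =>
      (hVu n (by omega) (by omega)).2)
    obtain ⟨g3, g4⟩ := tm_sol (V := V) (u := u) (E := E) (a := q * c' - q) q (fun n hn hn' =>
      (hVu n (by omega) (by omega)).2)
    rw [sub_add_cancel] at g3 g4
    have hd := two_det (tm_det (fun i => E - V (q * c' - q + i)) q)
    set T1 := tm (fun i => E - V (q * c' + i)) q with hT1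
    set T0 := tm (fun i => E - V (q * c' - q + i)) q with hT0
    have g5 : u (q * c' - q) = T0 1 1 * u (q * c') - T0 0 1 * u (q * c' - 1) := by
      rw [g3, g4]
      linear_combination (- u (q * c' - q)) * hd
    have g6 : u (q * c' - q - 1) = - T0 1 0 * u (q * c') + T0 0 0 * u (q * c' - 1) := by
      rw [g3, g4]
      linear_combination (- u (q * c' - q - 1)) * hd
    have htr' : |tm x q 0 0 + tm x q 1 1| = 2 + 8 * η := by
      rw [← Matrix.trace_fin_two, hη]; ring
    set B := max (nn u (q * c' - q)) (nn u (q * c' + q)) with hB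
    have b1 : |u (q * c' - q)| ≤ B := (le_max_left _ _).trans (le_max_left _ _)
    have b2 : |u (q * c' - q - 1)| ≤ B := (le_max_right _ _).trans (le_max_left _ _)
    have b3 : |u (q * c' + q)| ≤ B := (le_max_left _ _).trans (le_max_right _ _)
    have b4 : |u (q * c' + q - 1)| ≤ B := (le_max_right _ _).trans (le_max_right _ _)
    have s1 : (T1 0 0 + T0 1 1) * u (q * c') =
        u (q * c' + q) + u (q * c' - q) - (T1 0 1 - T0 0 1) * u (q * c' - 1) := by
      rw [g1, g5]; ring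
    have s2 : (T1 1 1 + T0 0 0) * u (q * c' - 1) =
        u (q * c' + q - 1) + u (q * c' - q - 1) - (T1 1 0 - T0 1 0) * u (q * c') := by
      rw [g2, g6]; ring
    have t1 : 2 + 6 * η ≤ |T1 0 0 + T0 1 1| := by
      have k1 := h1 0 0
      have k2 := h0 1 1
      have e : tm x q 0 0 + tm x q 1 1 = (T1 0 0 + T0 1 1) - ((T1 0 0 - tm x q 0 0) +
        (T0 1 1 - tm x q 1 1)) := by ring
      have k3 := abs_sub (T1 0 0 + T0 1 1) ((T1 0 0 - tm x q 0 0) + (T0 1 1 - tm x q 1 1))
      rw [← e, htr'] at k3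
      have k4 := abs_add_le (T1 0 0 - tm x q 0 0) (T0 1 1 - tm x q 1 1)
      linarith
    have t2 : 2 + 6 * η ≤ |T1 1 1 + T0 0 0| := by
      have k1 := h1 1 1
      have k2 := h0 0 0
      have e : tm x q 0 0 + tm x q 1 1 = (T1 1 1 + T0 0 0) - ((T1 1 1 - tm x q 1 1) +
        (T0 0 0 - tm x q 0 0)) := by ring
      have k3 := abs_sub (T1 1 1 + T0 0 0) ((T1 1 1 - tm x q 1 1) + (T0 0 0 - tm x q 0 0))
      rw [← e, htr'] at k3
      have k4 := abs_add_le (T1 1 1 - tm x q 1 1) (T0 0 0 - tm x q 0 0)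
      linarith
    have t3 : |T1 0 1 - T0 0 1| ≤ 2 * η := by
      have k1 := h1 0 1
      have k2 := h0 0 1
      have e : T1 0 1 - T0 0 1 = (T1 0 1 - tm x q 0 1) - (T0 0 1 - tm x q 0 1) := by ring
      rw [e]
      have := abs_sub (T1 0 1 - tm x q 0 1) (T0 0 1 - tm x q 0 1)
      linarith
    have t4 : |T1 1 0 - T0 1 0| ≤ 2 * η := by
      have k1 := h1 1 0
      have k2 := h0 1 0
      have e : T1 1 0 - T0 1 0 = (T1 1 0 - tm x q 1 0) - (T0 1 0 - tm x q 1 0) := by ring
      rw [e]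
      have := abs_sub (T1 1 0 - tm x q 1 0) (T0 1 0 - tm x q 1 0)
      linarith
    -- generic conclusion
    have gen : ∀ m m' p r y z : ℝ, p * m = y + z - r * m' → |m'| ≤ |m| → 2 + 6 * η ≤ |p| →
        |r| ≤ 2 * η → |y| ≤ B → |z| ≤ B → |m| ≤ 1 / (1 + 2 * η) * B := by
      intro m m' p r y z he hm hp hr hy hz
      have k1 : |p| * |m| ≤ 2 * B + 2 * η * |m| := by
        rw [← abs_mul, he]
        have k2 := abs_sub (y + z) (r * m')
        have k3 := abs_add_le y z
        have k4 : |r * m'| ≤ 2 * η * |m| := by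
          rw [abs_mul]
          exact mul_le_mul hr hm (abs_nonneg _) (by positivity)
        linarith
      have k5 : (2 + 6 * η) * |m| ≤ |p| * |m| := mul_le_mul_of_nonneg_right hp (abs_nonneg _)
      rw [div_mul_eq_mul_div, le_div_iff₀ (by positivity)]
      nlinarith
    unfold nn
    rcases le_total |u (q * c' - 1)| |u (q * c')| with h | h
    · rw [max_eq_left h]
      exact gen _ _ _ _ _ _ s1 h t1 t3 b3 b1
    · rw [max_eq_right h]
      exact gen _ _ _ _ _ _ s2 h t2 t4 b4 b2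

end Pool.Agent.K9h34.LP
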