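import Pool.Agent.K9h34.LP.Step

/-!
# Completeness of the eigenvectors
-/

set_option autoImplicit false

namespace Pool.Agent.K9h34.LP

open Finset Filter Topology

/-- finitely supported vector of ℓ² -/
noncomputable def emb (s : Finset ℤ) (φ : ℤ → ℝ) : lp (fun _ : ℤ => ℂ) 2 :=
  ∑ n ∈ s, lp.single 2 n ((φ n : ℝ) : ℂ)

lemma emb_apply {s : Finset ℤ} {φ : ℤ → ℝ} (h : ∀ n, n ∉ s → φ n = 0) (m : ℤ) :
    (emb s φ : ℤ → ℂ) m = (φ m : ℂ) := by
  unfold emb
  rw [lp.coeFn_sum, Finset.sum_apply]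
  simp only [lp.single_apply]
  rw [Finset.sum_pi_single]
  split_ifs with hm
  · rfl
  · rw [h m hm]; simp

lemma emb_norm (s : Finset ℤ) (φ : ℤ → ℝ) : ‖emb s φ‖ ^ 2 = ∑ n ∈ s, φ n ^ 2 := by
  have h := lp.norm_sum_single (p := 2) (E := fun _ : ℤ => ℂ) (by norm_num)
    (fun n => ((φ n : ℝ) : ℂ)) s
  simpa [emb] using h

/-- the eigenvectors of the operator on the whole line -/
def PP (V : ℤ → ℝ) : Set (lp (fun _ : ℤ => ℂ) 2) :=
  {ψ | ∃ E : ℝ, ∀ n : ℤ, ψ (n + 1) + ψ (n - 1) + (V n : ℂ) * ψ n = (E : ℂ) * ψ n}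

/-- the data of an eigenfunction at level `k` -/
def St (V : ℤ → ℝ) (A L : ℕ → ℕ) (κ : ℕ → ℝ) (x : ℤ) (k : ℕ) (t : ℝ × (ℤ → ℝ) × ℤ) : Prop :=
  EF V (x - A k) (x + A k) t.1 t.2.1 ∧ Ctr t.2.1 t.2.2 (L k) (κ k) ∧ 2 * |t.2.2 - x| ≤ A k

/-- consecutive levels -/
def Nx (A : ℕ → ℕ) (x : ℤ) (k : ℕ) (t t' : ℝ × (ℤ → ℝ) × ℤ) : Prop :=
  |t'.1 - t.1| ≤ (1 / 2) ^ k ∧
    ∑ n ∈ Icc (x - A (k + 1) : ℤ) (x + A (k + 1)), (t.2.1 n - t'.2.1 n) ^ 2 ≤
      ((1 / 2) ^ k / (2 * A k + 1)) ^ 2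

lemma emb_congr {s s' : Finset ℤ} {φ : ℤ → ℝ} (h : ∀ n, n ∉ s → φ n = 0) (h' : ∀ n, n ∉ s' → φ n = 0) :
    emb s φ = emb s' φ := by
  ext m
  rw [emb_apply h, emb_apply h']

lemma emb_sub (s : Finset ℤ) (φ φ' : ℤ → ℝ) :
    emb s φ - emb s φ' = emb s (fun n => φ n - φ' n) := by
  unfold emb
  rw [← Finset.sum_sub_distrib]
  apply Finset.sum_congr rfl
  intro n _
  rw [← lp.single_sub]
  push_cast
  rfl

lemma follow {V : ℤ → ℝ} {A L : ℕ → ℕ} {κ : ℕ → ℝ} (hmono : ∀ k, A k ≤ A (k + 1))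
    (hA : ∀ k, k ≤ A k) {x : ℤ}
    (hstep : ∀ k t, St V A L κ x k t → ∃ t', St V A L κ x (k + 1) t' ∧ Nx A x k t t')
    (k : ℕ) {t : ℝ × (ℤ → ℝ) × ℤ} (ht : St V A L κ x k t) :
    ∃ ψ ∈ PP V, ‖emb (Icc (x - A k : ℤ) (x + A k)) t.2.1 - ψ‖ ≤ 2 * ((1 / 2) ^ k / (2 * A k + 1)) := by
  classical
  choose! nxt hn1 hn2 using hstep
  set f : ℕ → ℝ × (ℤ → ℝ) × ℤ := fun l => Nat.rec t (fun l s => nxt (k + l) s) l with hf
  have hf0 : f 0 = t := rfl
  have hfs : ∀ l, f (l + 1) = nxt (k + l) (f l) := fun l => rfl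
  have hSt : ∀ l, St V A L κ x (k + l) (f l) := by
    intro l
    induction l with
    | zero => exact ht
    | succ l ih => rw [hfs]; exact hn1 _ _ ih
  have hNx : ∀ l, Nx A x (k + l) (f l) (f (l + 1)) := by
    intro l
    rw [hfs]; exact hn2 _ _ (hSt l)
  have hAm : Monotone A := monotone_nat_of_le_succ hmono
  set w : ℕ → lp (fun _ : ℤ => ℂ) 2 := fun l =>
    emb (Icc (x - A (k + l) : ℤ) (x + A (k + l))) (f l).2.1 with hw
  have hdist : ∀ l, dist (w l) (w (l + 1)) ≤ (1 / 2) ^ k / (2 * A k + 1) * (1 / 2) ^ l := by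
    intro l
    have h1 := (hNx l).2
    have h2 : w l = emb (Icc (x - A (k + l + 1) : ℤ) (x + A (k + l + 1))) (f l).2.1 := by
      apply emb_congr (hSt l).1.out
      intro n hn
      apply (hSt l).1.out
      intro hn'
      apply hn
      have := hAm (show k + l ≤ k + l + 1 by omega)
      rw [mem_Icc] at hn' ⊢; omega
    have h3 : w (l + 1) = emb (Icc (x - A (k + l + 1) : ℤ) (x + A (k + l + 1))) (f (l + 1)).2.1 := rfl
    rw [dist_eq_norm, h2, h3, emb_sub]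
    rw [← emb_norm] at h1
    have h4 : ‖emb (Icc (x - A (k + l + 1) : ℤ) (x + A (k + l + 1)))
        (fun n => (f l).2.1 n - (f (l + 1)).2.1 n)‖ ≤ (1 / 2) ^ (k + l) / (2 * A (k + l) + 1) :=
      abs_le_of_sq_le_sq' h1 (by positivity) |>.2
    refine h4.trans ?_
    have h5 : (A k : ℝ) ≤ A (k + l) := by exact_mod_cast hAm (show k ≤ k + l by omega)
    rw [pow_add, div_mul_eq_mul_div]
    apply div_le_div_of_nonneg_left (by positivity) (by positivity)
    linarith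
  obtain ⟨ψ, hψ⟩ := cauchySeq_tendsto_of_complete
    (cauchySeq_of_le_geometric (1 / 2) _ (by norm_num) hdist)
  have hlim := dist_le_of_le_geometric_of_tendsto₀ (1 / 2) _ (by norm_num) hdist hψ
  have hdE : ∀ l, dist (f l).1 (f (l + 1)).1 ≤ (1 / 2) ^ k * (1 / 2) ^ l := by
    intro l
    rw [Real.dist_eq, abs_sub_comm, ← pow_add]
    exact (hNx l).1
  obtain ⟨E, hE⟩ := cauchySeq_tendsto_of_complete
    (cauchySeq_of_le_geometric (1 / 2) _ (by norm_num) hdE)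
  have hpt : ∀ n : ℤ, Tendsto (fun l => (w l : ℤ → ℂ) n) atTop (𝓝 ((ψ : ℤ → ℂ) n)) := by
    intro n
    rw [tendsto_iff_norm_sub_tendsto_zero] at hψ ⊢
    apply squeeze_zero (fun _ => norm_nonneg _) (fun l => _) hψ
    intro l
    have := lp.norm_apply_le_norm (p := 2) (by norm_num) (w l - ψ) n
    simpa using this
  refine ⟨ψ, ⟨E, fun n => ?_⟩, ?_⟩
  · have h1 : Tendsto (fun l => (w l : ℤ → ℂ) (n + 1) + (w l : ℤ → ℂ) (n - 1) + (V n : ℂ) * (w l : ℤ → ℂ) n)
        atTop (𝓝 ((ψ : ℤ → ℂ) (n + 1) + (ψ : ℤ → ℂ) (n - 1) + (V n : ℂ) * (ψ : ℤ → ℂ) n)) :=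
      ((hpt (n + 1)).add (hpt (n - 1))).add ((hpt n).const_mul _)
    have h2 : Tendsto (fun l => (((f l).1 : ℝ) : ℂ) * (w l : ℤ → ℂ) n) atTop
        (𝓝 ((E : ℂ) * (ψ : ℤ → ℂ) n)) :=
      ((Complex.continuous_ofReal.tendsto E).comp hE).mul (hpt n)
    refine tendsto_nhds_unique (h1.congr' ?_) h2
    filter_upwards [eventually_ge_atTop (|n - x|.toNat)] with l hl
    have h3 : n ∈ Icc (x - A (k + l) : ℤ) (x + A (k + l)) := by
      have h4 := hA (k + l)
      rw [mem_Icc]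
      rcases abs_cases (n - x) with ⟨h5, _⟩ | ⟨h5, _⟩ <;> omega
    have h4 := (hSt l).1.sol n h3
    unfold Sol at h4
    have hout : ∀ m, (w l : ℤ → ℂ) m = ((f l).2.1 m : ℂ) := emb_apply (hSt l).1.out
    rw [hout, hout, hout]
    exact_mod_cast h4
  · rw [dist_eq_norm] at hlim
    have e1 : w 0 = emb (Icc (x - A k : ℤ) (x + A k)) t.2.1 := rfl
    rw [← e1]
    refine hlim.trans (le_of_eq ?_)
    field_simp; ring

theorem complete {V : ℤ → ℝ} {A L : ℕ → ℕ} {κ : ℕ → ℝ} (hmono : ∀ k, A k ≤ A (k + 1))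
    (hA : ∀ k, k ≤ A k) (hL : ∀ k, 16 * L k ≤ A k) (hκ0 : ∀ k, 0 ≤ κ k)
    (hκ : ∀ k, κ k ≤ (1 / 2) ^ k / (2 * A k + 1))
    (hloc : ∀ k (x : ℤ) E φ, EF V (x - A k) (x + A k) E φ → ∃ c, Ctr φ c (L k) (κ k))
    (hstep : ∀ (x : ℤ) k t, St V A L κ x k t → ∃ t', St V A L κ x (k + 1) t' ∧ Nx A x k t t') :
    (Submodule.span ℂ (PP V)).topologicalClosure = ⊤ := by
  classical
  have key : ∀ x : ℤ, lp.single 2 x (1:ℂ) ∈ (Submodule.span ℂ (PP V)).topologicalClosure := by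
    intro x
    rw [← SetLike.mem_coe, Submodule.topologicalClosure_coe, Metric.mem_closure_iff]
    intro ε hε
    obtain ⟨k, hk⟩ := exists_pow_lt_of_lt_one (show 0 < ε / 2 by positivity)
      (show (1 / 2 : ℝ) < 1 by norm_num)
    obtain ⟨e, f, f0, fs, fo, fc⟩ := box_basis V (x - A k) (x + A k)
    have hef : ∀ i, EF V (x - A k) (x + A k) (e i) (f i) := fun i => ⟨f0 i, fs i, by
      have := fo i i
      rw [if_pos rfl] at this
      rw [← this]
      apply Finset.sum_congr rfl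
      intro n _; ring⟩
    have hnrm : ∀ i, ‖emb (Icc (x - A k : ℤ) (x + A k)) (f i)‖ = 1 := by
      intro i
      have h1 := emb_norm (Icc (x - A k : ℤ) (x + A k)) (f i)
      rw [(hef i).nrm] at h1
      have h2 := norm_nonneg (emb (Icc (x - A k : ℤ) (x + A k)) (f i))
      nlinarith
    have happ : ∀ i, ∃ ψ ∈ Submodule.span ℂ (PP V),
        ‖(f i x : ℂ) • emb (Icc (x - A k : ℤ) (x + A k)) (f i) - ψ‖ ≤
          2 * ((1 / 2) ^ k / (2 * A k + 1)) := by
      intro i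
      obtain ⟨c, hc⟩ := hloc k x _ _ (hef i)
      by_cases hcx : 2 * |c - x| ≤ A k
      · obtain ⟨ψ, hψ, h1⟩ := follow hmono hA (hstep x) k (t := (e i, f i, c)) ⟨hef i, hc, hcx⟩
        refine ⟨(f i x : ℂ) • ψ, Submodule.smul_mem _ _ (Submodule.subset_span hψ), ?_⟩
        rw [← smul_sub, norm_smul]
        have h2 : ‖(f i x : ℂ)‖ ≤ 1 := by
          rw [Complex.norm_real]; exact (hef i).le_one x
        have h3 := mul_le_mul h2 h1 (norm_nonneg _) zero_le_one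
        rw [one_mul] at h3
        exact h3
      · refine ⟨0, Submodule.zero_mem _, ?_⟩
        rw [sub_zero, norm_smul, hnrm, mul_one, Complex.norm_real]
        have h2 := hc 1 x (by
          have := hL k
          rw [abs_sub_comm] at hcx
          push_cast; omega)
        rw [pow_one] at h2
        have h3 := hκ k
        have h4 : (0:ℝ) ≤ (1 / 2) ^ k / (2 * A k + 1) := by positivity
        calc _ = |f i x| := rfl
          _ ≤ κ k := h2
          _ ≤ _ := by linarith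
    choose ψ hψ1 hψ2 using happ
    refine ⟨∑ i, ψ i, Submodule.sum_mem _ (fun i _ => hψ1 i), ?_⟩
    have hexp : lp.single 2 x (1:ℂ) = ∑ i, (f i x : ℂ) • emb (Icc (x - A k : ℤ) (x + A k)) (f i) := by
      ext m
      rw [lp.coeFn_sum, Finset.sum_apply]
      have h1 : ∀ i, (((f i x : ℂ) • emb (Icc (x - A k : ℤ) (x + A k)) (f i) :
          lp (fun _ : ℤ => ℂ) 2) : ℤ → ℂ) m = ((f i x * f i m : ℝ) : ℂ) := by
        intro i
        rw [lp.coeFn_smul, Pi.smul_apply, emb_apply (f0 i), smul_eq_mul]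
        push_cast; rfl
      rw [Finset.sum_congr rfl (fun i _ => h1 i), ← Complex.ofReal_sum, lp.single_apply]
      by_cases hm : m ∈ Icc (x - A k : ℤ) (x + A k)
      · have h2 := fc (fun n => if n = x then 1 else 0) m hm
        have h3 : ∀ i, ∑ n ∈ Icc (x - A k : ℤ) (x + A k), (if n = x then (1:ℝ) else 0) * f i n = f i x := by
          intro i
          simp only [ite_mul, one_mul, zero_mul]
          rw [Finset.sum_ite_eq', if_pos (by rw [mem_Icc]; omega)]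
        rw [Finset.sum_congr rfl (fun i _ => by rw [h3 i])] at h2
        rw [← h2]
        by_cases h4 : m = x
        · subst h4; simp
        · rw [Pi.single_eq_of_ne h4, if_neg h4]; simp
      · have h2 : m ≠ x := by
          rintro rfl
          apply hm
          rw [mem_Icc]; omega
        rw [Pi.single_eq_of_ne h2]
        rw [Finset.sum_eq_zero (fun i _ => by rw [f0 i m hm, mul_zero])]
        simp
    rw [hexp, dist_eq_norm, ← Finset.sum_sub_distrib]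
    have hcard : (Fintype.card (Icc (x - A k : ℤ) (x + A k)) : ℝ) = 2 * A k + 1 := by
      rw [Fintype.card_coe, Int.card_Icc]
      have : (x + A k + 1 - (x - A k)).toNat = 2 * A k + 1 := by omega
      rw [this]; push_cast; ring
    calc _ ≤ ∑ i, ‖(f i x : ℂ) • emb (Icc (x - A k : ℤ) (x + A k)) (f i) - ψ i‖ := norm_sum_le _ _
      _ ≤ ∑ i : Icc (x - A k : ℤ) (x + A k), 2 * ((1 / 2) ^ k / (2 * A k + 1) : ℝ) :=
          Finset.sum_le_sum (fun i _ => hψ2 i)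
      _ = 2 * (1 / 2) ^ k := by
          rw [sum_const, card_univ, nsmul_eq_mul, hcard]
          field_simp
      _ < ε := by linarith
  have key2 : ∀ (x : ℤ) (a : ℂ), lp.single 2 x a ∈ (Submodule.span ℂ (PP V)).topologicalClosure := by
    intro x a
    have h1 : (lp.single 2 x a : lp (fun _ : ℤ => ℂ) 2) = a • lp.single 2 x (1:ℂ) := by
      rw [← lp.single_smul]; simp
    rw [h1]
    exact Submodule.smul_mem _ _ (key x)
  rw [eq_top_iff]
  intro ψ _
  have h1 := lp.hasSum_single (p := 2) (by norm_num) ψ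
  have h2 : IsClosed ((Submodule.span ℂ (PP V)).topologicalClosure : Set (lp (fun _ : ℤ => ℂ) 2)) :=
    Submodule.isClosed_topologicalClosure _
  exact h2.mem_of_tendsto h1 (Eventually.of_forall fun s => Submodule.sum_mem _ fun i _ => key2 i _)

end Pool.Agent.K9h34.LP
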