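import Pool.Agent.K9h34.LP.Bar

/-!
# Localization of the eigenfunctions of boxes
-/

set_option autoImplicit false

namespace Pool.Agent.K9h34.LP

open Finset

/-- data at one scale -/
structure Lvl (K : ℝ) (V : ℤ → ℝ) (L R : ℕ) (ϑ σ : ℝ) (p : ℤ → ℤ) : Prop where
  hL : 1 ≤ L
  hϑ : 0 ≤ ϑ
  hσ : 0 < σ
  cuts : Cuts L p
  sep : SepP V p R σ
  bar : BarP K V L ϑ

/-- normalized eigenfunction of a box -/
structure EF (V : ℤ → ℝ) (α β : ℤ) (E : ℝ) (φ : ℤ → ℝ) : Prop where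
  out : ∀ n, n ∉ Icc α β → φ n = 0
  sol : ∀ n ∈ Icc α β, Sol V E φ n
  nrm : ∑ n ∈ Icc α β, φ n ^ 2 = 1

lemma EF.le_one {V : ℤ → ℝ} {α β : ℤ} {E : ℝ} {φ : ℤ → ℝ} (h : EF V α β E φ) (n : ℤ) :
    |φ n| ≤ 1 := by
  by_cases hn : n ∈ Icc α β
  · have h1 := Finset.single_le_sum (f := fun n => φ n ^ 2) (fun m _ => sq_nonneg _) hn
    rw [h.nrm] at h1
    exact abs_le_one_iff_mul_self_le_one.mpr (by simpa [sq] using h1)
  · rw [h.out n hn, abs_zero]; exact zero_le_one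

lemma EF.eig {V : ℤ → ℝ} {α β : ℤ} {E : ℝ} {φ : ℤ → ℝ} (h : EF V α β E φ) : Eig V α β E := by
  refine ⟨φ, h.out, ?_, h.sol⟩
  by_contra hc
  push Not at hc
  have := h.nrm
  simp [hc] at this

/-- localization -/
theorem loc {K : ℝ} {V : ℤ → ℝ} {L R : ℕ} {ϑ σ κ : ℝ} {p : ℤ → ℤ} (h : Lvl K V L R ϑ σ p)
    (hκ : 8 * ϑ / σ ≤ κ) {α β : ℤ} {E : ℝ} {φ : ℤ → ℝ} (hφ : EF V α β E φ) (hE : |E| ≤ K)
    (hlen : α - 1 + 2 * L ≤ β) (hlen' : β - α < L * R)
    (hsmall : ((β + 1 - α : ℤ) : ℝ) * κ ^ 2 < 1) :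
    ∃ j : ℤ, (α ≤ p (j + 1) ∧ p (j + 1) ≤ β) ∧ (∃ m m' lam, p j ≤ m ∧ m < p (j + 1) ∧ p (j + 1) ≤ m' ∧ m' < p (j + 2) ∧
      Eig V (m + 1) m' lam ∧ |lam - E| < σ / 4) ∧
      ∀ (s : ℕ) (n : ℤ), 8 * L * s ≤ |n - p (j + 1)| → |φ n| ≤ κ ^ s := by
  have hL := h.hL
  have hp := h.cuts
  have hσ := h.hσ
  have hϑ := h.hϑ
  have hκ0 : 0 ≤ κ := le_trans (by positivity) hκ
  have hL' : (1:ℤ) ≤ L := by exact_mod_cast hL
  obtain ⟨j₀, ha1, ha2⟩ := hp.floor hL (α - 1)
  obtain ⟨j₁, hb1, hb2⟩ := hp.floor hL β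
  have h01 : j₀ + 1 ≤ j₁ := by
    by_contra hc
    have h1 := hp.le (show j₁ + 1 ≤ j₀ + 1 by omega)
    have h2 := hp.hi j₀
    omega
  have h1R : j₁ ≤ j₀ + R := by
    obtain ⟨k, hk⟩ : ∃ k : ℕ, j₁ = j₀ + 1 + k := ⟨(j₁ - (j₀ + 1)).toNat, by omega⟩
    have h1 := hp.mono (j₀ + 1) k
    rw [← hk] at h1
    have h2 : (L:ℤ) * k < L * R := by linarith
    have h3 : (k:ℤ) < R := lt_of_mul_lt_mul_left h2 (by omega)
    omega
  choose m hm1 hm2 hm3 using fun j => h.bar E hE (p j)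
  obtain ⟨M, hM⟩ : ∃ M : ℤ → ℤ, M = fun j => if j ≤ j₀ then α - 1 else if j₁ ≤ j then β else m j :=
    ⟨_, rfl⟩
  have hM0 : ∀ j, j ≤ j₀ → M j = α - 1 := fun j hj => by rw [hM]; simp only [if_pos hj]
  have hM1 : ∀ j, j₁ ≤ j → M j = β := fun j hj => by
    rw [hM]; simp only [if_neg (show ¬ j ≤ j₀ by omega), if_pos hj]
  have hMm : ∀ j, j₀ < j → j < j₁ → M j = m j := fun j h1 h2 => by
    rw [hM]; simp only [if_neg (show ¬ j ≤ j₀ by omega), if_neg (show ¬ j₁ ≤ j by omega)]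
  have hMi : ∀ j, j₀ < j → j < j₁ → p j ≤ M j ∧ M j + 2 ≤ p (j + 1) := fun j h1 h2 => by
    rw [hMm j h1 h2]
    exact ⟨hm1 j, (hm2 j).trans (hp.lo j)⟩
  have hMlo : ∀ j, j₀ ≤ j → j ≤ j₁ → p j ≤ M j := by
    intro j h1 h2
    rcases eq_or_lt_of_le h1 with h3 | h3
    · rw [← h3, hM0 _ le_rfl]; exact ha1
    · rcases eq_or_lt_of_le h2 with h4 | h4
      · rw [h4, hM1 _ le_rfl]; exact hb1
      · exact (hMi j h3 h4).1
  have hMhi : ∀ j, j₀ ≤ j → j ≤ j₁ → M j < p (j + 1) := by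
    intro j h1 h2
    rcases eq_or_lt_of_le h1 with h3 | h3
    · rw [← h3, hM0 _ le_rfl]; exact ha2
    · rcases eq_or_lt_of_le h2 with h4 | h4
      · rw [h4, hM1 _ le_rfl]; exact hb2
      · have := (hMi j h3 h4).2; omega
  have hMrange : ∀ j, α - 1 ≤ M j ∧ M j ≤ β := by
    intro j
    by_cases h1 : j ≤ j₀
    · rw [hM0 j h1]; omega
    · by_cases h2 : j₁ ≤ j
      · rw [hM1 j h2]; omega
      · have h3 := hMi j (by omega) (by omega)
        have h4 := hp.le (show j₀ + 1 ≤ j by omega)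
        have h5 := hp.le (show j + 1 ≤ j₁ by omega)
        omega
  have hMmono : ∀ i j, i ≤ j → M i ≤ M j := by
    intro i j hij
    rcases eq_or_lt_of_le hij with h1 | h1
    · rw [h1]
    · by_cases h2 : i ≤ j₀
      · rw [hM0 i h2]; exact (hMrange j).1
      · by_cases h3 : j₁ ≤ j
        · rw [hM1 j h3]; exact (hMrange i).2
        · have h4 := hMhi i (by omega) (by omega)
          have h5 := hMlo j (by omega) (by omega)
          have h6 := hp.le (show i + 1 ≤ j by omega)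
          omega
  have hlt : ∀ i j, M i < M j → i < j := by
    intro i j hij
    by_contra hc
    push Not at hc
    have := hMmono j i hc
    omega
  -- the window of a site
  have hfl : ∀ n, α ≤ n → n ≤ β → ∃ j, j₀ ≤ j ∧ j < j₁ ∧ M j < n ∧ n ≤ M (j + 1) := by
    intro n hn1 hn2
    obtain ⟨j, hj1, hj2⟩ := Int.exists_greatest_of_bdd (P := fun j => M j < n)
      ⟨j₁, fun z hz => by
        by_contra hc
        push Not at hc
        rw [hM1 z hc.le] at hz
        omega⟩ ⟨j₀, by rw [hM0 _ le_rfl]; omega⟩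
    refine ⟨j, hj2 j₀ (by rw [hM0 _ le_rfl]; omega), ?_, hj1, ?_⟩
    · by_contra hc
      push Not at hc
      rw [hM1 j hc] at hj1
      omega
    · by_contra hc
      push Not at hc
      have := hj2 (j + 1) hc
      omega
  -- barriers
  have hbl : ∀ j, j₀ < j → j < j₁ → ∀ B : ℝ, (∀ n, p j - 1 ≤ n → n ≤ p j + L → |φ n| ≤ B) →
      |φ (M j)| ≤ ϑ * B ∧ |φ (M j + 1)| ≤ ϑ * B := by
    intro j h1 h2 B hB
    rw [hMm j h1 h2]
    refine hm3 j φ (fun n h3 h4 => ?_) B hB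
    apply hφ.sol
    rw [mem_Icc]
    have h5 := hp.le (show j₀ + 1 ≤ j by omega)
    have h6 := hp.le (show j + 1 ≤ j₁ by omega)
    have h7 := hp.lo j
    omega
  -- one step
  have hstep : ∀ j, j₀ ≤ j → j < j₁ → NR V E σ (M j) (M (j + 1)) → ∀ B : ℝ, 0 ≤ B →
      (j₀ < j → ∀ n, p j - 1 ≤ n → n ≤ p j + L → |φ n| ≤ B) →
      (j + 1 < j₁ → ∀ n, p (j + 1) - 1 ≤ n → n ≤ p (j + 1) + L → |φ n| ≤ B) →
      ∀ n, M j < n → n ≤ M (j + 1) → |φ n| ≤ κ * B := by
    intro j h1 h2 h3 B hB hB1 hB2 n h4 h5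
    have hz : (0:ℝ) ≤ ϑ * B := by positivity
    have h6 : |φ (M j)| ≤ ϑ * B := by
      rcases eq_or_lt_of_le h1 with h7 | h7
      · rw [← h7, hM0 _ le_rfl, hφ.out _ (by rw [mem_Icc]; omega), abs_zero]; exact hz
      · exact (hbl j h7 h2 B (hB1 h7)).1
    have h8 : |φ (M (j + 1) + 1)| ≤ ϑ * B := by
      by_cases h7 : j + 1 < j₁
      · exact (hbl (j + 1) (by omega) h7 B (hB2 h7)).2
      · rw [hM1 _ (by omega), hφ.out _ (by rw [mem_Icc]; omega), abs_zero]; exact hz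
    refine (h3.bound hσ (u := φ) (fun k h9 h10 => hφ.sol k ?_) h6 h8 h4 h5).trans
      (mul_le_mul_of_nonneg_right hκ hB)
    have := hMrange j
    have := hMrange (j + 1)
    rw [mem_Icc]; omega
  -- existence of a resonance
  have hres : ∃ j, (j₀ ≤ j ∧ j < j₁) ∧ ¬ NR V E σ (M j) (M (j + 1)) := by
    by_contra hc
    push Not at hc
    have h1 : ∀ n ∈ Icc α β, φ n ^ 2 ≤ κ ^ 2 := by
      intro n hn
      rw [mem_Icc] at hn
      obtain ⟨j, hj1, hj2, hj3, hj4⟩ := hfl n hn.1 hn.2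
      have h2 := hstep j hj1 hj2 (hc j ⟨hj1, hj2⟩) 1 zero_le_one (fun _ k _ _ => hφ.le_one k)
        (fun _ k _ _ => hφ.le_one k) n hj3 hj4
      rw [mul_one] at h2
      rw [← sq_abs]
      exact pow_le_pow_left₀ (abs_nonneg _) h2 2
    have h2 := Finset.sum_le_sum h1
    rw [hφ.nrm, Finset.sum_const, Int.card_Icc, nsmul_eq_mul] at h2
    have h3 : (((β + 1 - α).toNat : ℕ) : ℝ) = ((β + 1 - α : ℤ) : ℝ) := by
      have : (((β + 1 - α).toNat : ℕ) : ℤ) = β + 1 - α := Int.toNat_of_nonneg (by omega)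
      exact_mod_cast this
    rw [h3] at h2
    linarith
  obtain ⟨j, ⟨⟨hj0, hj1⟩, hjres⟩, hjmin⟩ := Int.exists_least_of_bdd
    (P := fun j => (j₀ ≤ j ∧ j < j₁) ∧ ¬ NR V E σ (M j) (M (j + 1)))
    ⟨j₀, fun z hz => hz.1.1⟩ hres
  have hNRl : ∀ i, j₀ ≤ i → i < j → NR V E σ (M i) (M (i + 1)) := by
    intro i h1 h2
    by_contra hc
    have := hjmin i ⟨⟨h1, by omega⟩, hc⟩
    omega
  have e2 : ∀ i : ℤ, i + 1 + 1 = i + 2 := fun i => by ring
  have hNRr : ∀ i, j + 2 ≤ i → i < j₁ → NR V E σ (M i) (M (i + 1)) := by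
    intro i h1 h2
    have q1 := hMhi (j + 1) (by omega) (by omega)
    have q2 := hMhi (i + 1) (by omega) (by omega)
    rw [e2] at q1 q2
    rcases h.sep.nr hσ E h1 (by omega) (hMlo j hj0 (by omega)) (hMhi j hj0 (by omega))
      (hMlo (j + 1) (by omega) (by omega)) q1 (hMlo i (by omega) (by omega))
      (hMhi i (by omega) (by omega)) (hMlo (i + 1) (by omega) (by omega)) q2 with h3 | h3
    · exact absurd h3 hjres
    · exact h3
  have hleft : ∀ s : ℕ, ∀ n, n ≤ M (j + 1 - s) → |φ n| ≤ κ ^ s := by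
    intro s
    induction s with
    | zero => intro n _; rw [pow_zero]; exact hφ.le_one n
    | succ s ih =>
      intro n hn
      push_cast at hn
      by_cases hn1 : α ≤ n
      swap
      · rw [hφ.out n (by rw [mem_Icc]; omega), abs_zero]; positivity
      have hn2 : n ≤ β := hn.trans (hMrange _).2
      obtain ⟨i, hi0, hi1, hi2, hi3⟩ := hfl n hn1 hn2
      have hi4 : i < j + 1 - (s + 1) := hlt _ _ (lt_of_lt_of_le hi2 hn)
      rw [pow_succ']
      apply hstep i hi0 hi1 (hNRl i hi0 (by omega)) (κ ^ s) (by positivity) _ _ n hi2 hi3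
      · intro _ k _ hk2
        apply ih
        have q1 := hp.lo i
        have q2 := hMlo (i + 1) (by omega) (by omega)
        have q3 := hMmono (i + 1) (j + 1 - s) (by omega)
        omega
      · intro hi5 k _ hk2
        apply ih
        have q1 := hp.lo (i + 1)
        rw [e2] at q1
        have q2 := hMlo (i + 2) (by omega) (by omega)
        have q3 := hMmono (i + 2) (j + 1 - s) (by omega)
        omega
  have hright : ∀ s : ℕ, ∀ n, M (j + 1 + s) < n → |φ n| ≤ κ ^ s := by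
    intro s
    induction s with
    | zero => intro n _; rw [pow_zero]; exact hφ.le_one n
    | succ s ih =>
      intro n hn
      push_cast at hn
      by_cases hn1 : n ≤ β
      swap
      · rw [hφ.out n (by rw [mem_Icc]; omega), abs_zero]; positivity
      have hn2 : α ≤ n := by have := (hMrange (j + 1 + (s + 1))).1; omega
      obtain ⟨i, hi0, hi1, hi2, hi3⟩ := hfl n hn2 hn1
      have hi4 : j + 1 + (s + 1) < i + 1 := hlt _ _ (lt_of_lt_of_le hn hi3)
      rw [pow_succ']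
      have hkey : ∀ k, p i - 1 ≤ k → M (j + 1 + s) < k := by
        intro k hk
        have q1 := (hMi (i - 1) (by omega) (by omega)).2
        rw [sub_add_cancel] at q1
        have q2 := hMmono (j + 1 + s) (i - 1) (by omega)
        omega
      apply hstep i hi0 hi1 (hNRr i (by omega) hi1) (κ ^ s) (by positivity) _ _ n hi2 hi3
      · intro _ k hk1 _
        exact ih k (hkey k hk1)
      · intro _ k hk1 _
        have := hp.le (show i ≤ i + 1 by omega)
        exact ih k (hkey k (by omega))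
  refine ⟨j, ?_, ?_, ?_⟩
  · have q1 := hp.le (show j₀ + 1 ≤ j + 1 by omega)
    have q2 := hp.le (show j + 1 ≤ j₁ by omega)
    omega
  · unfold NR at hjres
    push Not at hjres
    obtain ⟨μ, h1, h2⟩ := hjres
    have q1 := hMhi (j + 1) (by omega) (by omega)
    rw [e2] at q1
    exact ⟨M j, M (j + 1), μ, hMlo j hj0 (by omega), hMhi j hj0 (by omega),
      hMlo (j + 1) (by omega) (by omega), q1, h1, h2⟩
  · intro s n hn
    rcases Nat.eq_zero_or_pos s with hs | hs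
    · rw [hs, pow_zero]; exact hφ.le_one n
    have hs' : (1:ℤ) ≤ s := by exact_mod_cast hs
    have hLs : (L:ℤ) ≤ L * s := by nlinarith
    rcases le_total n (p (j + 1)) with h1 | h1
    · rw [abs_of_nonpos (by omega)] at hn
      apply hleft
      have q1 := hp.mono' (j + 1 - s) s
      rw [sub_add_cancel] at q1
      have q3 : 8 * (L:ℤ) * s = 8 * (L * s) := by ring
      have q4 : 2 * (L:ℤ) * s = 2 * (L * s) := by ring
      rw [q3] at hn
      rw [q4] at q1
      by_cases h2 : j₀ ≤ j + 1 - s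
      · have q2 := hMlo (j + 1 - s) h2 (by omega)
        omega
      · rw [hM0 _ (by omega)]
        have q2 := hp.le (show j + 1 - s ≤ j₀ by omega)
        omega
    · rw [abs_of_nonneg (by omega)] at hn
      apply hright
      have q3 : 8 * (L:ℤ) * s = 8 * (L * s) := by ring
      rw [q3] at hn
      by_cases h2 : j + 1 + s ≤ j₁
      · have q1 := hp.mono' (j + 1) (s + 1)
        have q2 := hMhi (j + 1 + s) (by omega) h2
        have e3 : j + 1 + ((s + 1 : ℕ) : ℤ) = j + 1 + s + 1 := by push_cast; ring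
        rw [e3] at q1
        have q4 : 2 * (L:ℤ) * ((s + 1 : ℕ) : ℤ) = 2 * (L * s) + 2 * L := by push_cast; ring
        rw [q4] at q1
        omega
      · rw [hM1 _ (by omega)]
        have q1 := hp.mono' (j + 1) s
        have q2 := hp.le (show j₁ + 1 ≤ j + 1 + s by omega)
        have q4 : 2 * (L:ℤ) * s = 2 * (L * s) := by ring
        rw [q4] at q1
        omega

end Pool.Agent.K9h34.LP
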