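import Pool.Agent.K9h34.LP.Sep2
import Pool.Agent.K9h34.LP.Bar

/-!
# One level of the construction
-/

set_option autoImplicit false

namespace Pool.Agent.K9h34.LP

lemma inv_pow_le {Y : ℝ} (hY : 1 ≤ Y) {a b : ℕ} (h : a ≤ b) : (Y ^ b)⁻¹ ≤ (Y ^ a)⁻¹ :=
  inv_anti₀ (by positivity) (pow_le_pow_right₀ hY h)

theorem lvl_step {K : ℝ} {v : ℤ → ℝ} {L X N : ℕ} (hL : 1 ≤ L) (hLX : L ≤ X) (hX : 2 ^ 31 ≤ X)
    (hper : ∀ x, v (x + N) = v x) (hN : (2 ^ 12 * X ^ 3 + 4) * (2 * L) ≤ N)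
    (hb : Bar K v L (((X : ℝ) ^ 40)⁻¹) ((X : ℝ)⁻¹)) :
    ∃ v' : ℤ → ℝ, (∀ n, 0 ≤ v' n - v n ∧ v' n - v n ≤ (X:ℝ)⁻¹ / 2) ∧ (∀ x, v' (x + N) = v' x) ∧
      (∃ p, Cuts L p ∧ SepP v' p (2 ^ 12 * X ^ 3) (3 * ((X:ℝ) ^ 12)⁻¹)) ∧
      Bar K v' (8 * L * (X ^ 2 + 3)) ((((X ^ 12 : ℕ) : ℝ) ^ 40)⁻¹) (((X ^ 12 : ℕ) : ℝ)⁻¹) := by
  obtain ⟨Y, hY⟩ : ∃ Y : ℝ, Y = X := ⟨_, rfl⟩
  have hY31 : (2:ℝ) ^ 31 ≤ Y := by rw [hY]; exact_mod_cast hX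
  have hY1 : 1 ≤ Y := by linarith [show (1:ℝ) ≤ 2 ^ 31 by norm_num]
  have hY0 : 0 < Y := by linarith
  have hLY : (L:ℝ) ≤ Y := by rw [hY]; exact_mod_cast hLX
  have hL0 : (0:ℝ) < L := by exact_mod_cast hL
  have hX1 : 1 ≤ X := le_trans (by norm_num) hX
  have hR1 : 1 ≤ 2 ^ 12 * X ^ 3 := Nat.one_le_iff_ne_zero.mpr (by positivity)
  obtain ⟨t, p, ht, htp, hc, hs⟩ := sep_exists hL hR1 hper hN (ρ := (X:ℝ)⁻¹) (by
    rw [← hY]; positivity)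
  have hδ : 3 * ((X:ℝ) ^ 12)⁻¹ + 2 * 0 ≤ (X:ℝ)⁻¹ / (2 ^ 17 * L ^ 6 * ((2 ^ 12 * X ^ 3 : ℕ) : ℝ)) := by
    rw [mul_zero, add_zero, le_div_iff₀ (by positivity)]
    push_cast
    rw [← hY]
    have h1 : (L:ℝ) ^ 6 ≤ Y ^ 6 := pow_le_pow_left₀ hL0.le hLY 6
    have h2 : 3 * (Y ^ 12)⁻¹ * (2 ^ 17 * L ^ 6 * (2 ^ 12 * Y ^ 3)) ≤
        3 * (Y ^ 12)⁻¹ * (2 ^ 17 * Y ^ 6 * (2 ^ 12 * Y ^ 3)) := by
      apply mul_le_mul_of_nonneg_left _ (by positivity)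
      apply mul_le_mul_of_nonneg_right _ (by positivity)
      apply mul_le_mul_of_nonneg_left h1 (by positivity)
    have h3 : 3 * (Y ^ 12)⁻¹ * (2 ^ 17 * Y ^ 6 * (2 ^ 12 * Y ^ 3)) = 3 * 2 ^ 29 * (Y ^ 3)⁻¹ := by
      field_simp
    have h5 : 3 * (Y ^ 12)⁻¹ * (2 ^ 17 * Y ^ 6 * (2 ^ 12 * Y ^ 3)) ≤ Y⁻¹ := by
      rw [h3, ← div_eq_mul_inv, div_le_iff₀ (by positivity)]
      have h4 : Y⁻¹ * Y ^ 3 = Y ^ 2 := by field_simp
      rw [h4]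
      nlinarith
    norm_num at h2 h5 ⊢
    exact h2.trans h5
  have hs' : SepP (fun x => v x + t x) p (2 ^ 12 * X ^ 3) (3 * ((X:ℝ) ^ 12)⁻¹) :=
    hs.pert le_rfl (fun n => by simp) hδ
  refine ⟨fun x => v x + t x, fun n => ?_, fun x => ?_, ⟨p, hc, hs'⟩, ?_⟩
  · have := ht n
    simpa using this
  · show v (x + N) + t (x + N) = v x + t x
    rw [hper, htp]
  · intro V hV
    have hV' : ∀ n, |V n - (v n + t n)| ≤ (Y ^ 12)⁻¹ := by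
      intro n
      have := hV n
      push_cast at this
      rw [← hY] at this; exact this
    have hsmall : (Y ^ 12)⁻¹ ≤ Y⁻¹ / 2 := by
      rw [← one_div, ← one_div, div_div, div_le_div_iff_of_pos_left one_pos (by positivity) (by positivity)]
      have : Y ^ 12 = Y * Y ^ 11 := by ring
      rw [this]
      have h2 : (2:ℝ) ≤ Y ^ 11 := by
        calc (2:ℝ) ≤ Y := by linarith [show (2:ℝ) ≤ 2 ^ 31 by norm_num]
          _ ≤ Y ^ 11 := le_self_pow₀ hY1 (by norm_num)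
      exact mul_le_mul_of_nonneg_left h2 hY0.le
    have hbP : BarP K V L ((Y ^ 40)⁻¹) := by
      rw [← hY] at hb
      apply hb
      intro n
      have h1 := hV' n
      have h2 := ht n
      rw [← hY] at h2
      rw [abs_le] at h1 ⊢
      constructor <;> linarith
    have hsP : SepP V p (2 ^ 12 * X ^ 3) ((Y ^ 12)⁻¹) := by
      rw [← hY] at hs'
      exact hs'.pert (η := (Y ^ 12)⁻¹) (by positivity) hV' (by linarith)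
    have hκ : 8 * (Y ^ 40)⁻¹ / (Y ^ 12)⁻¹ ≤ (Y ^ 27)⁻¹ := by
      have e : 8 * (Y ^ 40)⁻¹ / (Y ^ 12)⁻¹ = 8 * (Y ^ 28)⁻¹ := by field_simp
      rw [e, ← div_eq_mul_inv, ← one_div, div_le_div_iff₀ (by positivity) (by positivity), one_mul]
      have : Y ^ 28 = Y * Y ^ 27 := by ring
      rw [this]
      apply mul_le_mul_of_nonneg_right _ (by positivity)
      linarith [show (8:ℝ) ≤ 2 ^ 31 by norm_num]
    have hκ1 : (Y ^ 27)⁻¹ ≤ 1 := inv_le_one_of_one_le₀ (one_le_pow₀ hY1)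
    have h1 := bar_step hL hc hsP (by positivity) (by positivity) hbP (hκ.trans hκ1)
      (r := X ^ 2) (by
        have h2 : X ^ 3 = X * X ^ 2 := by ring
        rw [h2]
        have h3 : 1 ≤ X ^ 2 := Nat.one_le_pow _ _ hX1
        nlinarith)
    apply h1.mono
    refine (pow_le_pow_left₀ (by positivity) hκ _).trans ?_
    push_cast
    rw [← hY, inv_pow, ← pow_mul, ← pow_mul]
    apply inv_pow_le hY1
    have h3 : 2 ^ 31 * 2 ^ 31 ≤ X ^ 2 := by rw [sq]; exact Nat.mul_le_mul hX hX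
    omega

end Pool.Agent.K9h34.LP
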