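import Pool.Agent.K9h34.LP.Lim
import Pool.Agent.K9h34.LP.Rec

/-!
# The numbers
-/

set_option autoImplicit false

namespace Pool.Agent.K9h34.LP

open Finset

section nums

variable {K : ℝ} {X L : ℕ}

/-- natural number inequalities of one step -/
lemma nat_facts (hL : 1 ≤ L) (hX : 2 ^ 31 ≤ X) :
    2 * (2 ^ 10 * X ^ 3 * L) ≤ 2 ^ 10 * (X ^ 12) ^ 3 * (8 * L * (X ^ 2 + 3)) ∧
    2 * L ≤ 2 * (2 ^ 10 * X ^ 3 * L) ∧ 2 * (2 ^ 10 * X ^ 3 * L) < L * (2 ^ 12 * X ^ 3) ∧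
    16 * L * (64 * X ^ 3) ≤ 2 ^ 10 * X ^ 3 * L ∧
    32 * (8 * L * (X ^ 2 + 3)) * (3 * X) ≤ 2 ^ 10 * X ^ 3 * L ∧
    64 * (8 * L * (X ^ 2 + 3)) ≤ 2 ^ 10 * X ^ 3 * L ∧ 128 * L ≤ 2 ^ 10 * X ^ 3 * L ∧
    16 * L ≤ 2 ^ 10 * X ^ 3 * L := by
  have hX1 : 1 ≤ X := le_trans (by norm_num) hX
  have hX10 : 10 ≤ X := le_trans (by norm_num) hX
  have hX3 : 1 ≤ X ^ 3 := Nat.one_le_pow _ _ hX1
  have h36 : X ^ 3 ≤ (X ^ 12) ^ 3 := by
    rw [← pow_mul]; exact Nat.pow_le_pow_right hX1 (by norm_num)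
  have hXL : L ≤ X ^ 3 * L := Nat.le_mul_of_pos_left _ (by positivity)
  refine ⟨?_, ?_, ?_, ?_, ?_, ?_, ?_, ?_⟩
  · calc 2 * (2 ^ 10 * X ^ 3 * L) = 2 ^ 10 * X ^ 3 * (2 * L) := by ring
      _ ≤ 2 ^ 10 * (X ^ 12) ^ 3 * (8 * L * (X ^ 2 + 3)) := by
          apply Nat.mul_le_mul (Nat.mul_le_mul_left _ h36)
          nlinarith [Nat.zero_le (L * X ^ 2)]
  · nlinarith
  · have : 1 ≤ L * X ^ 3 := Nat.one_le_iff_ne_zero.mpr (by positivity)
    nlinarith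
  · nlinarith
  · have h1 : 9 * (L * X) ≤ L * X ^ 3 := by
      have e : L * X ^ 3 = X ^ 2 * (L * X) := by ring
      rw [e]
      exact Nat.mul_le_mul_right _ (by nlinarith)
    nlinarith
  · have h1 : 3 * L ≤ L * X ^ 3 := by
      have e : L * X ^ 3 = X ^ 3 * L := by ring
      rw [e]
      apply Nat.mul_le_mul_right
      calc 3 ≤ X := by omega
        _ ≤ X ^ 3 := Nat.le_self_pow (by norm_num) X
    have h2 : 10 * (L * X ^ 2) ≤ L * X ^ 3 := by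
      have e : L * X ^ 3 = X * (L * X ^ 2) := by ring
      rw [e]
      exact Nat.mul_le_mul_right _ hX10
    nlinarith
  · nlinarith
  · nlinarith

lemma A_le {Y : ℝ} (hY : Y = X) (hLX : L ≤ X) (hX : 2 ^ 31 ≤ X) :
    2 * ((2 ^ 10 * X ^ 3 * L : ℕ) : ℝ) + 1 ≤ Y ^ 5 := by
  have hY31 : (2:ℝ) ^ 31 ≤ Y := by rw [hY]; exact_mod_cast hX
  have hLY : (L:ℝ) ≤ Y := by rw [hY]; exact_mod_cast hLX
  push_cast
  rw [← hY]
  have hY1 : (1:ℝ) ≤ Y := le_trans (by norm_num) hY31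
  have h1 : Y ^ 3 * L ≤ Y ^ 4 := by
    have : Y ^ 4 = Y ^ 3 * Y := by ring
    rw [this]
    exact mul_le_mul_of_nonneg_left hLY (by positivity)
  have h2 : (1:ℝ) ≤ Y ^ 4 := one_le_pow₀ hY1
  have h3 : Y ^ 5 = Y * Y ^ 4 := by ring
  have h4 : (2:ℝ) ^ 31 * Y ^ 4 ≤ Y * Y ^ 4 := mul_le_mul_of_nonneg_right hY31 (by positivity)
  rw [h3]
  nlinarith

end nums

theorem final {K : ℝ} {W : ℤ → ℝ} (hW : ∀ n, |W n| + 2 ≤ K) {X L : ℕ → ℕ} {v : ℕ → ℤ → ℝ}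
    {s : ℕ → ℤ} (hX : ∀ k, X (k + 1) = X k ^ 12) (hL : ∀ k, L (k + 1) = 8 * L k * (X k ^ 2 + 3))
    (hL1 : ∀ k, 1 ≤ L k) (hLX : ∀ k, L k ≤ X k) (hX0 : 2 ^ 31 ≤ X 0) (hXK : 2 * K + 2 ≤ X 0)
    (hbar : ∀ k, Bar K (v k) (L k) (((X k : ℝ) ^ 40)⁻¹) ((X k : ℝ)⁻¹))
    (hsep : ∀ k, ∃ p, Cuts (L k) p ∧ SepP (v (k + 1)) p (2 ^ 12 * X k ^ 3) (3 * ((X k : ℝ) ^ 12)⁻¹))
    (hclose : ∀ k n, |W n - v k (n + s k)| ≤ (X k : ℝ)⁻¹) :
    (Submodule.span ℂ (PP W)).topologicalClosure = ⊤ := by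
  have hX31 : ∀ k, 2 ^ 31 ≤ X k := by
    intro k
    induction k with
    | zero => exact hX0
    | succ k ih =>
      rw [hX]
      exact ih.trans (Nat.le_self_pow (by norm_num) _)
  have hX2 : ∀ k, 2 ^ k ≤ X k := by
    intro k
    induction k with
    | zero => exact le_trans (by norm_num) hX0
    | succ k ih =>
      have h2 : 2 ≤ X k := le_trans (by norm_num) (hX31 k)
      rw [hX, pow_succ]
      calc 2 ^ k * 2 ≤ X k * X k := Nat.mul_le_mul ih h2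
        _ = X k ^ 2 := (sq _).symm
        _ ≤ X k ^ 12 := Nat.pow_le_pow_right (by omega) (by norm_num)
  have hXK' : ∀ k, 2 * K + 2 ≤ X k := by
    intro k
    induction k with
    | zero => exact hXK
    | succ k ih =>
      refine ih.trans ?_
      rw [hX]
      exact_mod_cast Nat.le_self_pow (by norm_num) _
  have hK0 : 0 ≤ K := by have := hW 0; have := abs_nonneg (W 0); linarith
  choose p hp1 hp2 using hsep
  have hlvl : ∀ k, Lvl K W (L k) (2 ^ 12 * X k ^ 3) (((X k : ℝ) ^ 40)⁻¹) (((X k : ℝ) ^ 12)⁻¹)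
      (fun i => p k i - s (k + 1)) := by
    intro k
    have hY0 : (0:ℝ) < X k := by
      have : 0 < X k := lt_of_lt_of_le (by norm_num) (hX31 k)
      exact_mod_cast this
    refine ⟨hL1 k, by positivity, by positivity, (hp1 k).shift _, ?_, (hbar k).shift (s k) W (hclose k)⟩
    apply ((hp2 k).shift (s (k + 1))).pert (η := ((X k : ℝ) ^ 12)⁻¹) (by positivity)
    · intro n
      have := hclose (k + 1) n
      rw [hX] at this
      push_cast at this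
      exact this
    · linarith
  have hκ : ∀ k, 8 * (((X k : ℝ) ^ 40)⁻¹) / (((X k : ℝ) ^ 12)⁻¹) ≤ ((X k : ℝ) ^ 27)⁻¹ := by
    intro k
    obtain ⟨Y, hY⟩ : ∃ Y : ℝ, Y = X k := ⟨_, rfl⟩
    have hY31 : (2:ℝ) ^ 31 ≤ Y := by rw [hY]; exact_mod_cast hX31 k
    have hY0 : 0 < Y := lt_of_lt_of_le (by norm_num) hY31
    rw [← hY]
    have e : 8 * (Y ^ 40)⁻¹ / (Y ^ 12)⁻¹ = 8 * (Y ^ 28)⁻¹ := by field_simp
    rw [e, ← div_eq_mul_inv, ← one_div, div_le_div_iff₀ (by positivity) (by positivity), one_mul]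
    have : Y ^ 28 = Y * Y ^ 27 := by ring
    rw [this]
    apply mul_le_mul_of_nonneg_right _ (by positivity)
    linarith [show (8:ℝ) ≤ 2 ^ 31 by norm_num]
  -- smallness of the box times the decay
  have hb3 : ∀ k, (2 * ((2 ^ 10 * X k ^ 3 * L k : ℕ) : ℝ) + 1) * (((X k : ℝ) ^ 27)⁻¹) ^ 2 ≤ 1 / 100 := by
    intro k
    obtain ⟨Y, hY⟩ : ∃ Y : ℝ, Y = X k := ⟨_, rfl⟩
    have hY31 : (2:ℝ) ^ 31 ≤ Y := by rw [hY]; exact_mod_cast hX31 k
    have hY0 : 0 < Y := lt_of_lt_of_le (by norm_num) hY31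
    have hY1 : 1 ≤ Y := le_trans (by norm_num) hY31
    have h1 := A_le hY (hLX k) (hX31 k)
    rw [← hY]
    calc _ ≤ Y ^ 5 * ((Y ^ 27)⁻¹) ^ 2 := mul_le_mul_of_nonneg_right h1 (by positivity)
      _ = (Y ^ 49)⁻¹ := by field_simp
      _ ≤ (Y ^ 1)⁻¹ := inv_pow_le hY1 (by norm_num)
      _ ≤ 1 / 100 := by
          rw [pow_one, ← one_div, div_le_div_iff_of_pos_left one_pos hY0 (by norm_num)]
          linarith [show (100:ℝ) ≤ 2 ^ 31 by norm_num]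
  apply complete (A := fun k => 2 ^ 10 * X k ^ 3 * L k) (L := L) (κ := fun k => ((X k : ℝ) ^ 27)⁻¹)
  · intro k
    have h := (nat_facts (hL1 k) (hX31 k)).1
    show 2 ^ 10 * X k ^ 3 * L k ≤ 2 ^ 10 * X (k + 1) ^ 3 * L (k + 1)
    rw [hX, hL]
    omega
  · intro k
    show k ≤ 2 ^ 10 * X k ^ 3 * L k
    have h1 : k ≤ X k := (Nat.lt_two_pow_self.le).trans (hX2 k)
    have h2 : X k ≤ X k ^ 3 := Nat.le_self_pow (by norm_num) _
    have h3 := hL1 k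
    calc k ≤ X k ^ 3 := h1.trans h2
      _ = 1 * X k ^ 3 * 1 := by ring
      _ ≤ 2 ^ 10 * X k ^ 3 * L k := by gcongr; norm_num
  · intro k
    exact (nat_facts (hL1 k) (hX31 k)).2.2.2.2.2.2.2
  · intro k
    show (0:ℝ) ≤ ((X k : ℝ) ^ 27)⁻¹
    positivity
  · intro k
    show ((X k : ℝ) ^ 27)⁻¹ ≤ (1 / 2) ^ k / (2 * ((2 ^ 10 * X k ^ 3 * L k : ℕ) : ℝ) + 1)
    obtain ⟨Y, hY⟩ : ∃ Y : ℝ, Y = X k := ⟨_, rfl⟩
    have hY31 : (2:ℝ) ^ 31 ≤ Y := by rw [hY]; exact_mod_cast hX31 k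
    have hY0 : 0 < Y := lt_of_lt_of_le (by norm_num) hY31
    have hY1 : 1 ≤ Y := le_trans (by norm_num) hY31
    have h1 := A_le hY (hLX k) (hX31 k)
    have h2 : (2:ℝ) ^ k ≤ Y := by rw [hY]; exact_mod_cast hX2 k
    rw [← hY, le_div_iff₀ (by positivity)]
    calc (Y ^ 27)⁻¹ * (2 * ((2 ^ 10 * X k ^ 3 * L k : ℕ) : ℝ) + 1) ≤ (Y ^ 27)⁻¹ * Y ^ 5 :=
          mul_le_mul_of_nonneg_left h1 (by positivity)
      _ = (Y ^ 22)⁻¹ := by field_simp
      _ ≤ (Y ^ 1)⁻¹ := inv_pow_le hY1 (by norm_num)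
      _ ≤ (1 / 2) ^ k := by
          rw [pow_one, one_div, inv_pow]
          exact inv_anti₀ (by positivity) h2
  · intro k x E φ hφ
    have hnf := nat_facts (hL1 k) (hX31 k)
    obtain ⟨i, _, _, hctr⟩ := loc (hlvl k) (hκ k) hφ (hφ.eig.bound hW) (by
        have := hnf.2.1
        omega) (by
        have h1 := hnf.2.2.1
        have h2 : ((2 * (2 ^ 10 * X k ^ 3 * L k) : ℕ) : ℤ) < ((L k * (2 ^ 12 * X k ^ 3) : ℕ) : ℤ) := by
          exact_mod_cast h1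
        push_cast at h2 ⊢
        linarith) (by
        have e1 : ((x + ((2 ^ 10 * X k ^ 3 * L k : ℕ) : ℤ) + 1 - (x - ((2 ^ 10 * X k ^ 3 * L k : ℕ) : ℤ)) : ℤ) : ℝ) =
          2 * ((2 ^ 10 * X k ^ 3 * L k : ℕ) : ℝ) + 1 := by push_cast; ring
        have h3 := hb3 k
        rw [e1]; linarith)
    exact ⟨_, hctr⟩
  · intro x k t ht
    obtain ⟨hφ, hctr, hcx⟩ := ht
    obtain ⟨n1, n2, n3, n4, n5, n6, n7, n8⟩ := nat_facts (hL1 k) (hX31 k)
    obtain ⟨-, m2, m3, -⟩ := nat_facts (hL1 (k + 1)) (hX31 (k + 1))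
    have hAA : 2 * (2 ^ 10 * X k ^ 3 * L k) ≤ 2 ^ 10 * X (k + 1) ^ 3 * L (k + 1) := by
      rw [hX, hL]; exact n1
    rw [← hL] at n5 n6
    obtain ⟨Y, hY⟩ : ∃ Y : ℝ, Y = X k := ⟨_, rfl⟩
    have hY31 : (2:ℝ) ^ 31 ≤ Y := by rw [hY]; exact_mod_cast hX31 k
    have hY0 : 0 < Y := lt_of_lt_of_le (by norm_num) hY31
    have hY1 : 1 ≤ Y := le_trans (by norm_num) hY31
    have hXb : 100 ≤ X k := le_trans (by norm_num) (hX31 k)
    have hYb : (46200:ℝ) ≤ Y := le_trans (by norm_num) hY31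
    have hA := A_le hY (hLX k) (hX31 k)
    have hA' := A_le (Y := Y ^ 12) (by rw [hY, hX]; push_cast; rfl) (hLX (k + 1)) (hX31 (k + 1))
    have h2k : (2:ℝ) ^ k ≤ Y := by rw [hY]; exact_mod_cast hX2 k
    have hhalf : Y⁻¹ ≤ (1 / 2) ^ k := by
      rw [one_div, inv_pow]
      exact inv_anti₀ (by positivity) h2k
    have hLY : (L k:ℝ) ≤ Y := by rw [hY]; exact_mod_cast hLX k
    have hκ' := hκ (k + 1)
    have hb3' := hb3 (k + 1)
    have hX' : ((X (k + 1) : ℕ) : ℝ) = Y ^ 12 := by rw [hX, hY]; push_cast; rfl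
    obtain ⟨g, hg⟩ : ∃ g : ℝ, g = (Y ^ (20 * X k + 10))⁻¹ := ⟨_, rfl⟩
    have hg0 : 0 < g := by rw [hg]; positivity
    obtain ⟨τ, hτ⟩ : ∃ τ : ℝ, τ = (Y ^ (1000 * X k))⁻¹ := ⟨_, rfl⟩
    have hgs : g ≤ Y⁻¹ := by
      rw [hg]
      have := inv_pow_le hY1 (show 1 ≤ 20 * X k + 10 by omega)
      rwa [pow_one] at this
    have hctr0 : Ctr t.2.1 t.2.2 (L k) ((Y ^ 27)⁻¹) := by rw [hY]; exact hctr
    have hstep := step hW (hlvl k) (κ := (Y ^ 27)⁻¹) (g := g) (by rw [hY]; exact hκ k)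
      (inv_le_one_of_one_le₀ (one_le_pow₀ hY1)) (hlvl (k + 1)) (κ' := ((Y ^ 12) ^ 27)⁻¹)
      (by rw [← hX']; exact hκ (k + 1)) (inv_le_one_of_one_le₀ (one_le_pow₀ (one_le_pow₀ hY1)))
      (x := x) (A := 2 ^ 10 * X k ^ 3 * L k) (A' := 2 ^ 10 * X (k + 1) ^ 3 * L (k + 1)) hAA
      n2 n3 (by rw [hY]; exact hb3 k) m2 m3 (by rw [← hX']; exact hb3 (k + 1)) hg0
      (by
        -- g ≤ σ/2
        rw [hg, ← hY, ← one_div, ← one_div, div_div]
        rw [div_le_div_iff_of_pos_left one_pos (by positivity) (by positivity)]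
        calc Y ^ 12 * 2 ≤ Y ^ 12 * Y := mul_le_mul_of_nonneg_left (by linarith) (by positivity)
          _ = Y ^ 13 := by ring
          _ ≤ Y ^ (20 * X k + 10) := pow_le_pow_right₀ hY1 (by omega))
      (by
        -- 46200 L² (2K+2)^(20L) g ≤ 1
        have h1 : (2 * K + 2) ^ (20 * L k) ≤ Y ^ (20 * X k) := by
          calc (2 * K + 2) ^ (20 * L k) ≤ Y ^ (20 * L k) :=
                pow_le_pow_left₀ (by linarith) (by rw [hY]; exact hXK' k) _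
            _ ≤ Y ^ (20 * X k) := pow_le_pow_right₀ hY1 (by have := hLX k; omega)
        have h2 : (L k : ℝ) ^ 2 ≤ Y ^ 2 := pow_le_pow_left₀ (by positivity) hLY 2
        have h3 : 46200 * (L k:ℝ) ^ 2 * (2 * K + 2) ^ (20 * L k) ≤ Y * Y ^ 2 * Y ^ (20 * X k) := by
          apply mul_le_mul (mul_le_mul hYb h2 (by positivity) hY0.le) h1 (by
            have : 0 ≤ 2 * K + 2 := by linarith
            positivity) (by positivity)
        rw [hg, ← div_eq_mul_inv, div_le_one (by positivity)]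
        refine h3.trans ?_
        have e : Y * Y ^ 2 * Y ^ (20 * X k) = Y ^ (20 * X k + 3) := by ring
        rw [e]
        exact pow_le_pow_right₀ hY1 (by omega))
      (s₀ := 64 * X k ^ 3) (s := 3 * X k) n4 n5 n6 n7
      (by
        -- 16 κ^(2 s₀) < g²
        rw [hg, inv_pow, inv_pow, ← pow_mul, ← pow_mul, ← div_eq_mul_inv, ← one_div,
          div_lt_div_iff₀ (by positivity) (by positivity), one_mul]
        have hXX : X k ≤ X k ^ 3 := Nat.le_self_pow (by norm_num) _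
        calc 16 * Y ^ ((20 * X k + 10) * 2) < Y * Y ^ ((20 * X k + 10) * 2) := by
              apply mul_lt_mul_of_pos_right _ (by positivity)
              linarith
          _ = Y ^ ((20 * X k + 10) * 2 + 1) := by ring
          _ ≤ Y ^ (27 * (2 * (64 * X k ^ 3))) := pow_le_pow_right₀ hY1 (by omega))
      (by
        -- ((2A+1)(κ'+κ²))² 2(2A'+1) < 1
        have h1 : ((Y ^ 12) ^ 27)⁻¹ + ((Y ^ 27)⁻¹) ^ 2 ≤ 2 * (Y ^ 54)⁻¹ := by
          have h2 : ((Y ^ 12) ^ 27)⁻¹ ≤ (Y ^ 54)⁻¹ := by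
            rw [← pow_mul]; exact inv_pow_le hY1 (by norm_num)
          have h3 : ((Y ^ 27)⁻¹) ^ 2 = (Y ^ 54)⁻¹ := by rw [inv_pow, ← pow_mul]
          rw [h3]; linarith
        have h2 : (2 * ((2 ^ 10 * X k ^ 3 * L k : ℕ) : ℝ) + 1) * (((Y ^ 12) ^ 27)⁻¹ + ((Y ^ 27)⁻¹) ^ 2) ≤
            2 * (Y ^ 49)⁻¹ := by
          calc _ ≤ Y ^ 5 * (2 * (Y ^ 54)⁻¹) := mul_le_mul hA h1 (by positivity) (by positivity)
            _ = _ := by field_simp
        have h3 : 2 * (2 * ((2 ^ 10 * X (k + 1) ^ 3 * L (k + 1) : ℕ) : ℝ) + 1) ≤ 2 * Y ^ 60 := by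
          have e : (Y ^ 12) ^ 5 = Y ^ 60 := by rw [← pow_mul]
          rw [e] at hA'
          linarith
        calc _ ≤ (2 * (Y ^ 49)⁻¹) ^ 2 * (2 * Y ^ 60) :=
              mul_le_mul (pow_le_pow_left₀ (by positivity) h2 2) h3 (by positivity) (by positivity)
          _ = 8 * (Y ^ 38)⁻¹ := by field_simp; norm_num
          _ < 1 := by
            rw [← div_eq_mul_inv, div_lt_one (by positivity)]
            calc (8:ℝ) < Y := by linarith
              _ ≤ Y ^ 38 := le_self_pow₀ hY1 (by norm_num))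
      (τ := τ) (by
        -- the error
        have e1 : (((Y ^ 12) ^ 27)⁻¹) ^ (2 * (3 * X k)) = (Y ^ (1944 * X k))⁻¹ := by
          rw [inv_pow, ← pow_mul, ← pow_mul]
          congr 2; ring
        have e2 : 8 / g ^ 2 = 8 * Y ^ (40 * X k + 20) := by
          rw [hg, inv_pow, ← pow_mul, div_inv_eq_mul]
          congr 2; ring
        have e3 : 2 * ((2 ^ 10 * X (k + 1) ^ 3 * L (k + 1) : ℕ) : ℝ) + 1 ≤ Y ^ (40 * X k + 20) := by
          have e : (Y ^ 12) ^ 5 = Y ^ 60 := by rw [← pow_mul]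
          rw [e] at hA'
          exact hA'.trans (pow_le_pow_right₀ hY1 (by omega))
        rw [e1, e2, hτ]
        calc _ ≤ (9 * Y ^ (40 * X k + 20)) * (Y ^ (1944 * X k))⁻¹ := by
              apply mul_le_mul_of_nonneg_right _ (by positivity)
              linarith
          _ ≤ (Y * Y ^ (40 * X k + 20)) * (Y ^ (1944 * X k))⁻¹ := by
              apply mul_le_mul_of_nonneg_right _ (by positivity)
              apply mul_le_mul_of_nonneg_right _ (by positivity)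
              linarith
          _ = Y ^ (40 * X k + 21) / Y ^ (1944 * X k) := by
              rw [div_eq_mul_inv]; congr 1; ring
          _ ≤ (Y ^ (1000 * X k))⁻¹ := by
              rw [div_le_iff₀ (by positivity), ← div_eq_inv_mul, le_div_iff₀ (by positivity),
                ← pow_add]
              exact pow_le_pow_right₀ hY1 (by omega))
      hφ hctr0 hcx
    obtain ⟨E', φ', c', h1, h2, h3, h4, h5⟩ := hstep
    refine ⟨(E', φ', c'), ⟨h1, ?_, h3⟩, ?_, ?_⟩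
    · rw [← hX'] at h2; exact h2
    · show |E' - t.1| ≤ (1 / 2) ^ k
      linarith
    · show ∑ n ∈ Icc (x - ((2 ^ 10 * X (k + 1) ^ 3 * L (k + 1) : ℕ) : ℤ))
        (x + ((2 ^ 10 * X (k + 1) ^ 3 * L (k + 1) : ℕ) : ℤ)), (t.2.1 n - φ' n) ^ 2 ≤
        ((1 / 2) ^ k / (2 * ((2 ^ 10 * X k ^ 3 * L k : ℕ) : ℝ) + 1)) ^ 2
      refine h5.trans ?_
      have e1 : (Y ^ 6)⁻¹ ≤ (1 / 2) ^ k / (2 * ((2 ^ 10 * X k ^ 3 * L k : ℕ) : ℝ) + 1) := by
        rw [le_div_iff₀ (by positivity)]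
        calc _ ≤ (Y ^ 6)⁻¹ * Y ^ 5 := mul_le_mul_of_nonneg_left hA (by positivity)
          _ = Y⁻¹ := by field_simp
          _ ≤ _ := hhalf
      have e2 : 2 * τ ≤ ((Y ^ 6)⁻¹) ^ 2 := by
        rw [hτ, inv_pow, ← pow_mul, ← div_eq_mul_inv, ← one_div,
          div_le_div_iff₀ (by positivity) (by positivity), one_mul]
        calc 2 * Y ^ (6 * 2) ≤ Y * Y ^ (6 * 2) := by
              apply mul_le_mul_of_nonneg_right _ (by positivity)
              linarith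
          _ = Y ^ 13 := by ring
          _ ≤ _ := pow_le_pow_right₀ hY1 (by omega)
      exact e2.trans (pow_le_pow_left₀ (by positivity) e1 2)

end Pool.Agent.K9h34.LP
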