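import Pool.Agent.K9h34.LP.Box
import Pool.Agent.Helper635.LLL

/-!
# Separation of the window eigenvalues by small shifts, constant on the cells of a partition
-/

set_option autoImplicit false

namespace Pool.Agent.K9h34.LP

open Finset

/-- cut points of a partition into cells of lengths between `L` and `2 L` -/
structure Cuts (L : ℕ) (p : ℤ → ℤ) : Prop where
  lo : ∀ j, p j + L ≤ p (j + 1)
  hi : ∀ j, p (j + 1) ≤ p j + 2 * L

/-- eigenvalues of the windows that start in cell `j` and end in cell `j + 1` -/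
def WE (V : ℤ → ℝ) (p : ℤ → ℤ) (j : ℤ) (lam : ℝ) : Prop :=
  ∃ m m' : ℤ, p j ≤ m ∧ m < p (j + 1) ∧ p (j + 1) ≤ m' ∧ m' < p (j + 2) ∧ Eig V (m + 1) m' lam

/-- separation of the eigenvalues of distant windows -/
def SepP (V : ℤ → ℝ) (p : ℤ → ℤ) (R : ℕ) (δ : ℝ) : Prop :=
  ∀ j j' : ℤ, j + 2 ≤ j' → j' ≤ j + R → ∀ lam mu, WE V p j lam → WE V p j' mu → δ ≤ |lam - mu|

lemma Cuts.mono {L : ℕ} {p : ℤ → ℤ} (h : Cuts L p) (j : ℤ) (k : ℕ) : p j + L * k ≤ p (j + k) := by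
  induction k with
  | zero => simp
  | succ k ih =>
    have := h.lo (j + k)
    push_cast
    rw [← add_assoc]
    linarith

lemma Cuts.mono' {L : ℕ} {p : ℤ → ℤ} (h : Cuts L p) (j : ℤ) (k : ℕ) :
    p (j + k) ≤ p j + 2 * L * k := by
  induction k with
  | zero => simp
  | succ k ih =>
    have := h.hi (j + k)
    push_cast
    rw [← add_assoc]
    linarith

lemma Cuts.le {L : ℕ} {p : ℤ → ℤ} (h : Cuts L p) {i j : ℤ} (hij : i ≤ j) : p i ≤ p j := by
  obtain ⟨k, rfl⟩ := Int.le.dest hij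
  have := h.mono i k
  have h2 : (0:ℤ) ≤ L * k := by positivity
  linarith

lemma WE.congr {V V' : ℤ → ℝ} {p : ℤ → ℤ} {j : ℤ} {lam : ℝ}
    (h : ∀ n, p j ≤ n → n < p (j + 2) → V n = V' n) (hw : WE V p j lam) : WE V' p j lam := by
  obtain ⟨m, m', h1, h2, h3, h4, h5⟩ := hw
  refine ⟨m, m', h1, h2, h3, h4, h5.congr ?_⟩
  intro n hn
  rw [mem_Icc] at hn
  exact h n (by omega) (by omega)

lemma WE.add {V V' : ℤ → ℝ} {p : ℤ → ℤ} {j : ℤ} {lam c : ℝ}
    (h : ∀ n, p j ≤ n → n < p (j + 2) → V' n = V n + c) (hw : WE V p j lam) :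
    WE V' p j (lam + c) := by
  obtain ⟨m, m', h1, h2, h3, h4, h5⟩ := hw
  refine ⟨m, m', h1, h2, h3, h4, h5.add ?_⟩
  intro n hn
  rw [mem_Icc] at hn
  exact h n (by omega) (by omega)

lemma WE.weyl {V V' : ℤ → ℝ} {p : ℤ → ℤ} {j : ℤ} {lam η : ℝ} (hη : 0 ≤ η)
    (h : ∀ n, |V' n - V n| ≤ η) (hw : WE V' p j lam) : ∃ μ, WE V p j μ ∧ |μ - lam| ≤ η := by
  obtain ⟨m, m', h1, h2, h3, h4, h5⟩ := hw
  obtain ⟨μ, h6, h7⟩ := h5.weyl hη (fun n _ => h n)
  exact ⟨μ, ⟨m, m', h1, h2, h3, h4, h6⟩, h7⟩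

lemma SepP.pert {V V' : ℤ → ℝ} {p : ℤ → ℤ} {R : ℕ} {δ η δ' : ℝ} (hη : 0 ≤ η)
    (h : ∀ n, |V' n - V n| ≤ η) (hs : SepP V p R δ) (hδ : δ' + 2 * η ≤ δ) : SepP V' p R δ' := by
  intro j j' h1 h2 lam mu h3 h4
  obtain ⟨l', h5, h6⟩ := h3.weyl hη h
  obtain ⟨m', h7, h8⟩ := h4.weyl hη h
  have h9 := hs j j' h1 h2 l' m' h5 h7
  have h10 : |l' - m'| ≤ |l' - lam| + |lam - mu| + |mu - m'| := by
    have e : l' - m' = (l' - lam) + (lam - mu) + (mu - m') := by ring
    rw [e]; exact (abs_add_le _ _).trans (add_le_add_left (abs_add_le _ _) _)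
  rw [abs_sub_comm] at h8
  linarith

/-- translation of the cut points -/
lemma WE.shift {V : ℤ → ℝ} {p : ℤ → ℤ} {j : ℤ} {lam : ℝ} (s : ℤ) (hw : WE V p j lam) :
    WE (fun n => V (n + s)) (fun i => p i - s) j lam := by
  obtain ⟨m, m', h1, h2, h3, h4, h5⟩ := hw
  refine ⟨m - s, m' - s, by dsimp only; omega, by dsimp only; omega, by dsimp only; omega,
    by dsimp only; omega, ?_⟩
  have := h5.shift s
  have e : m - s + 1 = m + 1 - s := by ring
  rw [e]; exact this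

lemma SepP.shift {V : ℤ → ℝ} {p : ℤ → ℤ} {R : ℕ} {δ : ℝ} (hs : SepP V p R δ) (s : ℤ) :
    SepP (fun n => V (n + s)) (fun i => p i - s) R δ := by
  intro j j' h1 h2 lam mu h3 h4
  have h5 := h3.shift (-s)
  have h6 := h4.shift (-s)
  have e1 : (fun n => (fun n => V (n + s)) (n + -s)) = V := by funext n; simp
  have e2 : (fun i => (fun i => p i - s) i - -s) = p := by funext n; simp
  rw [e1, e2] at h5 h6
  exact hs j j' h1 h2 lam mu h5 h6

lemma Cuts.shift {L : ℕ} {p : ℤ → ℤ} (h : Cuts L p) (s : ℤ) : Cuts L (fun i => p i - s) :=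
  ⟨fun j => by have := h.lo j; omega, fun j => by have := h.hi j; omega⟩

/-- index translation for periodic data -/
lemma WE.index {V : ℤ → ℝ} {p : ℤ → ℤ} {j k s : ℤ} {lam : ℝ} (hV : ∀ n, V (n + s) = V n)
    (hp : ∀ i, p (i + k) = p i + s) (hw : WE V p (j + k) lam) : WE V p j lam := by
  obtain ⟨m, m', h1, h2, h3, h4, h5⟩ := hw
  have e1 : j + k + 1 = (j + 1) + k := by ring
  have e2 : j + k + 2 = (j + 2) + k := by ring
  rw [hp] at h1
  rw [e1, hp] at h2 h3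
  rw [e2, hp] at h4
  refine ⟨m - s, m' - s, by omega, by omega, by omega, by omega, ?_⟩
  have := h5.shift s
  have e3 : (fun n => V (n + s)) = V := by funext n; exact hV n
  have e4 : m - s + 1 = m + 1 - s := by ring
  rw [e3] at this
  rw [e4]; exact this

lemma WE.finite (V : ℤ → ℝ) {p : ℤ → ℤ} {L : ℕ} (hp : Cuts L p) (j : ℤ) :
    ∃ F : Finset ℝ, F.card ≤ 16 * L ^ 3 ∧ ∀ lam, WE V p j lam → lam ∈ F := by
  classical
  choose F hF1 hF2 using fun (a b : ℤ) => eig_finite V a b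
  refine ⟨(Ico (p j) (p (j + 1)) ×ˢ Ico (p (j + 1)) (p (j + 2))).biUnion
    (fun q => F (q.1 + 1) q.2), ?_, ?_⟩
  · have h1 := hp.lo j
    have h2 := hp.hi j
    have h3 := hp.lo (j + 1)
    have h4 := hp.hi (j + 1)
    have e : j + 1 + 1 = j + 2 := by ring
    rw [e] at h3 h4
    calc _ ≤ ∑ q ∈ Ico (p j) (p (j + 1)) ×ˢ Ico (p (j + 1)) (p (j + 2)), (F (q.1 + 1) q.2).card :=
          card_biUnion_le
      _ ≤ ∑ q ∈ Ico (p j) (p (j + 1)) ×ˢ Ico (p (j + 1)) (p (j + 2)), 4 * L := by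
          apply Finset.sum_le_sum
          intro q hq
          rw [mem_product, mem_Ico, mem_Ico] at hq
          refine (hF1 _ _).trans ?_
          omega
      _ = ((p (j + 1) - p j).toNat * (p (j + 2) - p (j + 1)).toNat) * (4 * L) := by
          rw [Finset.sum_const, card_product, Int.card_Ico, Int.card_Ico, smul_eq_mul]
      _ ≤ ((2 * L) * (2 * L)) * (4 * L) := by
          apply Nat.mul_le_mul_right
          apply Nat.mul_le_mul <;> omega
      _ = 16 * L ^ 3 := by ring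
  · rintro lam ⟨m, m', h1, h2, h3, h4, h5⟩
    rw [mem_biUnion]
    exact ⟨(m, m'), by rw [mem_product, mem_Ico, mem_Ico]; exact ⟨⟨h1, h2⟩, ⟨h3, h4⟩⟩, hF2 _ _ _ h5⟩

section cells

variable {N n L : ℕ}

/-- cut points -/
def cut (N n : ℕ) (j : ℤ) : ℤ := (j * N) / n

/-- the cell of a site -/
def cell (N n : ℕ) (x : ℤ) : ℤ := ((x + 1) * n - 1) / N

lemma cut_cuts (hn : 0 < n) (h1 : L * n ≤ N) (h2 : N ≤ 2 * L * n) : Cuts L (cut N n) := by
  have hn' : (0:ℤ) < n := by exact_mod_cast hn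
  have h1' : (L:ℤ) * n ≤ N := by exact_mod_cast h1
  have h2' : (N:ℤ) ≤ 2 * L * n := by exact_mod_cast h2
  constructor
  · intro j
    unfold cut
    have e : (j * N) / n + L = (j * N + L * n) / n := by
      rw [Int.add_mul_ediv_right _ _ hn'.ne']
    rw [e]
    apply Int.ediv_le_ediv hn'
    linarith
  · intro j
    unfold cut
    have e : (j * N) / n + 2 * L = (j * N + 2 * L * n) / n := by
      rw [Int.add_mul_ediv_right _ _ hn'.ne']
    rw [e]
    apply Int.ediv_le_ediv hn'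
    linarith

lemma cut_add (hn : 0 < n) (j q : ℤ) : cut N n (j + n * q) = cut N n j + N * q := by
  have hn' : (n:ℤ) ≠ 0 := by exact_mod_cast hn.ne'
  unfold cut
  have e : (j + n * q) * (N:ℤ) = j * N + (N * q) * n := by ring
  rw [e, Int.add_mul_ediv_right _ _ hn']

lemma cut_le_iff (hn : 0 < n) (hN : 0 < N) (j x : ℤ) : cut N n j ≤ x ↔ j ≤ cell N n x := by
  have hn' : (0:ℤ) < n := by exact_mod_cast hn
  have hN' : (0:ℤ) < N := by exact_mod_cast hN
  unfold cut cell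
  rw [← Int.lt_add_one_iff, Int.ediv_lt_iff_lt_mul hn', Int.le_ediv_iff_mul_le hN']
  omega

lemma cell_eq (hn : 0 < n) (hN : 0 < N) {j x : ℤ} (h1 : cut N n j ≤ x) (h2 : x < cut N n (j + 1)) :
    cell N n x = j := by
  have h3 := (cut_le_iff hn hN j x).mp h1
  have h4 : ¬ j + 1 ≤ cell N n x := fun h => by
    have := (cut_le_iff hn hN (j + 1) x).mpr h
    omega
  omega

lemma cell_add (hN : 0 < N) (x : ℤ) : cell N n (x + N) = cell N n x + n := by
  have hN' : (N:ℤ) ≠ 0 := by exact_mod_cast hN.ne'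
  unfold cell
  have e : (x + N + 1) * (n:ℤ) - 1 = ((x + 1) * n - 1) + n * N := by ring
  rw [e, Int.add_mul_ediv_right _ _ hN']

end cells

section lll

open Pool.Agent.Helper635

set_option linter.unusedSectionVars false

variable {N n G : ℕ} [NeZero n]

/-- the shift -/
noncomputable def tt (N n : ℕ) {G : ℕ} (h : ℝ) (g : ZMod n → Fin G) (x : ℤ) : ℝ :=
  h * (g (cell N n x : ZMod n) : ℕ)

/-- the bad event -/
def Bad (V : ℤ → ℝ) (N n : ℕ) {G : ℕ} (h δ : ℝ) (i : ZMod n × ℕ) (g : ZMod n → Fin G) : Prop :=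
  ∃ lam mu, WE (fun x => V x + tt N n h g x) (cut N n) i.1.val lam ∧
    WE (fun x => V x + tt N n h g x) (cut N n) (i.1.val + i.2) mu ∧ |lam - mu| < δ

/-- the coordinates of the bad event -/
def Crd (n : ℕ) (i : ZMod n × ℕ) : Finset (ZMod n) := {i.1, i.1 + 1, i.1 + i.2, i.1 + i.2 + 1}

lemma tt_cell (hn : 0 < n) (hN : 0 < N) {h : ℝ} (g : ZMod n → Fin G) {j x : ℤ}
    (h1 : cut N n j ≤ x) (h2 : x < cut N n (j + 1)) : tt N n h g x = h * (g (j : ZMod n) : ℕ) := by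
  unfold tt
  rw [cell_eq hn hN h1 h2]

lemma tt_two (hn : 0 < n) (hN : 0 < N) {h : ℝ} {g g' : ZMod n → Fin G} {j : ℤ} {c : ℝ}
    (ha : h * (g' (j : ZMod n) : ℕ) = h * (g (j : ZMod n) : ℕ) + c)
    (hb : h * (g' (j + 1 : ZMod n) : ℕ) = h * (g (j + 1 : ZMod n) : ℕ) + c) {x : ℤ}
    (h1 : cut N n j ≤ x) (h2 : x < cut N n (j + 2)) : tt N n h g' x = tt N n h g x + c := by
  by_cases h3 : x < cut N n (j + 1)
  · rw [tt_cell hn hN g h1 h3, tt_cell hn hN g' h1 h3]; exact ha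
  · push Not at h3
    have e : j + 1 + 1 = j + 2 := by ring
    rw [tt_cell hn hN g h3 (by rw [e]; exact h2), tt_cell hn hN g' h3 (by rw [e]; exact h2)]
    push_cast
    exact hb

lemma bad_dep (hn : 0 < n) (hN : 0 < N) (V : ℤ → ℝ) (h δ : ℝ) (i : ZMod n × ℕ) :
    LLL.DependsOn (Bad (G := G) V N n h δ i) (Crd n i) := by
  rintro g g' hg ⟨lam, mu, h1, h2, h3⟩
  have hv : ((i.1.val : ℤ) : ZMod n) = i.1 := by
    push_cast; exact ZMod.natCast_zmod_val i.1
  refine ⟨lam, mu, h1.congr ?_, h2.congr ?_, h3⟩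
  · intro x hx1 hx2
    have := tt_two (h := h) (g := g) (g' := g') (j := i.1.val) (c := 0) hn hN
      (by rw [hv, hg i.1 (by simp [Crd])]; ring)
      (by rw [hv, hg (i.1 + 1) (by simp [Crd])]; ring) hx1 hx2
    rw [this]; ring
  · intro x hx1 hx2
    have hv' : (((i.1.val : ℤ) + (i.2 : ℤ) : ℤ) : ZMod n) = i.1 + i.2 := by
      push_cast; rw [ZMod.natCast_zmod_val]
    have := tt_two (h := h) (g := g) (g' := g') (j := i.1.val + i.2) (c := 0) hn hN
      (by rw [hv', hg (i.1 + i.2) (by simp [Crd])]; ring)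
      (by rw [hv', hg (i.1 + i.2 + 1) (by simp [Crd])]; ring) hx1 hx2
    rw [this]; ring

end lll

end Pool.Agent.K9h34.LP
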