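import Pool.Agent.K9h34.LP.Sep

/-!
# Existence of the separating shifts
-/

set_option autoImplicit false
set_option linter.unusedSectionVars false

namespace Pool.Agent.K9h34.LP

open Finset Pool.Agent.Helper635

variable {N n G : ℕ} [NeZero n]

open Classical in
/-- subtract the common part of two coordinates -/
noncomputable def nrm (a b : ZMod n) (g : ZMod n → Fin G) : ZMod n → Fin G := fun z =>
  if z = a then ⟨(g a : ℕ) - min (g a : ℕ) (g b), lt_of_le_of_lt (Nat.sub_le _ _) (g a).2⟩
  else if z = b then ⟨(g b : ℕ) - min (g a : ℕ) (g b), lt_of_le_of_lt (Nat.sub_le _ _) (g b).2⟩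
  else g z

lemma nrm_a (a b : ZMod n) (g : ZMod n → Fin G) :
    (g a : ℕ) = (nrm a b g a : ℕ) + min (g a : ℕ) (g b) := by
  unfold nrm
  rw [if_pos rfl]
  simp only
  omega

lemma nrm_b {a b : ZMod n} (hab : a ≠ b) (g : ZMod n → Fin G) :
    (g b : ℕ) = (nrm a b g b : ℕ) + min (g a : ℕ) (g b) := by
  unfold nrm
  rw [if_neg hab.symm, if_pos rfl]
  simp only
  omega

lemma nrm_o {a b z : ZMod n} (h1 : z ≠ a) (h2 : z ≠ b) (g : ZMod n → Fin G) :
    nrm a b g z = g z := by
  unfold nrm
  rw [if_neg h1, if_neg h2]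

lemma nrm_zero {a b : ZMod n} (hab : a ≠ b) (g : ZMod n → Fin G) :
    (nrm a b g a : ℕ) = 0 ∨ (nrm a b g b : ℕ) = 0 := by
  unfold nrm
  rw [if_pos rfl, if_neg hab.symm, if_pos rfl]
  simp only
  omega

open Classical in
lemma card_zero (a : ZMod n) :
    (univ.filter (fun y : ZMod n → Fin G => (y a : ℕ) = 0)).card * G ≤ G ^ n := by
  have h1 : ((univ.filter (fun y : ZMod n → Fin G => (y a : ℕ) = 0)) ×ˢ (univ : Finset (Fin G))).card ≤
      (univ : Finset (ZMod n → Fin G)).card := by
    apply Finset.card_le_card_of_injOn (fun q => Function.update q.1 a q.2)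
    · intro q _; exact Finset.mem_coe.mpr (Finset.mem_univ _)
    · rintro ⟨y, c⟩ hy ⟨y', c'⟩ hy' h
      simp only [coe_product, coe_filter, mem_univ, true_and, coe_univ, Set.mem_prod,
        Set.mem_setOf_eq, Set.mem_univ, and_true] at hy hy' h
      have hc : c = c' := by
        have := congrFun h a
        simpa using this
      have hyy : y = y' := by
        funext z
        by_cases hz : z = a
        · subst hz
          exact Fin.ext (by rw [hy, hy'])
        · have := congrFun h z
          simpa [Function.update_of_ne hz] using this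
      rw [hc, hyy]
  rw [card_product, card_univ, card_univ, Fintype.card_fin, Fintype.card_fun, ZMod.card,
    Fintype.card_fin] at h1
  exact h1

/-- the number of bad shifts -/
theorem bad_card {V : ℤ → ℝ} {L R : ℕ} (hn : 0 < n) (hN : 0 < N) (h1 : L * n ≤ N)
    (h2 : N ≤ 2 * L * n) (hnR : R + 2 < n) {h δ : ℝ} (hh : 0 < h) (hδ : 2 * δ ≤ h)
    {i : ZMod n × ℕ} (hi : i.2 ∈ Icc 2 R) :
    LLL.cnt (Bad (G := G) V N n h δ i) * G ≤ 2 * (16 * L ^ 3) ^ 2 * G ^ n := by
  classical
  obtain ⟨j, r⟩ := i
  rw [mem_Icc] at hi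
  simp only at hi
  have hcut := cut_cuts hn h1 h2
  set a : ZMod n := j with ha
  set b : ZMod n := j + 1 with hb
  -- nonzero naturals
  have hne : ∀ k : ℕ, 0 < k → k < n → (k : ZMod n) ≠ 0 := by
    intro k hk1 hk2 h
    rw [ZMod.natCast_eq_zero_iff] at h
    exact absurd (Nat.le_of_dvd hk1 h) (by omega)
  have hab : a ≠ b := by
    intro h
    have : (1 : ZMod n) = 0 := by
      have e : b - a = 1 := by rw [hb, ha]; ring
      rw [← e, h, sub_self]
    exact hne 1 (by norm_num) (by omega) (by simpa using this)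
  have hr1 : j + (r : ZMod n) ≠ a := by
    intro h
    exact hne r (by omega) (by omega) (by
      have e : (r : ZMod n) = (j + r) - a := by rw [ha]; ring
      rw [e, h, sub_self])
  have hr2 : j + (r : ZMod n) ≠ b := by
    intro h
    exact hne (r - 1) (by omega) (by omega) (by
      rw [Nat.cast_sub (by omega)]
      have e : (r : ZMod n) - ((1:ℕ) : ZMod n) = (j + r) - b := by rw [hb]; push_cast; ring
      rw [e, h, sub_self])
  have hr3 : j + (r : ZMod n) + 1 ≠ a := by
    intro h
    exact hne (r + 1) (by omega) (by omega) (by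
      push_cast
      have e : (r : ZMod n) + 1 = (j + r + 1) - a := by rw [ha]; ring
      rw [e, h, sub_self])
  have hr4 : j + (r : ZMod n) + 1 ≠ b := by
    intro h
    exact hne r (by omega) (by omega) (by
      have e : (r : ZMod n) = (j + r + 1) - b := by rw [hb]; ring
      rw [e, h, sub_self])
  set B := LLL.ev (Bad (G := G) V N n h δ (j, r)) with hB
  -- fibres
  have hfib : ∀ y ∈ B.image (nrm a b), (B.filter (fun g => nrm a b g = y)).card ≤ (16 * L ^ 3) ^ 2 := by
    intro y _
    obtain ⟨F₁, hF1, hF1'⟩ := WE.finite (fun x => V x + tt N n h y x) hcut (j.val : ℤ)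
    obtain ⟨F₂, hF2, hF2'⟩ := WE.finite (fun x => V x + tt N n h y x) hcut ((j.val : ℤ) + r)
    have hv : ((j.val : ℤ) : ZMod n) = j := by push_cast; exact ZMod.natCast_zmod_val j
    have hv' : (((j.val : ℤ) + (r : ℤ) : ℤ) : ZMod n) = j + r := by
      push_cast; rw [ZMod.natCast_zmod_val]
    have key : ∀ g : ZMod n → Fin G, g ∈ B.filter (fun g => nrm a b g = y) →
        ∃ q : ℝ × ℝ, q.1 ∈ F₁ ∧ q.2 ∈ F₂ ∧
          |q.1 + h * (min (g a : ℕ) (g b) : ℕ) - q.2| < δ := by
      intro g hg
      rw [mem_filter, hB, LLL.mem_ev] at hg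
      obtain ⟨⟨lam, mu, w1, w2, w3⟩, rfl⟩ := hg
      set c := min (g a : ℕ) (g b) with hc
      refine ⟨(lam - h * c, mu), hF1' _ ?_, hF2' _ ?_, ?_⟩
      · have := w1.add (V' := fun x => V x + tt N n h (nrm a b g) x) (c := - (h * c)) (by
          intro x hx1 hx2
          have := tt_two (h := h) (g := g) (g' := nrm a b g) (j := (j.val : ℤ)) (c := - (h * c)) hn hN
            (by
              rw [hv]
              have := nrm_a a b g
              rw [← hc] at this
              have h5 : ((g a : ℕ) : ℝ) = (nrm a b g a : ℕ) + (c : ℝ) := by exact_mod_cast this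
              rw [ha] at h5
              rw [← ha, ha, h5]; ring)
            (by
              rw [hv]
              have := nrm_b hab g
              rw [← hc] at this
              have h5 : ((g b : ℕ) : ℝ) = (nrm a b g b : ℕ) + (c : ℝ) := by exact_mod_cast this
              rw [hb] at h5
              rw [h5]; ring) hx1 hx2
          rw [this]; ring)
        rw [sub_eq_add_neg]; exact this
      · apply w2.congr
        intro x hx1 hx2
        have := tt_two (h := h) (g := g) (g' := nrm a b g) (j := (j.val : ℤ) + r) (c := 0) hn hN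
            (by
              rw [hv', nrm_o hr1 hr2]; ring)
            (by
              rw [hv', nrm_o hr3 hr4]; ring) hx1 hx2
        rw [this]; ring
      · simp only
        have e : lam - h * c + h * (c : ℕ) - mu = lam - mu := by ring
        rw [e]; exact w3
    choose! q hq1 hq2 hq3 using key
    calc (B.filter (fun g => nrm a b g = y)).card ≤ (F₁ ×ˢ F₂).card := by
          apply Finset.card_le_card_of_injOn q
          · intro g hg
            rw [mem_coe] at hg
            rw [mem_coe, mem_product]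
            exact ⟨hq1 g hg, hq2 g hg⟩
          · intro g hg g' hg' hqq
            rw [mem_coe] at hg hg'
            have h3 := hq3 g hg
            have h4 := hq3 g' hg'
            rw [← hqq] at h4
            have hmin : min (g a : ℕ) (g b) = min (g' a : ℕ) (g' b) := by
              by_contra hne'
              have h5 : (1:ℝ) ≤ |((min (g a : ℕ) (g b) : ℕ) : ℝ) - ((min (g' a : ℕ) (g' b) : ℕ) : ℝ)| := by
                have : (1:ℤ) ≤ |((min (g a : ℕ) (g b) : ℕ) : ℤ) - ((min (g' a : ℕ) (g' b) : ℕ) : ℤ)| := by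
                  apply Int.one_le_abs
                  omega
                exact_mod_cast this
              have h6 : h * |((min (g a : ℕ) (g b) : ℕ) : ℝ) - ((min (g' a : ℕ) (g' b) : ℕ) : ℝ)| < 2 * δ := by
                rw [show h * |((min (g a : ℕ) (g b) : ℕ) : ℝ) - ((min (g' a : ℕ) (g' b) : ℕ) : ℝ)| =
                  |h * (((min (g a : ℕ) (g b) : ℕ) : ℝ) - ((min (g' a : ℕ) (g' b) : ℕ) : ℝ))| by
                    rw [abs_mul, abs_of_pos hh]]
                have e : h * (((min (g a : ℕ) (g b) : ℕ) : ℝ) - ((min (g' a : ℕ) (g' b) : ℕ) : ℝ)) =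
                  ((q g).1 + h * (min (g a : ℕ) (g b) : ℕ) - (q g).2) -
                  ((q g).1 + h * (min (g' a : ℕ) (g' b) : ℕ) - (q g).2) := by ring
                rw [e]
                calc _ ≤ _ := abs_sub _ _
                  _ < δ + δ := add_lt_add h3 h4
                  _ = 2 * δ := by ring
              nlinarith
            rw [mem_filter] at hg hg'
            have hy : nrm a b g = nrm a b g' := hg.2.trans hg'.2.symm
            funext z
            by_cases hz : z = a
            · subst hz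
              apply Fin.ext
              rw [nrm_a a b g, nrm_a a b g', hy, hmin]
            · by_cases hz' : z = b
              · subst hz'
                apply Fin.ext
                rw [nrm_b hab g, nrm_b hab g', hy, hmin]
              · rw [← nrm_o hz hz' g, ← nrm_o hz hz' g', hy]
      _ = F₁.card * F₂.card := card_product _ _
      _ ≤ (16 * L ^ 3) * (16 * L ^ 3) := Nat.mul_le_mul hF1 hF2
      _ = (16 * L ^ 3) ^ 2 := by ring
  have h3 := Finset.card_le_mul_card_image (s := B) (f := nrm a b) ((16 * L ^ 3) ^ 2) hfib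
  have h4 : (B.image (nrm a b)).card * G ≤ 2 * G ^ n := by
    have h5 : (B.image (nrm a b)).card ≤ (univ.filter (fun y : ZMod n → Fin G => (y a : ℕ) = 0)).card +
        (univ.filter (fun y : ZMod n → Fin G => (y b : ℕ) = 0)).card := by
      refine le_trans (Finset.card_le_card ?_) (Finset.card_union_le _ _)
      intro y hy
      rw [mem_image] at hy
      obtain ⟨g, _, rfl⟩ := hy
      rw [mem_union, mem_filter, mem_filter]
      rcases nrm_zero hab g with h | h
      · left; exact ⟨mem_univ _, h⟩
      · right; exact ⟨mem_univ _, h⟩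
    calc _ ≤ _ := Nat.mul_le_mul_right G h5
      _ = _ := Nat.add_mul _ _ _
      _ ≤ G ^ n + G ^ n :=
          Nat.add_le_add (card_zero a) (card_zero b)
      _ = _ := by ring
  calc LLL.cnt (Bad (G := G) V N n h δ (j, r)) * G = B.card * G := rfl
    _ ≤ ((16 * L ^ 3) ^ 2 * (B.image (nrm a b)).card) * G := Nat.mul_le_mul_right G h3
    _ = (16 * L ^ 3) ^ 2 * ((B.image (nrm a b)).card * G) := by ring
    _ ≤ (16 * L ^ 3) ^ 2 * (2 * G ^ n) := Nat.mul_le_mul_left _ h4
    _ = _ := by ring

/-- offsets of the coordinates of an event -/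
def off (r : ℕ) : Fin 4 → ℕ := ![0, 1, r, r + 1]

lemma mem_crd {i : ZMod n × ℕ} {z : ZMod n} (h : z ∈ Crd n i) : ∃ k, z = i.1 + (off i.2 k : ℕ) := by
  unfold Crd at h
  simp only [mem_insert, mem_singleton] at h
  rcases h with h | h | h | h
  · exact ⟨0, by rw [h]; simp [off]⟩
  · exact ⟨1, by rw [h]; simp [off]⟩
  · exact ⟨2, by rw [h]; simp [off]⟩
  · exact ⟨3, by rw [h]; simp [off, add_assoc]⟩

open Classical in
lemma deg_le (R : ℕ) (i : ZMod n × ℕ) :
    (((univ : Finset (ZMod n)) ×ˢ Icc 2 R).filter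
      (fun i' => ¬ Disjoint (Crd n i) (Crd n i'))).card ≤ 16 * R := by
  calc _ ≤ (((univ : Finset (Fin 4 × Fin 4)) ×ˢ Icc 2 R).image
        (fun q => ((i.1 + (off i.2 q.1.1 : ℕ) - (off q.2 q.1.2 : ℕ) : ZMod n), q.2))).card := by
        apply Finset.card_le_card
        rintro ⟨j', r'⟩ hj
        rw [mem_filter, mem_product, not_disjoint_iff] at hj
        obtain ⟨⟨_, h1⟩, z, hz1, hz2⟩ := hj
        obtain ⟨k, hk⟩ := mem_crd hz1
        obtain ⟨k', hk'⟩ := mem_crd hz2
        rw [mem_image]
        refine ⟨((k, k'), r'), by rw [mem_product]; exact ⟨mem_univ _, h1⟩, ?_⟩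
        simp only [Prod.mk.injEq, and_true]
        rw [← hk, hk']
        simp
    _ ≤ _ := Finset.card_image_le
    _ = 16 * (R + 1 - 2) := by
        rw [card_product, card_univ, Fintype.card_prod, Fintype.card_fin, Nat.card_Icc]
    _ ≤ 16 * R := by omega

/-- existence of the separating shifts -/
theorem sep_exists {V : ℤ → ℝ} {L R N : ℕ} (hL : 1 ≤ L) (hR : 1 ≤ R)
    (hV : ∀ x, V (x + N) = V x) (hN : (R + 4) * (2 * L) ≤ N) {ρ : ℝ} (hρ : 0 < ρ) :
    ∃ (t : ℤ → ℝ) (p : ℤ → ℤ), (∀ x, 0 ≤ t x ∧ t x ≤ ρ / 2) ∧ (∀ x, t (x + N) = t x) ∧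
      Cuts L p ∧ SepP (fun x => V x + t x) p R (ρ / (2 ^ 17 * L ^ 6 * R)) := by
  classical
  obtain ⟨n, hn⟩ : ∃ n, n = N / L := ⟨_, rfl⟩
  have h1 : L * n ≤ N := by rw [hn]; exact Nat.mul_div_le N L
  have hnR : R + 4 ≤ n := by
    rw [hn, Nat.le_div_iff_mul_le (by omega)]
    nlinarith
  have h2 : N ≤ 2 * L * n := by
    have h3 : N < L * (n + 1) := by rw [hn]; exact Nat.lt_mul_div_succ N (by omega)
    nlinarith
  have hn0 : 0 < n := by omega
  have hN0 : 0 < N := by nlinarith
  haveI : NeZero n := ⟨hn0.ne'⟩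
  set G := 2 ^ 15 * L ^ 6 * R with hG
  have hG0 : 0 < G := by positivity
  have hGr : (0:ℝ) < G := by exact_mod_cast hG0
  set h := ρ / (2 * G) with hh
  have hh0 : 0 < h := by positivity
  set δ := ρ / (2 ^ 17 * L ^ 6 * R) with hδ
  have hδh : 2 * δ ≤ h := by
    rw [hδ, hh, hG]
    push_cast
    apply le_of_eq
    field_simp
    norm_num
  have hL0 : (0:ℝ) < L := by exact_mod_cast hL
  have hR0 : (0:ℝ) < R := by exact_mod_cast hR
  haveI : Nonempty (Fin G) := ⟨⟨0, hG0⟩⟩
  have hcd : ∀ inst : Fintype (ZMod n → Fin G), @Fintype.card (ZMod n → Fin G) inst = G ^ n := by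
    intro inst
    rw [Fintype.card_eq_nat_card, Nat.card_fun, Nat.card_zmod, Nat.card_eq_fintype_card,
      Fintype.card_fin]
  obtain ⟨g, hg⟩ := LLL.lll ((univ : Finset (ZMod n)) ×ˢ Icc 2 R) (Bad (G := G) V N n h δ) (Crd n)
    (fun i _ => bad_dep hn0 hN0 V h δ i) (1 / (64 * R)) (16 * R) (by positivity) (by
      intro i hi
      rw [mem_product] at hi
      rw [hcd]
      have h3 := bad_card (G := G) (V := V) hn0 hN0 h1 h2 (by omega) hh0 hδh hi.2
      have h4 : (LLL.cnt (Bad (G := G) V N n h δ i) : ℝ) * G ≤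
        2 * (16 * L ^ 3) ^ 2 * (G:ℝ) ^ n := by exact_mod_cast h3
      have h5 : (1 / (64 * R) * (G:ℝ) ^ n : ℝ) * G =
        2 * (16 * L ^ 3) ^ 2 * (G:ℝ) ^ n := by
        have h6 : (G:ℝ) = 2 ^ 15 * L ^ 6 * R := by rw [hG]; push_cast; ring
        have h7 : (1 / (64 * R) : ℝ) * G = 2 * (16 * L ^ 3) ^ 2 := by
          rw [h6]; field_simp; norm_num
        calc _ = ((1 / (64 * R) : ℝ) * G) * (G:ℝ) ^ n := by ring
          _ = _ := by rw [h7]
      push_cast
      rw [← h5] at h4
      exact le_of_mul_le_mul_right h4 hGr)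
    (by
      intro i _
      refine le_trans (Finset.card_le_card ?_) (deg_le R i)
      intro x hx
      have hx' := (@Finset.mem_filter _ _ (_) _ _).mp hx
      exact (@Finset.mem_filter _ _ (_) _ _).mpr hx')
    (by
      push_cast
      apply le_of_eq
      field_simp
      norm_num)
    (by omega) (by rw [hcd]; positivity)
  refine ⟨tt N n h g, cut N n, ?_, ?_, cut_cuts hn0 h1 h2, ?_⟩
  · intro x
    unfold tt
    have h3 : ((g (cell N n x : ZMod n) : ℕ) : ℝ) ≤ G := by exact_mod_cast (g _).2.le
    constructor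
    · positivity
    · calc _ ≤ h * G := mul_le_mul_of_nonneg_left h3 hh0.le
        _ = ρ / 2 := by rw [hh]; field_simp
  · intro x
    unfold tt
    rw [cell_add hN0]
    push_cast
    simp
  · intro j j' hj1 hj2 lam mu w1 w2
    by_contra hcon
    push Not at hcon
    set V' : ℤ → ℝ := fun x => V x + tt N n h g x with hV'
    have hper : ∀ q : ℤ, ∀ x, V' (x + N * q) = V' x := by
      have hp1 : ∀ x, V' (x + N) = V' x := by
        intro x
        simp only [hV']
        rw [hV x]
        congr 1
        unfold tt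
        rw [cell_add hN0]
        push_cast
        simp
      have hper' : Function.Periodic V' (N:ℤ) := hp1
      intro q x
      have := hper'.int_mul q x
      rw [mul_comm]; simpa using this
    obtain ⟨r, hr⟩ : ∃ r : ℕ, j' = j + r := ⟨(j' - j).toNat, by omega⟩
    obtain ⟨q, hq⟩ : ∃ q : ℤ, j = ((j : ZMod n).val : ℤ) + n * q := by
      refine ⟨j / n, ?_⟩
      rw [ZMod.val_intCast]
      exact (Int.emod_add_mul_ediv j n).symm
    set j₀ : ZMod n := (j : ZMod n) with hj₀
    apply hg (j₀, r) (by rw [mem_product, mem_Icc]; exact ⟨mem_univ _, by omega, by omega⟩)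
    refine ⟨lam, mu, ?_, ?_, hcon⟩
    · apply WE.index (s := N * q) (k := n * q) (hper q) (fun i => cut_add hn0 i q)
      rw [← hq]; exact w1
    · apply WE.index (s := N * q) (k := n * q) (hper q) (fun i => cut_add hn0 i q)
      have e : ((j₀, r).1.val : ℤ) + ((j₀, r).2 : ℤ) + n * q = j' := by
        simp only; omega
      rw [e]; exact w2

end Pool.Agent.K9h34.LP
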