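import Pool.Agent.K9h34.LP.Gap

/-!
# From one scale to the next
-/

set_option autoImplicit false

namespace Pool.Agent.K9h34.LP

open Finset

/-- decay away from a centre -/
def Ctr (φ : ℤ → ℝ) (c : ℤ) (L : ℕ) (κ : ℝ) : Prop :=
  ∀ (s : ℕ) (n : ℤ), 8 * L * s ≤ |n - c| → |φ n| ≤ κ ^ s

lemma EF.neg {V : ℤ → ℝ} {α β : ℤ} {E : ℝ} {φ : ℤ → ℝ} (h : EF V α β E φ) :
    EF V α β E (fun n => - φ n) := by
  refine ⟨fun n hn => by simp only [h.out n hn, neg_zero], fun n hn => ?_, ?_⟩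
  · have := h.sol n hn
    unfold Sol at this ⊢
    linarith
  · have := h.nrm
    simpa using this

lemma Ctr.neg {φ : ℤ → ℝ} {c : ℤ} {L : ℕ} {κ : ℝ} (h : Ctr φ c L κ) :
    Ctr (fun n => - φ n) c L κ := by
  intro s n hn
  simp only [abs_neg]
  exact h s n hn

/-- an eigenfunction is, up to sign, a member of the eigenbasis -/
lemma unique_index {K : ℝ} {V : ℤ → ℝ} {L R : ℕ} {ϑ σ κ g : ℝ} {p : ℤ → ℤ} (h : Lvl K V L R ϑ σ p)
    (hV : ∀ n, |V n| + 2 ≤ K) (hκ : 8 * ϑ / σ ≤ κ) {α β : ℤ}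
    (hlen : α - 1 + 2 * L ≤ β) (hlen' : β - α < L * R)
    (hsmall : ((β + 1 - α : ℤ) : ℝ) * κ ^ 2 ≤ 1 / 100) (hg0 : 0 < g) (hgσ : g ≤ σ / 2)
    (hg : 46200 * L ^ 2 * (2 * K + 2) ^ (20 * L) * g ≤ 1)
    {e : Icc α β → ℝ} {f : Icc α β → ℤ → ℝ}
    (h0 : ∀ i n, n ∉ Icc α β → f i n = 0)
    (hs : ∀ i, ∀ n ∈ Icc α β, Sol V (e i) (f i) n)
    (ho : ∀ i j, ∑ n ∈ Icc α β, f i n * f j n = if i = j then 1 else 0)
    (hc : ∀ w : ℤ → ℝ, ∀ n ∈ Icc α β, w n = ∑ i, (∑ m ∈ Icc α β, w m * f i m) * f i n)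
    {E : ℝ} {φ : ℤ → ℝ} (hφ : EF V α β E φ) :
    ∃ i₀, (∑ n ∈ Icc α β, φ n * f i₀ n) ^ 2 = 1 ∧
      (∀ i, i ≠ i₀ → ∑ n ∈ Icc α β, φ n * f i n = 0 ∧ g ≤ |e i - E|) := by
  have hef : ∀ i, EF V α β (e i) (f i) := fun i => ⟨h0 i, hs i, by
    have := ho i i
    rw [if_pos rfl] at this
    rw [← this]
    apply Finset.sum_congr rfl
    intro n _; ring⟩
  have hpars := parseval hc φ
  rw [hφ.nrm] at hpars
  have horth : ∀ i, ∑ n ∈ Icc α β, φ n * f i n = 0 ∨ e i = E := by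
    intro i
    have h1 := defect h0 hs hφ.out E i
    have h2 : ∑ n ∈ Icc α β, (φ (n + 1) + φ (n - 1) + V n * φ n - E * φ n) * f i n = 0 := by
      apply Finset.sum_eq_zero
      intro n hn
      have := hφ.sol n hn
      unfold Sol at this
      rw [this]; ring
    rw [h2] at h1
    rcases mul_eq_zero.mp h1.symm with h3 | h3
    · right; linarith
    · left; exact h3
  have hgapf : ∀ i, ∑ n ∈ Icc α β, φ n * f i n = 0 → g ≤ |e i - E| := by
    intro i hi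
    apply gap h hV hκ (hef i) hφ _ hlen hlen' hsmall hgσ hg
    rw [← hi]
    apply Finset.sum_congr rfl
    intro n _; ring
  obtain ⟨i₀, hi₀⟩ : ∃ i₀, ∑ n ∈ Icc α β, φ n * f i₀ n ≠ 0 := by
    by_contra hcon
    push Not at hcon
    simp [hcon] at hpars
  have hothers : ∀ i, i ≠ i₀ → ∑ n ∈ Icc α β, φ n * f i n = 0 := by
    intro i hi
    by_contra hcon
    have h1 : e i = E := (horth i).resolve_left hcon
    have h2 : e i₀ = E := (horth i₀).resolve_left hi₀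
    have h3 := gap h hV hκ (hef i) (hef i₀) (by rw [ho i i₀, if_neg hi]) hlen hlen' hsmall hgσ hg
    rw [h1, h2, sub_self, abs_zero] at h3
    linarith
  refine ⟨i₀, ?_, fun i hi => ⟨hothers i hi, hgapf i (hothers i hi)⟩⟩
  rw [hpars]
  symm
  apply Finset.sum_eq_single i₀
  · intro i _ hi
    rw [hothers i hi]; ring
  · intro hcon; exact absurd (Finset.mem_univ _) hcon

/-- the defect of an eigenfunction in a larger or smaller box -/
lemma defect_out {V : ℤ → ℝ} {a b : ℤ} {E B : ℝ} {φ : ℤ → ℝ} (hab : a ≤ b) (hφ : EF V a b E φ)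
    (ha : φ a ^ 2 ≤ B) (hb : φ b ^ 2 ≤ B) (T : Finset ℤ) :
    ∑ n ∈ T, (φ (n + 1) + φ (n - 1) + V n * φ n - E * φ n) ^ 2 ≤ 2 * B := by
  have hB : 0 ≤ B := (sq_nonneg _).trans ha
  have h1 : ∀ n : ℤ, (φ (n + 1) + φ (n - 1) + V n * φ n - E * φ n) ^ 2 ≤
      (if n = b + 1 then B else 0) + (if n = a - 1 then B else 0) := by
    intro n
    by_cases hn : n ∈ Icc a b
    · have := hφ.sol n hn
      unfold Sol at this
      rw [this, sub_self]
      have h2 : (0:ℝ) ≤ (if n = b + 1 then B else 0) + (if n = a - 1 then B else 0) := by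
        split_ifs <;> linarith
      simpa using h2
    · rw [hφ.out n hn]
      rw [mem_Icc] at hn
      by_cases h2 : n = b + 1
      · have h3 : n ≠ a - 1 := by omega
        rw [if_pos h2, if_neg h3, hφ.out (n + 1) (by rw [mem_Icc]; omega)]
        have e : n - 1 = b := by omega
        rw [e]; linarith
      · by_cases h3 : n = a - 1
        · rw [if_neg h2, if_pos h3, hφ.out (n - 1) (by rw [mem_Icc]; omega)]
          have e : n + 1 = a := by omega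
          rw [e]; linarith
        · rw [if_neg h2, if_neg h3, hφ.out (n + 1) (by rw [mem_Icc]; omega),
            hφ.out (n - 1) (by rw [mem_Icc]; omega)]
          simp
  calc _ ≤ ∑ n ∈ T, ((if n = b + 1 then B else 0) + (if n = a - 1 then B else 0)) :=
        Finset.sum_le_sum fun n _ => h1 n
    _ = ∑ n ∈ T, (if n = b + 1 then B else 0) + ∑ n ∈ T, (if n = a - 1 then B else 0) :=
        sum_add_distrib
    _ ≤ B + B := by
        apply add_le_add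
        · rw [Finset.sum_ite_eq']; split_ifs <;> linarith
        · rw [Finset.sum_ite_eq']; split_ifs <;> linarith
    _ = 2 * B := by ring

/-- the defect of a truncated solution -/
lemma defect_in {V : ℤ → ℝ} {a b : ℤ} {E B : ℝ} {φ χ : ℤ → ℝ} (hab : a < b)
    (hsol : ∀ n ∈ Icc a b, Sol V E φ n) (h1 : ∀ n ∈ Icc a b, χ n = φ n)
    (h0 : ∀ n, n ∉ Icc a b → χ n = 0) (ha : φ (a - 1) ^ 2 ≤ B) (hb : φ (b + 1) ^ 2 ≤ B) :
    ∑ n ∈ Icc a b, (χ (n + 1) + χ (n - 1) + V n * χ n - E * χ n) ^ 2 ≤ 2 * B := by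
  have hB : 0 ≤ B := (sq_nonneg _).trans ha
  have h2 : ∀ n ∈ Icc a b, (χ (n + 1) + χ (n - 1) + V n * χ n - E * χ n) ^ 2 ≤
      (if n = b then B else 0) + (if n = a then B else 0) := by
    intro n hn
    have h3 := hsol n hn
    unfold Sol at h3
    rw [h1 n hn]
    rw [mem_Icc] at hn
    by_cases h4 : n = b
    · have h5 : n ≠ a := by omega
      rw [if_pos h4, if_neg h5, h0 (n + 1) (by rw [mem_Icc]; omega), h1 (n - 1) (by rw [mem_Icc]; omega)]
      have e : (0 + φ (n - 1) + V n * φ n - E * φ n) ^ 2 = φ (b + 1) ^ 2 := by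
        have e2 : 0 + φ (n - 1) + V n * φ n - E * φ n = - φ (n + 1) := by linarith
        rw [e2, h4]; ring
      rw [e]; linarith
    · by_cases h5 : n = a
      · rw [if_neg h4, if_pos h5, h1 (n + 1) (by rw [mem_Icc]; omega),
          h0 (n - 1) (by rw [mem_Icc]; omega)]
        have e : (φ (n + 1) + 0 + V n * φ n - E * φ n) ^ 2 = φ (a - 1) ^ 2 := by
          have e2 : φ (n + 1) + 0 + V n * φ n - E * φ n = - φ (n - 1) := by linarith
          rw [e2, h5]; ring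
        rw [e]; linarith
      · rw [if_neg h4, if_neg h5, h1 (n + 1) (by rw [mem_Icc]; omega),
          h1 (n - 1) (by rw [mem_Icc]; omega), h3]
        simp
  calc _ ≤ ∑ n ∈ Icc a b, ((if n = b then B else 0) + (if n = a then B else 0)) :=
        Finset.sum_le_sum h2
    _ = B + B := by
        rw [sum_add_distrib, Finset.sum_ite_eq', Finset.sum_ite_eq',
          if_pos (by rw [mem_Icc]; omega), if_pos (by rw [mem_Icc]; omega)]
    _ = 2 * B := by ring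

/-- the step -/
theorem step {K : ℝ} {V : ℤ → ℝ} (hV : ∀ n, |V n| + 2 ≤ K)
    {L R : ℕ} {ϑ σ κ g : ℝ} {p : ℤ → ℤ} (h : Lvl K V L R ϑ σ p) (hκ : 8 * ϑ / σ ≤ κ) (hκ1 : κ ≤ 1)
    {L' R' : ℕ} {ϑ' σ' κ' : ℝ} {p' : ℤ → ℤ} (h' : Lvl K V L' R' ϑ' σ' p') (hκ' : 8 * ϑ' / σ' ≤ κ')
    (hκ1' : κ' ≤ 1) {x : ℤ} {A A' : ℕ} (hAA : 2 * A ≤ A')
    (hb1 : 2 * L ≤ 2 * A) (hb2 : 2 * A < L * R) (hb3 : (2 * A + 1 : ℝ) * κ ^ 2 ≤ 1 / 100)
    (hb1' : 2 * L' ≤ 2 * A') (hb2' : 2 * A' < L' * R') (hb3' : (2 * A' + 1 : ℝ) * κ' ^ 2 ≤ 1 / 100)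
    (hg0 : 0 < g) (hgσ : g ≤ σ / 2) (hg : 46200 * L ^ 2 * (2 * K + 2) ^ (20 * L) * g ≤ 1)
    {s₀ s : ℕ} (hs₀ : 16 * L * s₀ ≤ A) (hs : 32 * L' * s ≤ A) (hA1 : 64 * L' ≤ A)
    (hA2 : 128 * L ≤ A)
    (hN1 : 16 * κ ^ (2 * s₀) < g ^ 2)
    (hN2 : ((2 * A + 1 : ℝ) * (κ' + κ ^ 2)) ^ 2 * (2 * (2 * A' + 1)) < 1)
    {τ : ℝ} (hτ : ((2 * A' + 1 : ℝ) + 8 / g ^ 2) * κ' ^ (2 * s) ≤ τ)
    {E : ℝ} {φ : ℤ → ℝ} (hφ : EF V (x - A) (x + A) E φ) {c : ℤ} (hctr : Ctr φ c L κ)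
    (hcx : 2 * |c - x| ≤ A) :
    ∃ (E' : ℝ) (φ' : ℤ → ℝ) (c' : ℤ), EF V (x - A') (x + A') E' φ' ∧ Ctr φ' c' L' κ' ∧
      2 * |c' - x| ≤ A' ∧ |E' - E| ≤ g / 2 ∧
      ∑ n ∈ Icc (x - A') (x + A'), (φ n - φ' n) ^ 2 ≤ 2 * τ := by
  classical
  have hL := h.hL
  have hL' := h'.hL
  have hκ0 : 0 ≤ κ := le_trans (by have := h.hϑ; have := h.hσ; positivity) hκ
  have hκ0' : 0 ≤ κ' := le_trans (by have := h'.hϑ; have := h'.hσ; positivity) hκ'
  obtain ⟨e, f, f0, fs, fo, fc⟩ := box_basis V (x - A') (x + A')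
  have hsub : Icc (x - A : ℤ) (x + A) ⊆ Icc (x - A') (x + A') := by
    intro n hn; rw [mem_Icc] at hn ⊢; omega
  have hφout : ∀ n, n ∉ Icc (x - A' : ℤ) (x + A') → φ n = 0 := fun n hn =>
    hφ.out n (fun h => hn (hsub h))
  have hext : ∀ w : ℤ → ℝ, ∑ n ∈ Icc (x - A' : ℤ) (x + A'), φ n * w n =
      ∑ n ∈ Icc (x - A : ℤ) (x + A), φ n * w n := by
    intro w
    symm
    apply Finset.sum_subset hsub
    intro n _ hn
    rw [hφ.out n hn, zero_mul]
  have hnrm' : ∑ n ∈ Icc (x - A' : ℤ) (x + A'), φ n ^ 2 = 1 := by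
    rw [← hφ.nrm]
    symm
    apply Finset.sum_subset hsub
    intro n _ hn
    rw [hφ.out n hn]; ring
  -- values at the boundary
  have hbd : ∀ n : ℤ, |n - x| = A → φ n ^ 2 ≤ κ ^ (2 * s₀) := by
    intro n hn
    have h1 : 8 * (L:ℤ) * s₀ ≤ |n - c| := by
      have e1 : n - x = (n - c) + (c - x) := by ring
      have h2 := abs_add_le (n - c) (c - x)
      rw [← e1] at h2
      have h3 : (16 * L * s₀ : ℤ) ≤ A := by exact_mod_cast hs₀
      have h4 : (16 * L * s₀ : ℤ) = 2 * (8 * L * s₀) := by ring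
      omega
    have h2 := hctr s₀ n h1
    rw [← sq_abs, mul_comm 2 s₀, pow_mul]
    exact pow_le_pow_left₀ (abs_nonneg _) h2 2
  have hdef := defect_out (by omega) hφ (hbd (x - A) (by
    rw [sub_sub_cancel_left, abs_neg]; exact Nat.abs_cast A)) (hbd (x + A) (by
    rw [add_sub_cancel_left]; exact Nat.abs_cast A)) (Icc (x - A' : ℤ) (x + A'))
  rw [defect_sq f0 fs fc hφout E] at hdef
  have hpars := parseval fc φ
  rw [hnrm'] at hpars
  have hcard : (Fintype.card (Icc (x - A' : ℤ) (x + A')) : ℝ) = 2 * A' + 1 := by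
    rw [Fintype.card_coe, Int.card_Icc]
    have : (x + A' + 1 - (x - A')).toNat = 2 * A' + 1 := by omega
    rw [this]; push_cast; ring
  have hA'0 : (0:ℝ) < 2 * A' + 1 := by positivity
  obtain ⟨j, hj1, hj2⟩ : ∃ j, |e j - E| ≤ g / 2 ∧
      1 / (2 * (2 * A' + 1)) ≤ (∑ n ∈ Icc (x - A' : ℤ) (x + A'), φ n * f j n) ^ 2 := by
    by_contra hcon
    push Not at hcon
    have h1 : ∀ j, (∑ n ∈ Icc (x - A' : ℤ) (x + A'), φ n * f j n) ^ 2 ≤
        4 / g ^ 2 * ((e j - E) ^ 2 * (∑ n ∈ Icc (x - A' : ℤ) (x + A'), φ n * f j n) ^ 2) +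
        1 / (2 * (2 * A' + 1)) := by
      intro j
      by_cases h2 : |e j - E| ≤ g / 2
      · have h3 := hcon j h2
        have h4 : 0 ≤ 4 / g ^ 2 * ((e j - E) ^ 2 *
          (∑ n ∈ Icc (x - A' : ℤ) (x + A'), φ n * f j n) ^ 2) := by positivity
        linarith
      · push Not at h2
        have h3 : g ^ 2 / 4 ≤ (e j - E) ^ 2 := by
          rw [← sq_abs (e j - E)]
          nlinarith [abs_nonneg (e j - E)]
        have h4 : 1 ≤ 4 / g ^ 2 * (e j - E) ^ 2 := by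
          rw [div_mul_eq_mul_div, le_div_iff₀ (by positivity)]
          linarith
        have h5 : 0 ≤ (∑ n ∈ Icc (x - A' : ℤ) (x + A'), φ n * f j n) ^ 2 := sq_nonneg _
        have h6 : (0:ℝ) ≤ 1 / (2 * (2 * A' + 1)) := by positivity
        nlinarith
    have h2 := Finset.sum_le_sum (fun j (_ : j ∈ (univ : Finset (Icc (x - A' : ℤ) (x + A')))) => h1 j)
    rw [← hpars, sum_add_distrib, ← Finset.mul_sum, sum_const, card_univ, nsmul_eq_mul, hcard] at h2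
    have h3 : 4 / g ^ 2 * ∑ i : Icc (x - A' : ℤ) (x + A'), (e i - E) ^ 2 *
        (∑ n ∈ Icc (x - A' : ℤ) (x + A'), φ n * f i n) ^ 2 ≤ 4 / g ^ 2 * (2 * κ ^ (2 * s₀)) :=
      mul_le_mul_of_nonneg_left hdef (by positivity)
    have h4 : 4 / g ^ 2 * (2 * κ ^ (2 * s₀)) < 1 / 2 := by
      rw [div_mul_eq_mul_div, div_lt_iff₀ (by positivity)]
      linarith
    have h5 : (2 * (A':ℝ) + 1) * (1 / (2 * (2 * A' + 1))) = 1 / 2 := by field_simp
    rw [h5] at h2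
    linarith
  have hef : EF V (x - A') (x + A') (e j) (f j) := ⟨f0 j, fs j, by
    have := fo j j
    rw [if_pos rfl] at this
    rw [← this]
    apply Finset.sum_congr rfl
    intro n _; ring⟩
  obtain ⟨i', _, _, hctr'⟩ := loc h' hκ' hef (hef.eig.bound hV) (by omega)
    (by
      have : ((2 * A' : ℕ) : ℤ) < ((L' * R' : ℕ) : ℤ) := by exact_mod_cast hb2'
      push_cast at this; linarith) (by
      have e1 : ((x + A' + 1 - (x - A') : ℤ) : ℝ) = 2 * A' + 1 := by push_cast; ring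
      rw [e1]; linarith)
  obtain ⟨c', hc'⟩ : ∃ c', c' = p' (i' + 1) := ⟨_, rfl⟩
  rw [← hc'] at hctr'
  -- the centres are close
  have hcc : 4 * |c' - c| ≤ A := by
    by_contra hcon
    push Not at hcon
    have h1 : ∀ n ∈ Icc (x - A : ℤ) (x + A), |φ n * f j n| ≤ κ' + κ ^ 2 := by
      intro n _
      rw [abs_mul]
      by_cases h2 : 8 * |n - c| ≤ A
      · have h3 : 8 * (L':ℤ) * (1:ℕ) ≤ |n - c'| := by
          have e1 : c' - c = (n - c) + (c' - n) := by ring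
          have h4 := abs_add_le (n - c) (c' - n)
          rw [← e1, abs_sub_comm c' n] at h4
          push_cast; omega
        have h4 := hctr' 1 n h3
        rw [pow_one] at h4
        calc |φ n| * |f j n| ≤ 1 * κ' := mul_le_mul (hφ.le_one n) h4 (abs_nonneg _) zero_le_one
          _ ≤ κ' + κ ^ 2 := by rw [one_mul]; linarith [sq_nonneg κ]
      · have h3 := hctr 2 n (by push_cast; omega)
        calc |φ n| * |f j n| ≤ κ ^ 2 * 1 := mul_le_mul h3 (hef.le_one n) (abs_nonneg _) (sq_nonneg _)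
          _ ≤ κ' + κ ^ 2 := by rw [mul_one]; linarith
    have h2 : |∑ n ∈ Icc (x - A' : ℤ) (x + A'), φ n * f j n| ≤ (2 * A + 1) * (κ' + κ ^ 2) := by
      rw [hext]
      calc _ ≤ ∑ n ∈ Icc (x - A : ℤ) (x + A), |φ n * f j n| := abs_sum_le_sum_abs _ _
        _ ≤ ∑ n ∈ Icc (x - A : ℤ) (x + A), (κ' + κ ^ 2) := Finset.sum_le_sum h1
        _ = _ := by
          rw [sum_const, Int.card_Icc, nsmul_eq_mul]
          have : (x + A + 1 - (x - A)).toNat = 2 * A + 1 := by omega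
          rw [this]; push_cast; ring
    have h3 : (∑ n ∈ Icc (x - A' : ℤ) (x + A'), φ n * f j n) ^ 2 ≤ ((2 * A + 1) * (κ' + κ ^ 2)) ^ 2 := by
      rw [← sq_abs]
      exact pow_le_pow_left₀ (abs_nonneg _) h2 2
    have h4 := hj2.trans h3
    rw [div_le_iff₀ (by positivity)] at h4
    linarith
  have hcx' : 4 * |c' - x| ≤ 3 * A := by
    have e1 : c' - x = (c' - c) + (c - x) := by ring
    have h4 := abs_add_le (c' - c) (c - x)
    rw [← e1] at h4
    omega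
  have hfar : ∀ n : ℤ, (A:ℤ) ≤ |n - x| → (f j n) ^ 2 ≤ κ' ^ (2 * s) := by
    intro n hn
    have h1 : 8 * (L':ℤ) * s ≤ |n - c'| := by
      have e1 : n - x = (n - c') + (c' - x) := by ring
      have h2 := abs_add_le (n - c') (c' - x)
      rw [← e1] at h2
      have h3 : (32 * L' * s : ℤ) ≤ A := by exact_mod_cast hs
      have h4 : (32 * L' * s : ℤ) = 4 * (8 * L' * s) := by ring
      omega
    have h2 := hctr' s n h1
    rw [← sq_abs, mul_comm 2 s, pow_mul]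
    exact pow_le_pow_left₀ (abs_nonneg _) h2 2
  -- the truncation
  set χ : ℤ → ℝ := fun n => if n ∈ Icc (x - A : ℤ) (x + A) then f j n else 0 with hχ
  have hχ1 : ∀ n ∈ Icc (x - A : ℤ) (x + A), χ n = f j n := fun n hn => by simp only [hχ, if_pos hn]
  have hχ0 : ∀ n, n ∉ Icc (x - A : ℤ) (x + A) → χ n = 0 := fun n hn => by simp only [hχ, if_neg hn]
  have hA0 : 0 < A := by omega
  have hdχ := defect_in (V := V) (E := e j) (B := κ' ^ (2 * s)) (a := x - A) (b := x + A)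
    (by omega) (fun n hn => hef.sol n (hsub hn)) hχ1 hχ0
    (hfar _ (by
      have e1 : x - (A:ℤ) - 1 - x = -(A + 1) := by ring
      rw [e1, abs_neg, abs_of_nonneg (by positivity)]; omega))
    (hfar _ (by
      have e1 : x + (A:ℤ) + 1 - x = A + 1 := by ring
      rw [e1, abs_of_nonneg (by positivity)]; omega))
  obtain ⟨e₁, f₁, f10, f1s, f1o, f1c⟩ := box_basis V (x - A) (x + A)
  obtain ⟨i₀, hi1, hi2⟩ := unique_index h hV hκ (α := x - A) (β := x + A) (by omega)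
    (by
      have : ((2 * A : ℕ) : ℤ) < ((L * R : ℕ) : ℤ) := by exact_mod_cast hb2
      push_cast at this; linarith) (by
      have e1 : ((x + A + 1 - (x - A) : ℤ) : ℝ) = 2 * A + 1 := by push_cast; ring
      rw [e1]; exact hb3) hg0 hgσ hg f10 f1s f1o f1c hφ
  rw [defect_sq f10 f1s f1c hχ0 (e j)] at hdχ
  have hparsχ := parseval f1c χ
  have hχn : 1 - (2 * A' + 1) * κ' ^ (2 * s) ≤ ∑ n ∈ Icc (x - A : ℤ) (x + A), χ n ^ 2 := by
    have h1 : ∑ n ∈ Icc (x - A' : ℤ) (x + A'), f j n ^ 2 =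
        ∑ n ∈ Icc (x - A : ℤ) (x + A), f j n ^ 2 +
        ∑ n ∈ (Icc (x - A' : ℤ) (x + A')) \ (Icc (x - A : ℤ) (x + A)), f j n ^ 2 := by
      have h9 := Finset.sum_sdiff (f := fun n => f j n ^ 2) hsub
      linarith
    rw [hef.nrm] at h1
    have h2 : ∑ n ∈ (Icc (x - A' : ℤ) (x + A')) \ (Icc (x - A : ℤ) (x + A)), f j n ^ 2 ≤
        (2 * A' + 1) * κ' ^ (2 * s) := by
      calc _ ≤ ∑ n ∈ (Icc (x - A' : ℤ) (x + A')) \ (Icc (x - A : ℤ) (x + A)), κ' ^ (2 * s) := by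
            apply Finset.sum_le_sum
            intro n hn
            rw [mem_sdiff, mem_Icc, mem_Icc] at hn
            apply hfar n
            rcases abs_cases (n - x) with ⟨h3, _⟩ | ⟨h3, _⟩ <;> omega
        _ = _ := by rw [sum_const, nsmul_eq_mul]
        _ ≤ _ := by
            apply mul_le_mul_of_nonneg_right _ (by positivity)
            have h3 := Finset.card_le_card (Finset.sdiff_subset
              (s := Icc (x - A' : ℤ) (x + A')) (t := Icc (x - A : ℤ) (x + A)))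
            rw [Int.card_Icc] at h3
            have h4 : (Icc (x - A' : ℤ) (x + A') \ Icc (x - A : ℤ) (x + A)).card ≤ 2 * A' + 1 := by
              omega
            exact_mod_cast h4
    have h3 : ∑ n ∈ Icc (x - A : ℤ) (x + A), χ n ^ 2 = ∑ n ∈ Icc (x - A : ℤ) (x + A), f j n ^ 2 :=
      Finset.sum_congr rfl (fun n hn => by rw [hχ1 n hn])
    rw [h3]; linarith
  have hrest : ∑ i ∈ univ.erase i₀, (∑ n ∈ Icc (x - A : ℤ) (x + A), χ n * f₁ i n) ^ 2 ≤
      8 / g ^ 2 * κ' ^ (2 * s) := by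
    have h1 : ∀ i ∈ univ.erase i₀, (∑ n ∈ Icc (x - A : ℤ) (x + A), χ n * f₁ i n) ^ 2 ≤
        4 / g ^ 2 * ((e₁ i - e j) ^ 2 * (∑ n ∈ Icc (x - A : ℤ) (x + A), χ n * f₁ i n) ^ 2) := by
      intro i hi
      rw [mem_erase] at hi
      have h2 := (hi2 i hi.1).2
      have h3 : g / 2 ≤ |e₁ i - e j| := by
        have e1 : e₁ i - E = (e₁ i - e j) + (e j - E) := by ring
        have h4 := abs_add_le (e₁ i - e j) (e j - E)
        rw [← e1] at h4
        linarith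
      have h4 : g ^ 2 / 4 ≤ (e₁ i - e j) ^ 2 := by
        rw [← sq_abs (e₁ i - e j)]
        nlinarith [abs_nonneg (e₁ i - e j)]
      have h5 : 1 ≤ 4 / g ^ 2 * (e₁ i - e j) ^ 2 := by
        rw [div_mul_eq_mul_div, le_div_iff₀ (by positivity)]
        linarith
      have h6 : 0 ≤ (∑ n ∈ Icc (x - A : ℤ) (x + A), χ n * f₁ i n) ^ 2 := sq_nonneg _
      nlinarith
    calc _ ≤ ∑ i ∈ univ.erase i₀, 4 / g ^ 2 * ((e₁ i - e j) ^ 2 *
          (∑ n ∈ Icc (x - A : ℤ) (x + A), χ n * f₁ i n) ^ 2) := Finset.sum_le_sum h1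
      _ = 4 / g ^ 2 * ∑ i ∈ univ.erase i₀, ((e₁ i - e j) ^ 2 *
          (∑ n ∈ Icc (x - A : ℤ) (x + A), χ n * f₁ i n) ^ 2) := by rw [Finset.mul_sum]
      _ ≤ 4 / g ^ 2 * ∑ i, ((e₁ i - e j) ^ 2 *
          (∑ n ∈ Icc (x - A : ℤ) (x + A), χ n * f₁ i n) ^ 2) := by
          apply mul_le_mul_of_nonneg_left _ (by positivity)
          apply Finset.sum_le_sum_of_subset_of_nonneg (Finset.erase_subset _ _)
          intro i _ _; positivity
      _ ≤ 4 / g ^ 2 * (2 * κ' ^ (2 * s)) := mul_le_mul_of_nonneg_left hdχ (by positivity)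
      _ = _ := by ring
  have hmain : 1 - τ ≤ (∑ n ∈ Icc (x - A : ℤ) (x + A), χ n * f₁ i₀ n) ^ 2 := by
    rw [hparsχ, ← Finset.add_sum_erase _ _ (Finset.mem_univ i₀)] at hχn
    linarith
  obtain ⟨t, ht⟩ : ∃ t, t = ∑ n ∈ Icc (x - A' : ℤ) (x + A'), φ n * f j n := ⟨_, rfl⟩
  have ht2 : t ^ 2 = (∑ n ∈ Icc (x - A : ℤ) (x + A), χ n * f₁ i₀ n) ^ 2 := by
    have h1 : t = (∑ n ∈ Icc (x - A : ℤ) (x + A), φ n * f₁ i₀ n) *
        (∑ n ∈ Icc (x - A : ℤ) (x + A), χ n * f₁ i₀ n) := by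
      rw [ht, hext]
      have h2 : ∀ n ∈ Icc (x - A : ℤ) (x + A), φ n * f j n =
          (∑ m ∈ Icc (x - A : ℤ) (x + A), φ m * f₁ i₀ m) * (χ n * f₁ i₀ n) := by
        intro n hn
        have h3 := f1c φ n hn
        rw [Finset.sum_eq_single i₀ (fun i _ hi => by rw [(hi2 i hi).1, zero_mul])
          (fun hcon => absurd (Finset.mem_univ _) hcon)] at h3
        rw [h3, hχ1 n hn]
        ring_nf
      rw [Finset.sum_congr rfl h2, ← Finset.mul_sum]
    rw [h1, mul_pow, hi1, one_mul]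
  have hτt : 1 - τ ≤ t ^ 2 := by rw [ht2]; exact hmain
  have htle : |t| ≤ 1 := by
    have h1 : |t| ≤ ∑ n ∈ Icc (x - A' : ℤ) (x + A'), |φ n * f j n| := by
      rw [ht]; exact abs_sum_le_sum_abs _ _
    have h2 : ∑ n ∈ Icc (x - A' : ℤ) (x + A'), |φ n * f j n| ≤
        ∑ n ∈ Icc (x - A' : ℤ) (x + A'), (φ n ^ 2 + f j n ^ 2) / 2 := by
      apply Finset.sum_le_sum
      intro i _
      rw [abs_mul, ← sq_abs (φ i), ← sq_abs (f j i)]
      nlinarith [sq_nonneg (|φ i| - |f j i|)]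
    rw [← Finset.sum_div, sum_add_distrib, hnrm', hef.nrm] at h2
    linarith
  have hτt' : 1 - τ ≤ |t| := by
    rw [← sq_abs] at hτt
    nlinarith [abs_nonneg t]
  have hsum : ∀ w : ℤ → ℝ, ∑ n ∈ Icc (x - A' : ℤ) (x + A'), w n ^ 2 = 1 →
      ∑ n ∈ Icc (x - A' : ℤ) (x + A'), φ n * w n = |t| →
      ∑ n ∈ Icc (x - A' : ℤ) (x + A'), (φ n - w n) ^ 2 ≤ 2 * τ := by
    intro w hw1 hw2
    have h1 : ∑ n ∈ Icc (x - A' : ℤ) (x + A'), (φ n - w n) ^ 2 =
        ∑ n ∈ Icc (x - A' : ℤ) (x + A'), φ n ^ 2 - 2 * ∑ n ∈ Icc (x - A' : ℤ) (x + A'), φ n * w n +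
        ∑ n ∈ Icc (x - A' : ℤ) (x + A'), w n ^ 2 := by
      rw [Finset.mul_sum, ← Finset.sum_sub_distrib, ← sum_add_distrib]
      apply Finset.sum_congr rfl
      intro n _; ring
    rw [h1, hw1, hw2, hnrm']
    linarith
  have hx' : 2 * |c' - x| ≤ A' := by omega
  rcases le_total 0 t with h1 | h1
  · exact ⟨e j, f j, c', hef, hctr', hx', hj1, hsum _ hef.nrm (by rw [← ht, abs_of_nonneg h1])⟩
  · refine ⟨e j, fun n => - f j n, c', hef.neg, Ctr.neg hctr', hx', hj1, hsum _ hef.neg.nrm ?_⟩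
    rw [abs_of_nonpos h1, ht, ← Finset.sum_neg_distrib]
    apply Finset.sum_congr rfl
    intro n _; ring

end Pool.Agent.K9h34.LP
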